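import Pool.Agent.MC.XB

/-!
The second moment of `V`.
-/

set_option autoImplicit false

open Finset

namespace MC

variable {F K : Type} [Field F] [Field K] [Fintype F] [Fintype K] (C : Ctx F K)

namespace Ctx

/-- The phase `z z₁ + z z₂ + z₁ z₂ + z + z₁ + z₂ + 1`. -/
def ph (z : F) : F := z * C.s z + z * C.s (C.s z) + C.s z * C.s (C.s z) + z + C.s z
  + C.s (C.s z) + 1

include C

lemma fix_of_s3 {x : F} (h : C.s x = C.s (C.s (C.s x))) : C.s x = x := by
  have h1 : C.s (C.s (C.s (C.s (C.s x)))) = C.s (C.s (C.s (C.s (C.s (C.s (C.s x)))))) :=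
    congrArg (fun y => C.s (C.s (C.s (C.s y)))) h
  have h2 : x = C.s (C.s x) := by
    rw [C.s5] at h1
    exact h1
  have h3 : C.s (C.s (C.s (C.s x))) = x := by rw [← h2, ← h2]
  have h4 := congrArg C.s h3
  rw [C.s5] at h4
  exact h4.symm

lemma P_eq_iff (y h : F) : C.P y = C.P (y + h) ↔
    C.s (y * C.s y + (y + h) * C.s (y + h)) = y * C.s y + (y + h) * C.s (y + h) := by
  set D : F := y * C.s y + (y + h) * C.s (y + h) with hD
  have h1 : C.P y + C.P (y + h) = C.s D + C.s (C.s (C.s D)) := by
    rw [hD]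
    simp only [P, map_add, map_mul]
    ring
  constructor
  · intro e
    apply C.fix_of_s3
    apply C.eq_of_add
    rw [← h1, e, C.add_self]
  · intro e
    apply C.eq_of_add
    rw [h1, e, e, e, C.add_self]

lemma ph_shift (z : F) (r : K) : C.ph (z + C.i r) = C.ph z + (C.i r * C.i r + C.i r) := by
  simp only [ph, map_add, C.si]
  have h := C.two
  linear_combination (C.i r * (z + C.s z + C.s (C.s z)) + C.i r * C.i r + C.i r) * h

lemma ph_eq (h z : F) : C.χ (C.kap (h * z)) * C.χ (C.kap (h * z + h))
    = C.χ (C.kap h * C.ph z) := by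
  rw [← C.χadd]
  congr 1
  simp only [kap, ph, map_add, map_mul]
  have h2 := C.two
  linear_combination (h * C.s h * C.s (C.s h) * (z * C.s z * C.s (C.s z))) * h2

open Classical in
/-- `∑_μ χ (G (μ² + μ))`. -/
lemma sum_AS (G : K) : ∑ m : K, C.χ (C.i (G * (m * m + m)))
    = if G = 0 ∨ G = 1 then C.Q else 0 := by
  have h1 : ∀ m : K, C.χ (C.i (G * (m * m + m))) = C.χ (C.i ((m * m) * (G + G * G))) := by
    intro m
    have e1 : C.χ (C.i (G * m)) = C.χ (C.i (G * G * (m * m))) := by
      rw [← C.χsq (C.i (G * m)), ← map_mul]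
      congr 2
      ring
    rw [mul_add, map_add, C.χadd, e1, ← C.χadd, ← map_add]
    congr 2
    ring
  rw [Finset.sum_congr rfl fun m _ => h1 m]
  have h2 : ∑ m : K, C.χ (C.i (m * m * (G + G * G))) = ∑ m : K, C.χ (C.i (m * (G + G * G))) := by
    have hinj : Function.Injective (fun m : K => m * m) := fun a b h => C.sq_inj h
    have hb := Finite.injective_iff_bijective.mp hinj
    exact Equiv.sum_comp (Equiv.ofBijective _ hb) (fun m => C.χ (C.i (m * (G + G * G))))
  rw [h2, C.orthK_ite]
  have h3 : (G + G * G = 0) ↔ (G = 0 ∨ G = 1) := by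
    constructor
    · intro h
      have : G * (G + 1) = 0 := by linear_combination h
      rcases mul_eq_zero.mp this with h | h
      · exact Or.inl h
      · right
        have h4 := C.addK (1 : K)
        linear_combination h - h4
    · rintro (h | h)
      · rw [h]; ring
      · rw [h, mul_one]; exact C.addK 1
  simp only [h3]

lemma cond_shift (h z : F) (r : K) :
    (C.s (h * C.s h * (z + C.i r + C.s (z + C.i r) + 1)) = h * C.s h * (z + C.i r
      + C.s (z + C.i r) + 1))
    ↔ (C.s (h * C.s h * (z + C.s z + 1)) = h * C.s h * (z + C.s z + 1)) := by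
  have e : z + C.i r + C.s (z + C.i r) + 1 = z + C.s z + 1 := by
    rw [map_add, C.si]
    have h2 := C.two
    linear_combination (C.i r) * h2
  rw [e]

/-- The value of the phase at the solution. -/
lemma ph_val (g : F) (hg : C.T g = 1) :
    C.χ (g * C.ph (g + C.s (C.s (C.s g)))) = C.χ (g * C.s g) := by
  apply C.χcongr
  rw [C.iT, C.iT]
  have hT := C.iT g
  rw [hg, map_one] at hT
  simp only [ph, map_add, map_mul, C.s5, map_one]
  have h := C.two
  have h4 : C.s (C.s (C.s (C.s g))) = 1 - g - C.s g - C.s (C.s g) - C.s (C.s (C.s g)) := by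
    linear_combination -hT
  rw [h4]
  generalize C.s (C.s (C.s g)) = g3
  generalize C.s (C.s g) = g2
  generalize C.s g = g1
  linear_combination (2 - 2 * g + 2 * g * g1 - 2 * g * g1 * g2 + 3 * g * g2 - g * g2 ^ 2
    + 2 * g * g3 + 2 * g ^ 2 - g ^ 2 * g2 - 2 * g1 + 3 * g1 * g2 - 2 * g1 * g2 * g3
    - g1 * g2 ^ 2 + 3 * g1 * g3 - g1 * g3 ^ 2 + 2 * g1 ^ 2 - g1 ^ 2 * g2 - g1 ^ 2 * g3 - 2 * g2
    + 2 * g2 * g3 + 2 * g2 ^ 2 - 2 * g3 + 2 * g3 ^ 2) * h

open Classical in
/-- The inner sum for a fixed difference `h`. -/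
lemma inner (h : F) (hh : h ≠ 0) :
    ∑ z : F, (if C.s (h * C.s h * (z + C.s z + 1)) = h * C.s h * (z + C.s z + 1)
      then C.χ (C.kap h * C.ph z) else 0)
    = if C.T (C.kap h) = 1 then C.Q * C.χ (C.kap h * C.s (C.kap h)) else 0 := by
  set G : K := C.T (C.kap h) with hG
  have hh1 := C.s_ne hh
  have hh2 := C.s_ne hh1
  have hh3 := C.s_ne hh2
  have hh4 := C.s_ne hh3
  have hN := C.Nm_ne hh
  -- averaging over K
  have hav : C.Q * ∑ z : F, (if C.s (h * C.s h * (z + C.s z + 1)) = h * C.s h * (z + C.s z + 1)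
      then C.χ (C.kap h * C.ph z) else 0)
      = (∑ z : F, (if C.s (h * C.s h * (z + C.s z + 1)) = h * C.s h * (z + C.s z + 1)
      then C.χ (C.kap h * C.ph z) else 0)) * ∑ m : K, C.χ (C.i (G * (m * m + m))) := by
    have e1 : ∀ m : K, ∑ z : F,
        (if C.s (h * C.s h * (z + C.s z + 1)) = h * C.s h * (z + C.s z + 1)
        then C.χ (C.kap h * C.ph z) else 0)
        = (∑ z : F, (if C.s (h * C.s h * (z + C.s z + 1)) = h * C.s h * (z + C.s z + 1)
        then C.χ (C.kap h * C.ph z) else 0)) * C.χ (C.i (G * (m * m + m))) := by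
      intro m
      rw [Finset.sum_mul]
      refine Eq.trans (Equiv.sum_comp (Equiv.addRight (C.i m)) (fun z =>
        (if C.s (h * C.s h * (z + C.s z + 1)) = h * C.s h * (z + C.s z + 1)
        then C.χ (C.kap h * C.ph z) else 0))).symm ?_
      refine Finset.sum_congr rfl fun z _ => ?_
      simp only [Equiv.coe_addRight, C.cond_shift h z m]
      split_ifs with hc
      · have e2 : C.χ (C.kap h * (C.i m * C.i m + C.i m)) = C.χ (C.i (G * (m * m + m))) := by
          have : C.i m * C.i m + C.i m = C.i (m * m + m) := by rw [map_add, map_mul]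
          rw [this, mul_comm (C.kap h), C.χi, mul_comm (m * m + m)]
        rw [C.ph_shift, mul_add, C.χadd, e2]
      · rw [zero_mul]
    set Z : ℤ := ∑ z : F, (if C.s (h * C.s h * (z + C.s z + 1)) = h * C.s h * (z + C.s z + 1)
      then C.χ (C.kap h * C.ph z) else 0) with hZ
    calc C.Q * Z = ∑ _m : K, Z := by
          simp only [Finset.sum_const, Finset.card_univ, nsmul_eq_mul]
          rfl
      _ = ∑ m : K, Z * C.χ (C.i (G * (m * m + m))) := Finset.sum_congr rfl fun m _ => e1 m
      _ = Z * ∑ m : K, C.χ (C.i (G * (m * m + m))) := (Finset.mul_sum _ _ _).symm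
  -- the relation satisfied by solutions
  have hrel : ∀ z : F, C.s (h * C.s h * (z + C.s z + 1)) = h * C.s h * (z + C.s z + 1) →
      h * C.s h * (z + C.s z + 1) * C.i G = C.i (C.Nm h) ∧
      C.i (C.Nm h) * (z + C.s z + 1) = h * C.s h * (z + C.s z + 1) * C.s (C.s (C.kap h)) := by
    intro z hz
    obtain ⟨l, hl⟩ := C.fix _ hz
    have e1 : C.i (C.Nm h) * (z + C.s z + 1) = h * C.s h * (z + C.s z + 1) *
        C.s (C.s (C.kap h)) := by
      rw [C.iNm]
      simp only [kap, map_mul]
      ring
    refine ⟨?_, e1⟩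
    have e2 : C.T (C.i (C.Nm h) * (z + C.s z + 1)) = C.T (C.i l * C.s (C.s (C.kap h))) := by
      rw [e1, hl]
    rw [C.Tmul, C.Tmul, C.Tadd, C.Tadd, C.Ts, C.Ts, C.Ts, C.Tone, C.addK, zero_add, mul_one] at e2
    rw [← hl, ← map_mul, e2]
  by_cases h1 : G = 1
  · rw [if_pos h1]
    have hcond : ∀ z : F, (C.s (h * C.s h * (z + C.s z + 1)) = h * C.s h * (z + C.s z + 1)) ↔
        (z + C.s z + 1 = C.s (C.s (C.kap h))) := by
      intro z
      constructor
      · intro hz
        obtain ⟨r1, r2⟩ := hrel z hz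
        rw [h1, map_one, mul_one] at r1
        have hNF : C.i (C.Nm h) ≠ 0 := by
          intro h0; apply hN; apply C.inj; rw [h0, map_zero]
        rw [r1] at r2
        exact mul_left_cancel₀ hNF r2
      · intro hz
        rw [hz]
        have : h * C.s h * C.s (C.s (C.kap h)) = C.i (C.Nm h) := by
          rw [C.iNm]
          simp only [kap, map_mul]
          ring
        rw [this, C.si]
    have e3 : ∑ z : F, (if C.s (h * C.s h * (z + C.s z + 1)) = h * C.s h * (z + C.s z + 1)
        then C.χ (C.kap h * C.ph z) else 0)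
        = ∑ w : F, (if C.s w = w then C.χ (C.kap h * C.ph (w + (C.kap h +
          C.s (C.s (C.s (C.kap h)))))) else 0) := by
      refine Eq.trans (Equiv.sum_comp (Equiv.addRight (C.kap h + C.s (C.s (C.s (C.kap h)))))
        (fun z => (if C.s (h * C.s h * (z + C.s z + 1)) = h * C.s h * (z + C.s z + 1)
        then C.χ (C.kap h * C.ph z) else 0))).symm ?_
      refine Finset.sum_congr rfl fun w _ => ?_
      simp only [Equiv.coe_addRight, hcond]
      have hiff : (w + (C.kap h + C.s (C.s (C.s (C.kap h)))) +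
          C.s (w + (C.kap h + C.s (C.s (C.s (C.kap h))))) + 1 = C.s (C.s (C.kap h)))
          ↔ C.s w = w := by
        have hT := C.iT (C.kap h)
        rw [← hG, h1, map_one] at hT
        have e4 : w + (C.kap h + C.s (C.s (C.s (C.kap h)))) +
          C.s (w + (C.kap h + C.s (C.s (C.s (C.kap h))))) + 1
          = w + C.s w + C.s (C.s (C.kap h)) := by
          simp only [map_add]
          have h2 := C.two
          linear_combination hT + (C.kap h + C.s (C.kap h) + C.s (C.s (C.s (C.kap h)))
            + C.s (C.s (C.s (C.s (C.kap h))))) * h2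
        rw [e4]
        constructor
        · intro e5
          have : w + C.s w = 0 := by linear_combination e5
          exact (C.eq_of_add _ _ this).symm
        · intro e5
          rw [e5, C.add_self, zero_add]
      simp only [hiff]
    rw [e3, C.sum_fix (fun w => C.χ (C.kap h * C.ph (w + (C.kap h +
          C.s (C.s (C.s (C.kap h)))))))]
    have e6 : ∀ t : K, C.χ (C.kap h * C.ph (C.i t + (C.kap h + C.s (C.s (C.s (C.kap h))))))
        = C.χ (C.kap h * C.s (C.kap h)) := by
      intro t
      rw [add_comm (C.i t), C.ph_shift, mul_add, C.χadd, C.ph_val (C.kap h) (by rw [← hG, h1])]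
      have : C.i t * C.i t + C.i t = C.i (t * t + t) := by rw [map_add, map_mul]
      rw [this, mul_comm (C.kap h) (C.i (t * t + t)), C.χi, ← hG, h1, mul_one, map_add, map_mul,
        C.χadd (C.i t * C.i t), C.χsq, C.χmul, mul_one]
    rw [Finset.sum_congr rfl fun t _ => e6 t]
    simp only [Finset.sum_const, Finset.card_univ, nsmul_eq_mul]
    rfl
  · rw [if_neg h1]
    by_cases h0 : G = 0
    · apply Finset.sum_eq_zero
      intro z _
      rw [if_neg]
      intro hz
      obtain ⟨r1, _⟩ := hrel z hz
      rw [h0, map_zero, mul_zero] at r1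
      apply hN
      apply C.inj
      rw [← r1, map_zero]
    · rw [C.sum_AS, if_neg (by push_neg; exact ⟨h0, h1⟩), mul_zero] at hav
      have hQ : C.Q ≠ 0 := by have := C.Qpos; omega
      exact (mul_eq_zero.mp hav).resolve_left hQ

lemma kap_inj {y z : F} (h : C.kap y = C.kap z) : y = z := by
  by_cases hz : z = 0
  · subst hz
    rw [C.kap_zero] at h
    by_contra hy
    have h1 := C.s_ne hy
    have h2 := C.s_ne h1
    exact (mul_ne_zero (mul_ne_zero hy h1) h2) h
  · have h1 := C.s_ne hz
    have h2 := C.s_ne h1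
    have hr : (y / z) * C.s (y / z) * C.s (C.s (y / z)) = 1 := by
      rw [map_div₀, map_div₀]
      unfold kap at h
      field_simp
      exact h
    have hr1 : C.s (y / z) * C.s (C.s (y / z)) * C.s (C.s (C.s (y / z))) = 1 := by
      have := congrArg C.s hr
      simpa only [map_mul, map_one] using this
    have hne : C.s (y / z) * C.s (C.s (y / z)) ≠ 0 := by
      intro h0
      rw [h0, zero_mul] at hr1
      exact zero_ne_one hr1
    have e1 : y / z = C.s (C.s (C.s (y / z))) := by
      apply mul_left_cancel₀ hne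
      rw [hr1, ← hr]
      ring
    have e2 : C.s (C.s (y / z)) = y / z := by
      have := congrArg (fun x => C.s (C.s x)) e1
      simp only [C.s5] at this
      exact this
    have e3 : C.s (y / z) = y / z := by
      have := congrArg C.s e2
      rw [this.symm.trans rfl] at *
      have h5 : C.s (C.s (C.s (y / z))) = C.s (y / z) := by rw [e2]
      rw [← h5]
      exact e1.symm
    obtain ⟨t, ht⟩ := C.fix _ e3
    rw [e3, e3, ← ht, ← map_mul, ← map_mul] at hr
    have h4 : t * t * t = 1 := by apply C.inj; rw [hr, map_one]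
    have h5 := C.cube t h4
    rw [h5, map_one] at ht
    field_simp at ht
    exact ht.symm

open Classical in
lemma V_sq_sum : ∑ u : F, C.V u * C.V u = C.Q ^ 5 * (C.Q ^ 5 - C.E 1) := by
  -- expand
  have h1 : ∑ u : F, C.V u * C.V u = C.Q ^ 5 * ∑ h : F, ∑ y : F,
      (if C.P y = C.P (y + h) then C.χ (C.kap y) * C.χ (C.kap (y + h)) else 0) := by
    have e1 : ∀ u : F, C.V u * C.V u
        = ∑ y : F, ∑ h : F, (C.χ (C.kap y) * C.χ (C.kap (y + h))) *
          C.χ (u * (C.P y + C.P (y + h))) := by
      intro u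
      rw [V, Finset.sum_mul_sum]
      refine Finset.sum_congr rfl fun y _ => ?_
      rw [← Equiv.sum_comp (Equiv.addLeft y)]
      refine Finset.sum_congr rfl fun h _ => ?_
      simp only [Equiv.coe_addLeft]
      rw [C.χadd, C.χadd, mul_add, C.χadd]
      ring
    rw [Finset.sum_congr rfl fun u _ => e1 u, Finset.sum_comm]
    have e2 : ∀ y : F, ∑ u : F, ∑ h : F, (C.χ (C.kap y) * C.χ (C.kap (y + h))) *
          C.χ (u * (C.P y + C.P (y + h)))
        = C.Q ^ 5 * ∑ h : F,
          (if C.P y = C.P (y + h) then C.χ (C.kap y) * C.χ (C.kap (y + h)) else 0) := by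
      intro y
      rw [Finset.sum_comm, Finset.mul_sum]
      refine Finset.sum_congr rfl fun h _ => ?_
      rw [← Finset.mul_sum, C.orth_ite]
      by_cases hc : C.P y = C.P (y + h)
      · rw [if_pos hc, if_pos (by rw [hc, C.add_self])]
        ring
      · rw [if_neg hc, if_neg (fun h0 => hc (C.eq_of_add _ _ h0))]
        ring
    rw [Finset.sum_congr rfl fun y _ => e2 y, ← Finset.mul_sum, Finset.sum_comm]
  have h2 : ∀ h : F, ∑ y : F,
      (if C.P y = C.P (y + h) then C.χ (C.kap y) * C.χ (C.kap (y + h)) else 0)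
      = (if h = 0 then C.Q ^ 5 else 0) +
        (if C.T (C.kap h) = 1 then C.Q * C.χ (C.kap h * C.s (C.kap h)) else 0) := by
    intro h
    by_cases hh : h = 0
    · subst hh
      rw [if_pos rfl, C.kap_zero, C.Tzero, if_neg zero_ne_one, add_zero]
      simp only [add_zero, if_true, C.χmul, Finset.sum_const, Finset.card_univ, nsmul_eq_mul,
        mul_one]
      exact C.cardF
    · rw [if_neg hh, zero_add, ← C.inner h hh, ← sum_mulLeft h hh]
      refine Finset.sum_congr rfl fun z _ => ?_
      have e1 : (h * z) * C.s (h * z) + (h * z + h) * C.s (h * z + h)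
          = h * C.s h * (z + C.s z + 1) := by
        simp only [map_add, map_mul]
        have h2 := C.two
        linear_combination (h * C.s h * (z * C.s z)) * h2
      rw [C.ph_eq]
      have e2 : C.P (h * z) = C.P (h * z + h) ↔
          C.s (h * C.s h * (z + C.s z + 1)) = h * C.s h * (z + C.s z + 1) := by
        rw [C.P_eq_iff, e1]
      simp only [e2]
  rw [h1, Finset.sum_congr rfl fun h _ => h2 h, Finset.sum_add_distrib, Finset.sum_ite_eq']
  simp only [Finset.mem_univ, if_true]
  have h3 : ∑ h : F, (if C.T (C.kap h) = 1 then C.Q * C.χ (C.kap h * C.s (C.kap h)) else 0)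
      = - C.E 1 := by
    rw [← C.trace_one_sum, Finset.mul_sum]
    have hinj : Function.Injective C.kap := fun a b h => C.kap_inj h
    have hb := Finite.injective_iff_bijective.mp hinj
    refine Eq.trans ?_ (Equiv.sum_comp (Equiv.ofBijective _ hb)
      (fun g => C.Q * (if C.T g = 1 then C.χ (g * C.s g) else 0)))
    refine Finset.sum_congr rfl fun h _ => ?_
    simp only [Equiv.ofBijective_apply]
    split_ifs <;> simp
  rw [h3]
  ring

end Ctx

end MC
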