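import Pool.Agent.MC.PartE

/-!
The abstract setting for the finite field with `2 ^ (5 k)` elements, `k` odd.
-/

set_option autoImplicit false

open Finset

namespace MC

/-- The canonical additive character, as an integer. -/
noncomputable def chi {F : Type} [Field F] [Algebra (ZMod 2) F] (x : F) : ℤ :=
  (-1) ^ ((Algebra.trace (ZMod 2) F x).val)

section

variable {F : Type} [Field F] [Fintype F] [Algebra (ZMod 2) F]

omit [Fintype F] in
lemma two_eq_zero : (2 : F) = 0 := by
  have h : (algebraMap (ZMod 2) F) (1 + 1 : ZMod 2) = 1 + 1 := by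
    rw [map_add, map_one]
  rw [show (1 + 1 : ZMod 2) = 0 from rfl, map_zero] at h
  rw [← one_add_one_eq_two, ← h]

omit [Fintype F] in
lemma charTwo : CharP F 2 := charP_of_injective_algebraMap (algebraMap (ZMod 2) F).injective 2

lemma zmod_pow_add (a b : ZMod 2) : (-1 : ℤ) ^ ((a + b).val) = (-1) ^ a.val * (-1) ^ b.val := by
  revert a b
  decide

omit [Fintype F] in
lemma chi_add (x y : F) : chi (x + y) = chi x * chi y := by
  unfold chi
  rw [map_add, zmod_pow_add]

lemma trace_sq (x : F) : Algebra.trace (ZMod 2) F (x ^ 2) = Algebra.trace (ZMod 2) F x := by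
  have h := Algebra.trace_eq_of_algEquiv (FiniteField.frobeniusAlgEquivOfAlgebraic (ZMod 2) F) x
  rw [FiniteField.coe_frobeniusAlgEquivOfAlgebraic, ZMod.card] at h
  exact h

lemma chi_sq (x : F) : chi (x ^ 2) = chi x := by
  unfold chi
  rw [trace_sq]

lemma chi_pow (x : F) (e : ℕ) : chi (x ^ (2 ^ e)) = chi x := by
  induction e with
  | zero => simp
  | succ e ih => rw [pow_succ, pow_mul, chi_sq, ih]

lemma finrank_eq {n : ℕ} (hF : Fintype.card F = 2 ^ n) : Module.finrank (ZMod 2) F = n := by
  have h := FiniteField.pow_finrank_eq_card 2 F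
  rw [hF] at h
  exact Nat.pow_right_injective (le_refl 2) h

lemma chi_one {n : ℕ} (hF : Fintype.card F = 2 ^ n) (hn : Odd n) : chi (1 : F) = -1 := by
  unfold chi
  have h : Algebra.trace (ZMod 2) F (1 : F) = 1 := by
    have h1 := Algebra.trace_algebraMap (R := ZMod 2) (S := F) (1 : ZMod 2)
    rw [map_one, finrank_eq hF] at h1
    rw [h1]
    obtain ⟨m, rfl⟩ := hn
    simp only [nsmul_eq_mul, mul_one]
    push_cast
    rw [show (2 : ZMod 2) = 0 from rfl]
    ring
  rw [h]
  rfl

end

end MC
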