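import Pool.Agent.MC.Conc

/-!
Existence of the abstract setting.
-/

set_option autoImplicit false

open Finset

namespace MC

section

variable {F : Type} [Field F] [Fintype F] [Algebra (ZMod 2) F]

lemma range_of_fixed {K : Type} [Field K] [Fintype K] (φ : K →+* F) {k : ℕ} (hk : 0 < k)
    (hK : Fintype.card K = 2 ^ k) (x : F) (hx : x ^ (2 ^ k) = x) : ∃ t : K, φ t = x := by
  classical
  have h1 : (Finset.univ.image φ : Finset F) ⊆ Finset.univ.filter (fun x : F => x ^ (2 ^ k) = x) := by
    intro y hy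
    obtain ⟨t, -, rfl⟩ := Finset.mem_image.mp hy
    rw [Finset.mem_filter]
    refine ⟨Finset.mem_univ _, ?_⟩
    rw [← map_pow, ← hK, FiniteField.pow_card]
  have h2 : (Finset.univ.filter (fun x : F => x ^ (2 ^ k) = x)).card ≤ 2 ^ k := by
    have hne : (Polynomial.X ^ (2 ^ k) - Polynomial.X : Polynomial F) ≠ 0 :=
      FiniteField.X_pow_card_sub_X_ne_zero F (Nat.one_lt_two_pow hk.ne')
    have hdeg : (Polynomial.X ^ (2 ^ k) - Polynomial.X : Polynomial F).natDegree = 2 ^ k :=
      FiniteField.X_pow_card_sub_X_natDegree_eq F (Nat.one_lt_two_pow hk.ne')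
    have h3 : (Finset.univ.filter (fun x : F => x ^ (2 ^ k) = x)) ⊆
        (Polynomial.X ^ (2 ^ k) - Polynomial.X : Polynomial F).roots.toFinset := by
      intro y hy
      rw [Finset.mem_filter] at hy
      rw [Multiset.mem_toFinset, Polynomial.mem_roots hne, Polynomial.IsRoot.def]
      simp [hy.2]
    calc _ ≤ _ := Finset.card_le_card h3
      _ ≤ Multiset.card (Polynomial.X ^ (2 ^ k) - Polynomial.X : Polynomial F).roots :=
        Multiset.toFinset_card_le _
      _ ≤ _ := Polynomial.card_roots' _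
      _ = 2 ^ k := hdeg
  have h4 : (Finset.univ.image φ : Finset F).card = 2 ^ k := by
    rw [Finset.card_image_of_injective _ φ.injective, Finset.card_univ, hK]
  have h5 := Finset.eq_of_subset_of_card_le h1 (by rw [h4]; exact h2)
  have h6 : x ∈ (Finset.univ.image φ : Finset F) := by
    rw [h5, Finset.mem_filter]
    exact ⟨Finset.mem_univ _, hx⟩
  obtain ⟨t, -, ht⟩ := Finset.mem_image.mp h6
  exact ⟨t, ht⟩

lemma cube_one {K : Type} [Field K] [Fintype K] {k : ℕ} (hk : Odd k)
    (hK : Fintype.card K = 2 ^ k) (t : K) (ht : t * t * t = 1) : t = 1 := by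
  have ht0 : t ≠ 0 := by
    rintro rfl
    simp at ht
  have h1 : t ^ (2 ^ k - 1) = 1 := by
    rw [← hK]
    exact FiniteField.pow_card_sub_one_eq_one t ht0
  have h2 : t ^ 3 = 1 := by rw [← ht]; ring
  have h3 : Nat.gcd (2 ^ k - 1) 3 = 1 := by
    have h4 : (2 ^ k) % 3 = 2 := by
      obtain ⟨m, rfl⟩ := hk
      rw [pow_succ, pow_mul, Nat.mul_mod, Nat.pow_mod]
      norm_num
    have h5 : 1 ≤ 2 ^ k := Nat.one_le_two_pow
    have h6 : ¬ (3 ∣ 2 ^ k - 1) := by omega
    have h7 := (Nat.Prime.coprime_iff_not_dvd Nat.prime_three).mpr h6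
    exact Nat.Coprime.symm h7
  have h8 := pow_gcd_eq_one.mpr ⟨h1, h2⟩
  rw [h3, pow_one] at h8
  exact h8

/-- The abstract setting exists for the field with `2 ^ (5 k)` elements. -/
theorem exists_ctx {k : ℕ} (hk : Odd k) (hF : Fintype.card F = 2 ^ (5 * k)) (r : ℕ)
    (hr : r = 1 ∨ r = 2) :
    ∃ (K : Type) (_ : Field K) (_ : Fintype K) (C : Ctx F K),
      Fintype.card K = 2 ^ k ∧ (∀ x, C.s x = x ^ (2 ^ (r * k))) ∧ (∀ x, C.χ x = chi x) := by
  have hk0 : 0 < k := hk.pos
  obtain ⟨φ⟩ : Nonempty (GaloisField 2 k →ₐ[ZMod 2] F) :=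
    FiniteField.nonempty_algHom_of_finrank_dvd (by
      rw [GaloisField.finrank 2 hk0.ne', finrank_eq hF]
      exact dvd_mul_left _ _)
  letI : Fintype (GaloisField 2 k) := Fintype.ofFinite _
  have hK : Fintype.card (GaloisField 2 k) = 2 ^ k := by
    rw [Fintype.card_eq_nat_card, GaloisField.card 2 k hk0.ne']
  haveI : CharP F 2 := charTwo
  haveI : ExpChar F 2 := ExpChar.prime Nat.prime_two
  have hpow : ∀ x : F, x ^ (2 ^ (5 * k)) = x := by
    intro x
    rw [← hF, FiniteField.pow_card]
  have hs5 : ∀ x : F, ((((x ^ (2 ^ (r * k))) ^ (2 ^ (r * k))) ^ (2 ^ (r * k))) ^ (2 ^ (r * k)))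
      ^ (2 ^ (r * k)) = x := by
    intro x
    simp only [← pow_mul, ← pow_add]
    rcases hr with rfl | rfl
    · rw [show 1 * k + 1 * k + 1 * k + 1 * k + 1 * k = 5 * k by ring, hpow]
    · rw [show 2 * k + 2 * k + 2 * k + 2 * k + 2 * k = 5 * k + 5 * k by ring, pow_add, pow_mul,
        hpow, hpow]
  have hfixK : ∀ t : GaloisField 2 k, (φ t) ^ (2 ^ (r * k)) = φ t := by
    intro t
    have h1 : t ^ (2 ^ k) = t := by rw [← hK, FiniteField.pow_card]
    rw [← map_pow]
    rcases hr with rfl | rfl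
    · rw [one_mul, h1]
    · rw [two_mul, pow_add, pow_mul, h1, h1]
  have hrange : ∀ x : F, x ^ (2 ^ (r * k)) = x → ∃ t : GaloisField 2 k, φ t = x := by
    intro x hx
    apply range_of_fixed φ.toRingHom hk0 hK
    rcases hr with rfl | rfl
    · rwa [one_mul] at hx
    · have h4 : x ^ (2 ^ (4 * k)) = x := by
        rw [show 4 * k = 2 * k + 2 * k by ring, pow_add, pow_mul, hx, hx]
      have h5 := hpow x
      rw [show 5 * k = 4 * k + k by ring, pow_add, pow_mul, h4] at h5
      exact h5
  let s : F →+* F := iterateFrobenius F 2 (r * k)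
  have hs : ∀ x, s x = x ^ (2 ^ (r * k)) := fun x => iterateFrobenius_def 2 (r * k) x
  have hT : ∀ x : F, ∃ t : GaloisField 2 k, φ t = x + s x + s (s x) + s (s (s x)) +
      s (s (s (s x))) := by
    intro x
    apply hrange
    rw [← hs]
    simp only [map_add]
    have h5 : s (s (s (s (s x)))) = x := by
      simp only [hs]
      exact hs5 x
    rw [h5]
    ring
  choose T hTe using hT
  have hone : chi (1 : F) = -1 := chi_one hF (by
    rw [Nat.odd_mul]
    exact ⟨by decide, hk⟩)
  refine ⟨GaloisField 2 k, inferInstance, inferInstance,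
    { i := φ.toRingHom
      s := s
      T := T
      χ := chi
      two := two_eq_zero
      s5 := ?_
      si := ?_
      fix := ?_
      iT := ?_
      χadd := chi_add
      χs := ?_
      χsq := ?_
      χone := hone
      cube := cube_one hk hK
      orth := ?_
      card := ?_ }, hK, hs, fun _ => rfl⟩
  · intro x
    simp only [hs]
    exact hs5 x
  · intro t
    rw [hs]
    exact hfixK t
  · intro x hx
    rw [hs] at hx
    exact hrange x hx
  · exact hTe
  · intro x
    rw [hs, chi_pow]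
  · intro x
    rw [← sq, chi_sq]
  · intro c hc
    have h1 : ∑ x : F, chi (x * c) = ∑ x : F, chi x :=
      Equiv.sum_comp (Equiv.mulRight₀ c hc) (fun x => chi x)
    have h2 : ∑ x : F, chi x = ∑ x : F, chi (x + 1) :=
      (Equiv.sum_comp (Equiv.addRight (1 : F)) (fun x => chi x)).symm
    have h3 : ∑ x : F, chi (x + 1) = - ∑ x : F, chi x := by
      rw [← Finset.sum_neg_distrib]
      refine Finset.sum_congr rfl fun x _ => ?_
      rw [chi_add, hone]
      ring
    rw [h1]
    linarith [h2.trans h3]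
  · rw [hF, hK, ← pow_mul]
    ring_nf

end

end MC
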