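import Pool.Agent.MC.XSum

/-!
Counting lemmas.
-/

set_option autoImplicit false

open Finset

namespace MC

variable {F K : Type} [Field F] [Field K] [Fintype F] [Fintype K] (C : Ctx F K)

namespace Ctx

include C

open Classical in
lemma count_T (c : K) : ∑ v : F, (if C.T v = c then (1 : ℤ) else 0) = C.Q ^ 4 := by
  have h1 : ∀ d : K, ∑ v : F, (if C.T v = d then (1 : ℤ) else 0)
      = ∑ v : F, (if C.T v = c then (1 : ℤ) else 0) := by
    intro d
    rw [← Equiv.sum_comp (Equiv.addRight (C.i (d + c))) (fun v => if C.T v = d then (1 : ℤ) else 0)]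
    refine Finset.sum_congr rfl fun v _ => ?_
    have e0 : C.T (v + C.i (d + c)) = C.T v + (d + c) := by rw [C.Tadd, C.Ti]
    simp only [Equiv.coe_addRight, e0]
    have h3 := C.addK d
    have h4 := C.addK c
    have : (C.T v + (d + c) = d) ↔ C.T v = c := by
      constructor
      · intro h; linear_combination h - h4
      · intro h; linear_combination h + h4
    simp only [this]
  have h2 : ∑ d : K, ∑ v : F, (if C.T v = d then (1 : ℤ) else 0) = C.Q ^ 5 := by
    rw [Finset.sum_comm]
    have : ∀ v : F, ∑ d : K, (if C.T v = d then (1 : ℤ) else 0) = 1 := by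
      intro v
      rw [Finset.sum_ite_eq]
      simp
    rw [Finset.sum_congr rfl fun v _ => this v]
    simp only [Finset.sum_const, Finset.card_univ, nsmul_eq_mul, mul_one]
    exact C.cardF
  rw [Finset.sum_congr rfl fun d _ => h1 d] at h2
  simp only [Finset.sum_const, Finset.card_univ, nsmul_eq_mul] at h2
  change C.Q * _ = _ at h2
  have hQ : C.Q ≠ 0 := by have := C.Qpos; omega
  apply mul_left_cancel₀ hQ
  linarith [h2, (by ring : C.Q * C.Q ^ 4 = C.Q ^ 5)]

lemma cube_inj {a b : K} (h : a * a * a = b * b * b) : a = b := by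
  by_cases hb : b = 0
  · subst hb
    simp only [mul_zero, mul_eq_zero] at h
    rcases h with (h | h) | h <;> exact h
  · have h1 : (a / b) * (a / b) * (a / b) = 1 := by
      field_simp
      linear_combination h
    have h2 := C.cube _ h1
    field_simp at h2
    exact h2

lemma cube_surj (c : K) : ∃ a : K, a * a * a = c := by
  have h1 : Function.Injective (fun a : K => a * a * a) := fun a b h => C.cube_inj h
  exact Finite.injective_iff_surjective.mp h1 c

lemma Nm_mul (m : K) (v : F) : C.Nm (C.i m * v) = m ^ 5 * C.Nm v := by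
  apply C.inj
  rw [C.iNm, map_mul C.i, map_pow C.i, C.iNm]
  simp only [map_mul, C.si]
  ring

open Classical in
lemma count_norm :
    ∑ v : F, (if v ≠ 0 ∧ C.T v * C.T v = C.Nm v then (1 : ℤ) else 0) = C.Q ^ 4 := by
  have h1 : ∑ m : K, ∑ v : F,
      (if m ≠ 0 ∧ v ≠ 0 ∧ C.T (C.i m * v) * C.T (C.i m * v) = C.Nm (C.i m * v)
        then (1 : ℤ) else 0)
      = (C.Q - 1) * ∑ v : F, (if v ≠ 0 ∧ C.T v * C.T v = C.Nm v then (1 : ℤ) else 0) := by
    have e1 : ∀ m : K, ∑ v : F,
      (if m ≠ 0 ∧ v ≠ 0 ∧ C.T (C.i m * v) * C.T (C.i m * v) = C.Nm (C.i m * v)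
        then (1 : ℤ) else 0)
        = (if m = 0 then 0 else 1) *
          ∑ v : F, (if v ≠ 0 ∧ C.T v * C.T v = C.Nm v then (1 : ℤ) else 0) := by
      intro m
      by_cases hm : m = 0
      · subst hm
        simp
      · have hmF : C.i m ≠ 0 := by
          intro h; apply hm; apply C.inj; rw [h, map_zero]
        rw [if_neg hm, one_mul, ← sum_mulLeft (C.i m) hmF
          (fun v => if v ≠ 0 ∧ C.T v * C.T v = C.Nm v then (1 : ℤ) else 0)]
        refine Finset.sum_congr rfl fun v _ => ?_
        have : (C.i m * v ≠ 0) ↔ v ≠ 0 := by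
          constructor
          · intro h h0; apply h; rw [h0, mul_zero]
          · intro h; exact mul_ne_zero hmF h
        simp only [this, ne_eq, hm, not_false_eq_true, true_and]
    rw [Finset.sum_congr rfl fun m _ => e1 m, ← Finset.sum_mul]
    congr 1
    have e2 : ∀ m : K, (if m = 0 then (0 : ℤ) else 1) = 1 - (if m = 0 then 1 else 0) := by
      intro m; by_cases hm : m = 0 <;> simp [hm]
    rw [Finset.sum_congr rfl fun m _ => e2 m, Finset.sum_sub_distrib, Finset.sum_ite_eq']
    simp only [Finset.sum_const, Finset.card_univ, nsmul_eq_mul, mul_one, Finset.mem_univ, if_true]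
    rfl
  have h2 : ∑ m : K, ∑ v : F,
      (if m ≠ 0 ∧ v ≠ 0 ∧ C.T (C.i m * v) * C.T (C.i m * v) = C.Nm (C.i m * v)
        then (1 : ℤ) else 0) = C.Q ^ 5 - C.Q ^ 4 := by
    rw [Finset.sum_comm]
    have e1 : ∀ v : F, ∑ m : K,
        (if m ≠ 0 ∧ v ≠ 0 ∧ C.T (C.i m * v) * C.T (C.i m * v) = C.Nm (C.i m * v)
          then (1 : ℤ) else 0) = 1 - (if C.T v = 0 then 1 else 0) := by
      intro v
      by_cases hT : C.T v = 0
      · rw [if_pos hT, sub_self]
        apply Finset.sum_eq_zero
        intro m _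
        rw [if_neg]
        rintro ⟨hm, hv, h⟩
        rw [C.Tmul, hT, mul_zero, mul_zero] at h
        have hmF : C.i m ≠ 0 := by
          intro h; apply hm; apply C.inj; rw [h, map_zero]
        exact C.Nm_ne (mul_ne_zero hmF hv) h.symm
      · have hv : v ≠ 0 := by
          rintro rfl; exact hT C.Tzero
        have hN := C.Nm_ne hv
        rw [if_neg hT, sub_zero]
        obtain ⟨a, ha⟩ := C.cube_surj (C.T v * C.T v / C.Nm v)
        have ha' : a * a * a * C.Nm v = C.T v * C.T v := by
          rw [ha]; field_simp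
        have ha0 : a ≠ 0 := by
          rintro rfl
          rw [mul_zero, zero_mul] at ha'
          exact hT (mul_self_eq_zero.mp ha'.symm)
        rw [Finset.sum_eq_single a]
        · rw [if_pos]
          refine ⟨ha0, hv, ?_⟩
          rw [C.Tmul, C.Nm_mul]
          linear_combination (-(a * a)) * ha'
        · intro b _ hb
          rw [if_neg]
          rintro ⟨hb0, _, h⟩
          apply hb
          rw [C.Tmul, C.Nm_mul] at h
          apply C.cube_inj
          have h5 : b * b * (b * b * b * C.Nm v) = b * b * (a * a * a * C.Nm v) := by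
            rw [ha']
            linear_combination -h
          have h6 := mul_left_cancel₀ (mul_ne_zero hb0 hb0) h5
          exact mul_right_cancel₀ hN h6
        · intro h; exact absurd (Finset.mem_univ a) h
    rw [Finset.sum_congr rfl fun v _ => e1 v, Finset.sum_sub_distrib, C.count_T]
    simp only [Finset.sum_const, Finset.card_univ, nsmul_eq_mul, mul_one]
    rw [C.cardF]
  rw [h1] at h2
  have hQ : C.Q - 1 ≠ 0 := by have := C.Qpos; omega
  apply mul_left_cancel₀ hQ
  rw [h2]
  ring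

/-- `g₁ g₂ g₃ g₄`. -/
lemma cond_iff {g : F} (hg : g ≠ 0) :
    (C.T (C.s g * C.s (C.s g) * C.s (C.s (C.s g)) * C.s (C.s (C.s (C.s g)))) *
      C.T (C.s g * C.s (C.s g) * C.s (C.s (C.s g)) * C.s (C.s (C.s (C.s g)))) = C.Nm g)
    ↔ (C.T g⁻¹ * C.T g⁻¹ = C.Nm g⁻¹) := by
  have hN := C.Nm_ne hg
  have hgi : g⁻¹ ≠ 0 := inv_ne_zero hg
  have hw : C.s g * C.s (C.s g) * C.s (C.s (C.s g)) * C.s (C.s (C.s (C.s g)))
      = C.i (C.Nm g) * g⁻¹ := by
    rw [C.iNm]
    field_simp
  have hNi : C.Nm g * C.Nm g⁻¹ = 1 := by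
    apply C.inj
    rw [map_mul, C.iNm, C.iNm, map_one]
    have a1 := C.s_ne hg
    have a2 := C.s_ne a1
    have a3 := C.s_ne a2
    have a4 := C.s_ne a3
    simp only [map_inv₀]
    field_simp
  rw [hw, C.Tmul]
  constructor
  · intro h
    have h1 : C.Nm g * (C.Nm g * (C.T g⁻¹ * C.T g⁻¹)) = C.Nm g * (C.Nm g * C.Nm g⁻¹) := by
      rw [hNi]
      linear_combination h
    exact mul_left_cancel₀ hN (mul_left_cancel₀ hN h1)
  · intro h
    calc C.Nm g * C.T g⁻¹ * (C.Nm g * C.T g⁻¹) = C.Nm g * C.Nm g * (C.T g⁻¹ * C.T g⁻¹) := by ring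
      _ = C.Nm g * (C.Nm g * C.Nm g⁻¹) := by rw [h]; ring
      _ = C.Nm g := by rw [hNi, mul_one]

open Classical in
lemma count_cond :
    ∑ g : F, (if g ≠ 0 ∧
      C.T (C.s g * C.s (C.s g) * C.s (C.s (C.s g)) * C.s (C.s (C.s (C.s g)))) *
      C.T (C.s g * C.s (C.s g) * C.s (C.s (C.s g)) * C.s (C.s (C.s (C.s g)))) = C.Nm g
      then (1 : ℤ) else 0) = C.Q ^ 4 := by
  rw [← C.count_norm,
    ← Equiv.sum_comp (Equiv.inv F) (fun v => if v ≠ 0 ∧ C.T v * C.T v = C.Nm v then (1 : ℤ) else 0)]
  refine Finset.sum_congr rfl fun g _ => ?_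
  by_cases hg : g = 0
  · subst hg
    simp
  · have h1 : g⁻¹ ≠ 0 := inv_ne_zero hg
    simp only [Equiv.inv_apply, ne_eq, hg, not_false_eq_true, true_and, h1, C.cond_iff hg]

end Ctx

end MC
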