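import Mathlib

/-!
Abstract setting for exponential sums over a degree five extension `F / K` of finite fields of
characteristic two, with `K` of order `2 ^ k`, `k` odd. `s` is a generator of the Galois group,
`T` the trace to `K`, `χ` the canonical additive character of `F` with values `1, -1`.
-/

set_option autoImplicit false

open Finset

namespace MC

/-- The data and the facts used. -/
structure Ctx (F K : Type) [Field F] [Field K] [Fintype F] [Fintype K] where
  i : K →+* F
  s : F →+* F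
  T : F → K
  χ : F → ℤ
  two : (2 : F) = 0
  s5 : ∀ x, s (s (s (s (s x)))) = x
  si : ∀ t, s (i t) = i t
  fix : ∀ x, s x = x → ∃ t, i t = x
  iT : ∀ x, i (T x) = x + s x + s (s x) + s (s (s x)) + s (s (s (s x)))
  χadd : ∀ x y, χ (x + y) = χ x * χ y
  χs : ∀ x, χ (s x) = χ x
  χsq : ∀ x, χ (x * x) = χ x
  χone : χ 1 = -1
  cube : ∀ t : K, t * t * t = 1 → t = 1
  orth : ∀ c : F, c ≠ 0 → ∑ x : F, χ (x * c) = 0
  card : Fintype.card F = Fintype.card K ^ 5

variable {F K : Type} [Field F] [Field K] [Fintype F] [Fintype K] (C : Ctx F K)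

namespace Ctx

include C

lemma add_self (x : F) : x + x = 0 := by
  have : x + x = 2 * x := by ring
  rw [this, C.two, zero_mul]

lemma eq_of_add (x y : F) (h : x + y = 0) : x = y := by
  calc x = x + (y + y) := by rw [C.add_self, add_zero]
    _ = (x + y) + y := by ring
    _ = y := by rw [h, zero_add]

lemma χzero : C.χ 0 = 1 := by
  have h := C.χadd 1 0
  rw [add_zero, C.χone] at h
  linarith

lemma χmul (x : F) : C.χ x * C.χ x = 1 := by
  rw [← C.χadd, C.add_self, C.χzero]

lemma inj : Function.Injective C.i := C.i.injective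

lemma twoK : (2 : K) = 0 := by
  apply C.inj
  rw [map_zero, map_ofNat, C.two]

lemma addK (x : K) : x + x = 0 := by
  have : x + x = 2 * x := by ring
  rw [this, C.twoK, zero_mul]

lemma χT (x : F) : C.χ (C.i (C.T x)) = C.χ x := by
  rw [C.iT]
  simp only [C.χadd, C.χs]
  have h := C.χmul x
  calc C.χ x * C.χ x * C.χ x * C.χ x * C.χ x = (C.χ x * C.χ x) * (C.χ x * C.χ x) * C.χ x := by ring
    _ = C.χ x := by rw [h]; ring

lemma Tadd (x y : F) : C.T (x + y) = C.T x + C.T y := by
  apply C.inj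
  rw [map_add, C.iT, C.iT, C.iT]
  simp only [map_add]
  ring

lemma Ti (t : K) : C.T (C.i t) = t := by
  apply C.inj
  rw [C.iT]
  simp only [C.si]
  have h := C.two
  linear_combination (2 * C.i t) * h

lemma Tmul (t : K) (x : F) : C.T (C.i t * x) = t * C.T x := by
  apply C.inj
  rw [map_mul, C.iT, C.iT]
  simp only [map_mul, C.si]
  ring

lemma Ts (x : F) : C.T (C.s x) = C.T x := by
  apply C.inj
  rw [C.iT, C.iT]
  simp only [C.s5]
  ring

lemma Tsq (x : F) : C.T (x * x) = C.T x * C.T x := by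
  apply C.inj
  rw [map_mul, C.iT, C.iT]
  simp only [map_mul]
  have h := C.two
  linear_combination (-(x * C.s x + x * C.s (C.s x) + x * C.s (C.s (C.s x)) +
    x * C.s (C.s (C.s (C.s x))) + C.s x * C.s (C.s x) + C.s x * C.s (C.s (C.s x)) +
    C.s x * C.s (C.s (C.s (C.s x))) + C.s (C.s x) * C.s (C.s (C.s x)) +
    C.s (C.s x) * C.s (C.s (C.s (C.s x))) + C.s (C.s (C.s x)) * C.s (C.s (C.s (C.s x))))) * h

lemma Tzero : C.T 0 = 0 := by
  have := C.Ti 0
  rwa [map_zero] at this

lemma Tone : C.T 1 = 1 := by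
  have := C.Ti 1
  rwa [map_one] at this

/-- Elements with the same trace have the same character value. -/
lemma χcongr {x y : F} (h : C.i (C.T x) = C.i (C.T y)) : C.χ x = C.χ y := by
  rw [← C.χT x, ← C.χT y, h]

/-- `χ (t x) = χ (t T(x))` for `t` in `K`. -/
lemma χi (t : K) (x : F) : C.χ (C.i t * x) = C.χ (C.i (t * C.T x)) := by
  rw [← C.χT (C.i t * x), C.Tmul]

lemma fixT {x : F} (h : C.s x = x) : C.i (C.T x) = x := by
  obtain ⟨t, rfl⟩ := C.fix x h
  rw [C.Ti]

/-- Orthogonality on `K`. -/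
lemma orthK (c : K) (hc : c ≠ 0) : ∑ t : K, C.χ (C.i (t * c)) = 0 := by
  have h1 : ∑ t : K, C.χ (C.i (t * c)) = ∑ t : K, C.χ (C.i t) :=
    Equiv.sum_comp (Equiv.mulRight₀ c hc) (fun t => C.χ (C.i t))
  have h2 : ∑ t : K, C.χ (C.i t) = ∑ t : K, C.χ (C.i (t + 1)) :=
    (Equiv.sum_comp (Equiv.addRight (1 : K)) (fun t => C.χ (C.i t))).symm
  have h3 : ∑ t : K, C.χ (C.i (t + 1)) = - ∑ t : K, C.χ (C.i t) := by
    rw [← Finset.sum_neg_distrib]
    refine Finset.sum_congr rfl fun t _ => ?_
    rw [map_add, map_one, C.χadd, C.χone]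
    ring
  rw [h1]
  linarith [h2.trans h3]

/-- The order of `K`, as an integer. -/
def Q (_ : Ctx F K) : ℤ := Fintype.card K

lemma cardF : (Fintype.card F : ℤ) = C.Q ^ 5 := by
  rw [C.card]
  push_cast
  rfl

lemma Qpos : 2 ≤ C.Q := by
  have : 1 < Fintype.card K := Fintype.one_lt_card
  unfold Q
  exact_mod_cast this

open Classical in
/-- Sum over the fixed field. -/
lemma sum_fix (f : F → ℤ) :
    ∑ g : F, (if C.s g = g then f g else 0) = ∑ t : K, f (C.i t) := by
  rw [← Finset.sum_filter]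
  symm
  refine Finset.sum_bij (fun t _ => C.i t) ?_ ?_ ?_ ?_
  · intro t _
    simp [C.si]
  · intro a _ b _ h
    exact C.inj h
  · intro b hb
    obtain ⟨t, ht⟩ := C.fix b (Finset.mem_filter.mp hb).2
    exact ⟨t, Finset.mem_univ _, ht⟩
  · intro t _
    rfl

open Classical in
lemma orth_ite (c : F) : ∑ x : F, C.χ (x * c) = if c = 0 then C.Q ^ 5 else 0 := by
  split_ifs with h
  · subst h
    simp only [mul_zero, C.χzero, Finset.sum_const, Finset.card_univ, nsmul_eq_mul, mul_one]
    exact C.cardF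
  · exact C.orth c h

open Classical in
lemma orthK_ite (c : K) : ∑ t : K, C.χ (C.i (t * c)) = if c = 0 then C.Q else 0 := by
  split_ifs with h
  · subst h
    simp only [mul_zero, map_zero, C.χzero, Finset.sum_const, Finset.card_univ, nsmul_eq_mul,
      mul_one]
    rfl
  · exact C.orthK c h

end Ctx

end MC
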