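import Pool.Agent.MC.Link

/-!
Decimations of degree three over a cubic extension: `n = 3 k`, `d = 2 ^ m + 3`, `m = k` or
`m = 2 k`. The Walsh transform vanishes at all elements of the subfield with `2 ^ k` elements
other than one.
-/

set_option autoImplicit false

open Finset

namespace MC

section

variable {F : Type} [Field F] [Fintype F] [Algebra (ZMod 2) F]

/-- The relative trace for an automorphism of order three. -/
def tr3 (s : F →+* F) (y : F) : F := y + s y + s (s y)

omit [Fintype F] in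
lemma add_self' (x : F) : x + x = 0 := by
  have : x + x = 2 * x := by ring
  rw [this, two_eq_zero, zero_mul]

omit [Fintype F] in
lemma eq_of_add' {x y : F} (h : x + y = 0) : x = y := by
  calc x = x + (y + y) := by rw [add_self', add_zero]
    _ = (x + y) + y := by ring
    _ = y := by rw [h, zero_add]

omit [Fintype F] in
lemma chi_mul_self (x : F) : chi x * chi x = 1 := by
  rw [← chi_add, add_self']
  unfold chi
  rw [map_zero]
  rfl

omit [Fintype F] [Algebra (ZMod 2) F] in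
lemma pow_eight {g : F} (h8 : g ^ 8 = g) (q : ℕ) : g ^ (2 ^ (3 * q)) = g := by
  induction q with
  | zero => simp
  | succ q ih =>
    rw [show 3 * (q + 1) = 3 * q + 3 by ring, pow_add, pow_mul, ih]
    exact h8

omit [Fintype F] [Algebra (ZMod 2) F] in
/-- The only solutions of `g = s(g) ^ 2` are `0` and `1`. -/
lemma no_root {m : ℕ} (hm : m % 3 ≠ 2) (s : F →+* F) (hs : ∀ x, s x = x ^ (2 ^ m))
    (s3 : ∀ x, s (s (s x)) = x) {g : F} (hg : g = (s g) ^ 2) : g = 0 ∨ g = 1 := by
  have h1 : s (s g) = g ^ 2 := by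
    have h : s (s g) = (s (s (s g))) ^ 2 := by
      conv_lhs => rw [hg]
      rw [map_pow, map_pow]
    rw [h, s3]
  have h2 : s g = g ^ 4 := by
    have h : s g = (s (s g)) ^ 2 := by
      conv_lhs => rw [hg]
      rw [map_pow]
    rw [h, h1]
    ring
  have h8 : g ^ 8 = g := by
    rw [h2] at hg
    rw [show g ^ 8 = (g ^ 4) ^ 2 by ring, ← hg]
  have h3 : g * g = g := by
    have hdiv := Nat.div_add_mod m 3
    have h4 := hs g
    rw [h2] at h4
    have hlt : m % 3 < 3 := Nat.mod_lt _ (by norm_num)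
    rcases (by omega : m % 3 = 0 ∨ m % 3 = 1) with h0 | h0
    · rw [h0, add_zero] at hdiv
      rw [← hdiv, pow_eight h8] at h4
      calc g * g = g ^ 4 * g ^ 4 := by rw [h4]
        _ = g ^ 8 := by ring
        _ = g := h8
    · rw [h0] at hdiv
      rw [← hdiv, pow_add, pow_mul, pow_eight h8, pow_one] at h4
      calc g * g = g ^ 2 := by ring
        _ = g ^ 4 := h4.symm
        _ = g ^ 4 := rfl
        _ = g ^ 2 * g ^ 2 := by ring
        _ = g ^ 4 * g ^ 4 := by rw [h4]
        _ = g ^ 8 := by ring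
        _ = g := h8
  have h5 : g * (g - 1) = 0 := by
    rw [mul_sub, h3, mul_one, sub_self]
  rcases mul_eq_zero.mp h5 with h6 | h6
  · exact Or.inl h6
  · exact Or.inr (sub_eq_zero.mp h6)

section order3

variable {m : ℕ} {s : F →+* F}

omit [Fintype F] [Algebra (ZMod 2) F] in
lemma tr3_fixed (s3 : ∀ x, s (s (s x)) = x) (y : F) : s (tr3 s y) = tr3 s y := by
  unfold tr3
  simp only [map_add, s3]
  ring

omit [Fintype F] in
lemma tr3_add (x y : F) : tr3 s (x + y) = tr3 s x + tr3 s y := by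
  unfold tr3
  simp only [map_add]
  ring

omit [Fintype F] in
lemma tr3_of_fixed {t : F} (ht : s t = t) : tr3 s t = t := by
  unfold tr3
  rw [ht, ht]
  linear_combination t * (two_eq_zero (F := F))

omit [Fintype F] in
lemma tr3_mul {t : F} (ht : s t = t) (y : F) : tr3 s (t * y) = t * tr3 s y := by
  unfold tr3
  simp only [map_mul, ht]
  ring

lemma chi_tr3 (hs : ∀ x, s x = x ^ (2 ^ m)) (y : F) : chi (tr3 s y) = chi y := by
  unfold tr3
  have h : ∀ x, chi (s x) = chi x := fun x => by rw [hs, chi_pow]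
  rw [chi_add, chi_add, h, h, h, mul_assoc, chi_mul_self, mul_one]

/-- The linear substitution. -/
def phi3 (s : F →+* F) (y : F) : F :=
  tr3 s y * (y + tr3 s y) + (s (y + tr3 s y)) ^ 2

omit [Fintype F] in
lemma tr3_phi3 (s3 : ∀ x, s (s (s x)) = x) (y : F) : tr3 s (phi3 s y) = 0 := by
  have h2 := two_eq_zero (F := F)
  unfold phi3 tr3
  simp only [map_add, map_mul, map_pow, s3]
  generalize s (s y) = c
  generalize s y = b
  linear_combination (9 * b * c + 9 * b * y + 5 * b ^ 2 + 9 * c * y + 5 * c ^ 2 + 5 * y ^ 2) * h2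

omit [Fintype F] in
lemma cub3_identity (s3 : ∀ x, s (s (s x)) = x) (y : F) :
    tr3 s (y ^ 3 * s y) = tr3 s (phi3 s y * s (phi3 s y)) + (tr3 s y) ^ 4 := by
  have h2 := two_eq_zero (F := F)
  unfold phi3 tr3
  simp only [map_add, map_mul, map_pow, s3]
  generalize s (s y) = c
  generalize s y = b
  linear_combination ((-176) * b * c * y ^ 2 + (-176) * b * c ^ 2 * y + (-61) * b * c ^ 3 +
    (-61) * b * y ^ 3 + (-176) * b ^ 2 * c * y + (-91) * b ^ 2 * c ^ 2 + (-91) * b ^ 2 * y ^ 2 +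
    (-61) * b ^ 3 * c + (-61) * b ^ 3 * y + (-16) * b ^ 4 + (-61) * c * y ^ 3 +
    (-91) * c ^ 2 * y ^ 2 + (-61) * c ^ 3 * y + (-16) * c ^ 4 + (-16) * y ^ 4) * h2

/-- The substitution used in the sum. -/
def psi3 (s : F →+* F) (y : F) : F := tr3 s y + phi3 s y

omit [Fintype F] in
lemma tr3_psi3 (s3 : ∀ x, s (s (s x)) = x) (y : F) : tr3 s (psi3 s y) = tr3 s y := by
  unfold psi3
  rw [tr3_add, tr3_phi3 s3, add_zero, tr3_of_fixed (tr3_fixed s3 y)]

lemma psi3_inj (hm : m % 3 ≠ 2) (hs : ∀ x, s x = x ^ (2 ^ m)) (s3 : ∀ x, s (s (s x)) = x) :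
    Function.Injective (psi3 s) := by
  intro y z h
  have ht : tr3 s y = tr3 s z := by
    rw [← tr3_psi3 s3 y, ← tr3_psi3 s3 z, h]
  have hp : phi3 s y = phi3 s z := by
    unfold psi3 at h
    rw [ht] at h
    exact add_left_cancel h
  -- `w = y + z` has trace zero and `t w = s(w) ^ 2`
  set t := tr3 s z with htdef
  have hst : s t = t := tr3_fixed s3 z
  have hw : tr3 s (y + z) = 0 := by
    rw [tr3_add, ht, add_self']
  have h2 := two_eq_zero (F := F)
  have hw2 : t * (y + z) = (s (y + z)) ^ 2 := by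
    unfold phi3 at hp
    rw [ht] at hp
    apply eq_of_add'
    have h3 : t * (y + t) + (s (y + t)) ^ 2 + (t * (z + t) + (s (z + t)) ^ 2) = 0 := by
      rw [hp, add_self']
    rw [map_add, map_add, hst] at h3
    rw [map_add]
    linear_combination h3 + (s y * s z - s y * t - s z * t - 2 * t ^ 2) * h2
  have hyz : y + z = 0 := by
    by_cases ht0 : t = 0
    · rw [ht0, zero_mul] at hw2
      have h4 : s (y + z) = 0 := pow_eq_zero_iff (by norm_num) |>.mp hw2.symm
      exact (map_eq_zero s).mp h4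
    · set w := y + z with hwdef
      have hg : w / t = (s (w / t)) ^ 2 := by
        rw [map_div₀, hst, div_pow, ← hw2]
        field_simp
      rcases no_root hm s hs s3 hg with h5 | h5
      · rcases div_eq_zero_iff.mp h5 with h6 | h6
        · exact h6
        · exact absurd h6 ht0
      · exfalso
        have h6 : w = t := by
          rw [div_eq_one_iff_eq ht0] at h5
          exact h5
        rw [h6, tr3_of_fixed hst] at hw
        exact ht0 hw
  exact eq_of_add' hyz

/-- The summand after the substitution. -/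
noncomputable def fun3 (s : F →+* F) (a z : F) : ℤ :=
  chi ((a + 1) * tr3 s z) * chi ((z + tr3 s z) * s (z + tr3 s z))

lemma summand3 (hs : ∀ x, s x = x ^ (2 ^ m)) (s3 : ∀ x, s (s (s x)) = x) {a : F}
    (ha : s a = a) (y : F) : chi (a * y + y ^ (2 ^ m + 3)) = fun3 s a (psi3 s y) := by
  unfold fun3
  rw [tr3_psi3 s3]
  have h1 : psi3 s y + tr3 s y = phi3 s y := by
    unfold psi3
    rw [add_comm (tr3 s y) (phi3 s y), add_assoc, add_self', add_zero]
  rw [h1]
  have h2 : y ^ (2 ^ m + 3) = y ^ 3 * s y := by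
    rw [hs, pow_add, mul_comm]
  rw [chi_add, h2, ← chi_tr3 hs (a * y), ← chi_tr3 hs (y ^ 3 * s y), cub3_identity s3,
    chi_add, chi_tr3 hs (phi3 s y * s (phi3 s y)), tr3_mul ha, add_mul, chi_add, one_mul,
    show (tr3 s y) ^ 4 = (tr3 s y) ^ (2 ^ 2) by norm_num, chi_pow]
  ring

lemma fun3_shift (hs : ∀ x, s x = x ^ (2 ^ m)) {u : F} (hu : s u = u) (a z : F) :
    fun3 s a (z + u) = chi ((a + 1) * u) * fun3 s a z := by
  unfold fun3
  rw [tr3_add, tr3_of_fixed hu, show z + u + (tr3 s z + u) = z + tr3 s z + (u + u) by ring,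
    add_self', add_zero, mul_add, chi_add]
  ring

lemma sum_fun3 (hs : ∀ x, s x = x ^ (2 ^ m)) (s3 : ∀ x, s (s (s x)) = x) {a : F}
    (ha : s a = a) (ha1 : a ≠ 1) : ∑ z : F, fun3 s a z = 0 := by
  have ha2 : a + 1 ≠ 0 := fun h => ha1 (eq_of_add' h)
  obtain ⟨x, hx⟩ : ∃ x : F, chi ((a + 1) * x) = -1 := by
    obtain ⟨b, hb⟩ := Algebra.trace_surjective (ZMod 2) F 1
    refine ⟨b / (a + 1), ?_⟩
    rw [mul_div_cancel₀ b ha2]
    unfold chi
    rw [hb]
    rfl
  have hu : s (tr3 s x) = tr3 s x := tr3_fixed s3 x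
  have hv : chi ((a + 1) * tr3 s x) = -1 := by
    have hs1 : s (a + 1) = a + 1 := by rw [map_add, ha, map_one]
    rw [← tr3_mul hs1, chi_tr3 hs, hx]
  have h1 : ∑ z : F, fun3 s a z = ∑ z : F, fun3 s a (z + tr3 s x) :=
    (Equiv.sum_comp (Equiv.addRight (tr3 s x)) (fun z => fun3 s a z)).symm
  have h2 : ∑ z : F, fun3 s a (z + tr3 s x) = - ∑ z : F, fun3 s a z := by
    rw [← Finset.sum_neg_distrib]
    refine Finset.sum_congr rfl fun z _ => ?_
    rw [fun3_shift hs hu, hv]
    ring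
  linarith [h1.trans h2]

/-- The Walsh transform of `x ^ (2 ^ m + 3)` vanishes on the subfield, outside one. -/
theorem cub3_zero (hm : m % 3 ≠ 2) (hs : ∀ x, s x = x ^ (2 ^ m)) (s3 : ∀ x, s (s (s x)) = x)
    {a : F} (ha : s a = a) (ha1 : a ≠ 1) : WS (2 ^ m + 3) a = 0 := by
  have hb := Finite.injective_iff_bijective.mp (psi3_inj hm hs s3)
  unfold WS
  rw [← sum_fun3 hs s3 ha ha1, ← Equiv.sum_comp (Equiv.ofBijective _ hb) (fun3 s a)]
  refine Finset.sum_congr rfl fun y _ => ?_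
  exact summand3 hs s3 ha y

end order3

lemma coprime_cub {k m : ℕ} (hk : 0 < k) (hkm : m = k ∨ m = 2 * k) (hm : m % 3 ≠ 2) :
    Nat.Coprime (2 ^ m + 3) (2 ^ (3 * k) - 1) := by
  by_contra hcon
  obtain ⟨p, hp, h1, h2⟩ := Nat.Prime.not_coprime_iff_dvd.mp hcon
  have h1' : (p : ℤ) ∣ (2 : ℤ) ^ m + 3 := by exact_mod_cast h1
  have hone : 1 ≤ 2 ^ (3 * k) := Nat.one_le_two_pow
  have h2' : (p : ℤ) ∣ (2 : ℤ) ^ (3 * k) - 1 := by
    have := Int.natCast_dvd_natCast.mpr h2
    rw [Nat.cast_sub hone] at this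
    push_cast at this
    exact this
  have h3 : (p : ℤ) ∣ ((2 : ℤ) ^ m) ^ 3 - 1 := by
    rcases hkm with rfl | rfl
    · rw [← pow_mul, mul_comm]
      exact h2'
    · refine h2'.trans ?_
      have hX : ((2 : ℤ) ^ (2 * k)) ^ 3 = ((2 : ℤ) ^ (3 * k)) ^ 2 := by
        rw [← pow_mul, ← pow_mul]
        congr 1
        ring
      rw [hX]
      generalize (2 : ℤ) ^ (3 * k) = X
      exact ⟨X + 1, by ring⟩
  have h4 : (p : ℤ) ∣ 28 := by
    have h5 : (28 : ℤ) = ((2 : ℤ) ^ m + 3) * (((2 : ℤ) ^ m) ^ 2 - 3 * 2 ^ m + 9)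
      - (((2 : ℤ) ^ m) ^ 3 - 1) := by ring
    rw [h5]
    exact dvd_sub (dvd_mul_of_dvd_left h1' _) h3
  have h6 : p ∣ 28 := by exact_mod_cast h4
  have h7 : p ∣ 2 ^ 2 * 7 := by simpa using h6
  rcases (Nat.Prime.dvd_mul hp).mp h7 with h8 | h8
  · have h9 := (Nat.prime_dvd_prime_iff_eq hp Nat.prime_two).mp (hp.dvd_of_dvd_pow h8)
    subst h9
    have h10 : 2 ∣ 2 ^ (3 * k) := dvd_pow_self 2 (by omega)
    omega
  · have h9 := (Nat.prime_dvd_prime_iff_eq hp (by norm_num)).mp h8
    subst h9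
    have hdiv := Nat.div_add_mod m 3
    have h11 : (2 ^ m) % 7 = (2 ^ (m % 3)) % 7 := by
      conv_lhs => rw [← hdiv]
      rw [pow_add, pow_mul, Nat.mul_mod, Nat.pow_mod]
      norm_num
    have hlt : m % 3 < 3 := Nat.mod_lt _ (by norm_num)
    rcases (by omega : m % 3 = 0 ∨ m % 3 = 1) with h0 | h0
    · rw [h0] at h11
      norm_num at h11
      omega
    · rw [h0] at h11
      norm_num at h11
      omega

/-- The automorphism of order three. -/
lemma exists_order3 {k m : ℕ} (hkm : m = k ∨ m = 2 * k) (hF : Fintype.card F = 2 ^ (3 * k)) :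
    ∃ s : F →+* F, (∀ x, s x = x ^ (2 ^ m)) ∧ (∀ x, s (s (s x)) = x) := by
  haveI : CharP F 2 := charTwo
  haveI : ExpChar F 2 := ExpChar.prime Nat.prime_two
  have hs : ∀ x, iterateFrobenius F 2 m x = x ^ (2 ^ m) := fun x => iterateFrobenius_def 2 m x
  refine ⟨iterateFrobenius F 2 m, hs, fun x => ?_⟩
  have hpow : ∀ x : F, x ^ (2 ^ (3 * k)) = x := by
    intro x
    rw [← hF, FiniteField.pow_card]
  simp only [hs, ← pow_mul, ← pow_add]
  rcases hkm with rfl | rfl
  · rw [show m + m + m = 3 * m by ring, hpow]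
  · rw [show 2 * k + 2 * k + 2 * k = 3 * k + 3 * k by ring, pow_add, pow_mul, hpow, hpow]

/-- The conjecture for the cubic exponents. -/
theorem cub3_good {k m : ℕ} (hk : 2 ≤ k) (hkm : m = k ∨ m = 2 * k) (hm : m % 3 ≠ 2)
    (hF : Fintype.card F = 2 ^ (3 * k)) : Good F (2 ^ m + 3) := by
  obtain ⟨s, hs, s3⟩ := exists_order3 hkm hF
  refine ⟨by rw [hF]; exact coprime_cub (by omega) hkm hm, ?_⟩
  -- an element of the subfield, not zero and not one
  obtain ⟨a, ha, ha0, ha1⟩ : ∃ a : F, s a = a ∧ a ≠ 0 ∧ a ≠ 1 := by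
    obtain ⟨φ⟩ : Nonempty (GaloisField 2 k →ₐ[ZMod 2] F) :=
      FiniteField.nonempty_algHom_of_finrank_dvd (by
        rw [GaloisField.finrank 2 (by omega), finrank_eq hF]
        exact dvd_mul_left _ _)
    letI : Fintype (GaloisField 2 k) := Fintype.ofFinite _
    have hK : Fintype.card (GaloisField 2 k) = 2 ^ k := by
      rw [Fintype.card_eq_nat_card, GaloisField.card 2 k (by omega)]
    have hcard : 2 < Fintype.card (GaloisField 2 k) := by
      rw [hK]
      calc 2 < 2 ^ 2 := by norm_num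
        _ ≤ 2 ^ k := Nat.pow_le_pow_right (by norm_num) hk
    classical
    obtain ⟨t, -, ht⟩ := Finset.exists_mem_notMem_of_card_lt_card
      (s := ({0, 1} : Finset (GaloisField 2 k))) (t := Finset.univ)
      (lt_of_le_of_lt (Finset.card_le_two) (by rw [Finset.card_univ]; exact hcard))
    simp only [Finset.mem_insert, Finset.mem_singleton, not_or] at ht
    have htk : t ^ (2 ^ k) = t := by rw [← hK, FiniteField.pow_card]
    refine ⟨φ t, ?_, ?_, ?_⟩
    · rw [hs, ← map_pow]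
      rcases hkm with rfl | rfl
      · rw [htk]
      · rw [two_mul, pow_add, pow_mul, htk, htk]
    · intro h
      exact ht.1 ((map_eq_zero φ).mp h)
    · intro h
      exact ht.2 ((map_eq_one_iff φ φ.toRingHom.injective).mp h)
  exact ⟨a, ha0, cub3_zero hm hs s3 ha ha1⟩

end

end MC
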