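import Pool.Agent.MC.Cub3

/-!
A second kind of decimations of degree three over a cubic extension: `n = 3 k`,
`d = 2 ^ m + 2 ^ x + 1` with `2 x` congruent to `m + 1` modulo `3 k`. Here `s` is the power map
`2 ^ m`, `f` is the power map `2 ^ x`, and `f (f y) = (s y) ^ 2`.
-/

set_option autoImplicit false

open Finset

namespace MC

section

variable {F : Type} [Field F] [Fintype F] [Algebra (ZMod 2) F]

section order4

variable {m : ℕ} {s f : F →+* F}

/-- The substitution on the trace zero part. -/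
def phi4 (s f : F →+* F) (y : F) : F :=
  (y + tr3 s y) + (1 + tr3 s y) * f (s (y + tr3 s y))

/-- The substitution used in the sum. -/
def psi4 (s f : F →+* F) (y : F) : F := tr3 s y + phi4 s f y

omit [Fintype F] in
lemma tr3_proj (s3 : ∀ x, s (s (s x)) = x) (y : F) : tr3 s (y + tr3 s y) = 0 := by
  rw [tr3_add, tr3_of_fixed (tr3_fixed s3 y), add_self']

omit [Fintype F] [Algebra (ZMod 2) F] in
lemma f_tr3 (fs : ∀ x, f (s x) = s (f x)) (y : F) : f (tr3 s y) = tr3 s (f y) := by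
  unfold tr3
  simp only [map_add, fs]

omit [Fintype F] [Algebra (ZMod 2) F] in
lemma tr3_s (s3 : ∀ x, s (s (s x)) = x) (y : F) : tr3 s (s y) = tr3 s y := by
  unfold tr3
  rw [s3]
  ring

omit [Fintype F] in
lemma tr3_phi4 (s3 : ∀ x, s (s (s x)) = x) (fs : ∀ x, f (s x) = s (f x)) (y : F) :
    tr3 s (phi4 s f y) = 0 := by
  unfold phi4
  have h1 : s (1 + tr3 s y) = 1 + tr3 s y := by
    rw [map_add, map_one, tr3_fixed s3]
  rw [tr3_add, tr3_proj s3, zero_add, tr3_mul h1, ← f_tr3 fs, tr3_s s3, tr3_proj s3, map_zero,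
    mul_zero]

omit [Fintype F] in
lemma tr3_psi4 (s3 : ∀ x, s (s (s x)) = x) (fs : ∀ x, f (s x) = s (f x)) (y : F) :
    tr3 s (psi4 s f y) = tr3 s y := by
  unfold psi4
  rw [tr3_add, tr3_phi4 s3 fs, add_zero, tr3_of_fixed (tr3_fixed s3 y)]

omit [Fintype F] in
lemma psi4_inj (s3 : ∀ x, s (s (s x)) = x) (fs : ∀ x, f (s x) = s (f x))
    (ff : ∀ x, f (f x) = (s x) ^ 2) : Function.Injective (psi4 s f) := by
  intro y z h
  have ht : tr3 s y = tr3 s z := by
    rw [← tr3_psi4 s3 fs y, ← tr3_psi4 s3 fs z, h]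
  have hp : phi4 s f y = phi4 s f z := by
    unfold psi4 at h
    rw [ht] at h
    exact add_left_cancel h
  set t := tr3 s z with htdef
  have hst : s t = t := tr3_fixed s3 z
  have hw : tr3 s (y + z) = 0 := by
    rw [tr3_add, ht, add_self']
  have h2 := two_eq_zero (F := F)
  set w := y + z with hwdef
  set u := 1 + t with hu
  have hsu : s u = u := by rw [hu, map_add, map_one, hst]
  have hw2 : w = u * f (s w) := by
    apply eq_of_add'
    unfold phi4 at hp
    rw [ht] at hp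
    have h3 : (y + t) + u * f (s (y + t)) + ((z + t) + u * f (s (z + t))) = 0 := by
      rw [hp, add_self']
    rw [hwdef]
    rw [map_add, map_add, map_add s z, map_add f (s z)] at h3
    rw [map_add, map_add]
    linear_combination h3 - (t + u * f (s t)) * h2
  have hw3 : f (s w) = f u * w ^ 2 := by
    conv_lhs => rw [hw2]
    rw [map_mul, map_mul, hsu, ← fs, ff, s3]
  have hyz : w = 0 := by
    by_contra hne
    rw [hw3] at hw2
    have h4 : 1 = u * f u * w := by
      have h5 : w * 1 = w * (u * f u * w) := by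
        rw [mul_one]
        calc w = u * (f u * w ^ 2) := hw2
          _ = w * (u * f u * w) := by ring
      exact mul_left_cancel₀ hne h5
    have h6 : s (u * f u) = u * f u := by
      rw [map_mul, ← fs, hsu]
    have h7 : u * f u * tr3 s w = tr3 s (u * f u * w) := (tr3_mul h6 w).symm
    rw [hw, mul_zero, ← h4] at h7
    have h8 : tr3 s (1 : F) = 1 := tr3_of_fixed (map_one s)
    rw [h8] at h7
    exact zero_ne_one h7
  exact eq_of_add' hyz

omit [Fintype F] in
lemma cub4_id1 (s3 : ∀ x, s (s (s x)) = x) (fs : ∀ x, f (s x) = s (f x)) (y : F) :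
    tr3 s (y * s y * f y) =
      tr3 s ((s (s (y + tr3 s y))) ^ 2 * f (y + tr3 s y)) +
      f (tr3 s y) * tr3 s ((y + tr3 s y) * s (y + tr3 s y)) +
      tr3 s y * tr3 s ((y + tr3 s y) * s (f (y + tr3 s y))) + (tr3 s y) ^ 2 * f (tr3 s y) := by
  have h2 := two_eq_zero (F := F)
  rw [f_tr3 fs]
  unfold tr3
  simp only [map_add, map_mul, map_pow, s3, fs]
  generalize s (s y) = c
  generalize s y = b
  generalize s (s (f y)) = C
  generalize s (f y) = B
  generalize f y = Y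
  linear_combination ((-17) * B * b * c + (-19) * B * b * y + (-9) * B * b ^ 2 +
    (-19) * B * c * y + (-9) * B * c ^ 2 + (-11) * B * y ^ 2 + (-19) * C * b * c +
    (-19) * C * b * y + (-11) * C * b ^ 2 + (-17) * C * c * y + (-9) * C * c ^ 2 +
    (-9) * C * y ^ 2 + (-19) * Y * b * c + (-17) * Y * b * y + (-9) * Y * b ^ 2 +
    (-19) * Y * c * y + (-11) * Y * c ^ 2 + (-9) * Y * y ^ 2) * h2

omit [Fintype F] in
lemma cub4_id2 (s3 : ∀ x, s (s (s x)) = x) (fs : ∀ x, f (s x) = s (f x)) (y : F) :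
    tr3 s (phi4 s f y * s (phi4 s f y)) =
      tr3 s ((y + tr3 s y) * s (y + tr3 s y)) +
      (1 + tr3 s y) ^ 2 * f (tr3 s ((y + tr3 s y) * s (y + tr3 s y))) +
      (1 + tr3 s y) * tr3 s ((y + tr3 s y) * s (f (y + tr3 s y))) := by
  have h2 := two_eq_zero (F := F)
  unfold phi4 tr3
  simp only [map_add, map_mul, map_pow, map_one, s3, fs]
  generalize s (s y) = c
  generalize s y = b
  generalize s (s (f y)) = C
  generalize s (f y) = B
  generalize f y = Y
  linear_combination (3 * B * b + 6 * B * b * c + 5 * B * b * y + 3 * B * b ^ 2 + 3 * B * c +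
    5 * B * c * y + 3 * B * c ^ 2 + 2 * B * y + 2 * B * y ^ 2 + 2 * C * b + 5 * C * b * c +
    5 * C * b * y + 2 * C * b ^ 2 + 3 * C * c + 6 * C * c * y + 3 * C * c ^ 2 + 3 * C * y +
    3 * C * y ^ 2 + 3 * Y * b + 5 * Y * b * c + 6 * Y * b * y + 3 * Y * b ^ 2 + 2 * Y * c +
    5 * Y * c * y + 2 * Y * c ^ 2 + 3 * Y * y + 3 * Y * y ^ 2) * h2

omit [Fintype F] in
/-- The key identity for the characters. -/
lemma cub4_chi (s3 : ∀ x, s (s (s x)) = x) (fs : ∀ x, f (s x) = s (f x))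
    (ff : ∀ x, f (f x) = (s x) ^ 2) (χs : ∀ x, chi (s x) = chi x) (χf : ∀ x, chi (f x) = chi x)
    (χ2 : ∀ x : F, chi (x ^ 2) = chi x) (χt : ∀ x, chi (tr3 s x) = chi x) (y : F) :
    chi (y * s y * f y) = chi ((tr3 s y) ^ 2 * f (tr3 s y)) *
      chi (phi4 s f y * s (phi4 s f y)) := by
  rw [← χt (y * s y * f y), ← χt (phi4 s f y * s (phi4 s f y)), cub4_id1 s3 fs, cub4_id2 s3 fs]
  set t := tr3 s y with ht
  set h := y + t with hh
  have hst : s t = t := tr3_fixed s3 y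
  set q := tr3 s (h * s h) with hq
  have hsq : s q = q := tr3_fixed s3 _
  set A := tr3 s (h * s (f h)) with hA
  -- the square part
  have e1 : chi ((1 + t) ^ 2 * f q) = chi q * chi (f t * q) := by
    rw [← χf ((1 + t) ^ 2 * f q), map_mul, map_pow, map_add, map_one, ff, hsq,
      show (1 + f t) ^ 2 * q ^ 2 = ((1 + f t) * q) ^ 2 by ring, χ2, add_mul, one_mul, chi_add]
  have e2 : chi (tr3 s ((s (s h)) ^ 2 * f h)) = chi A := by
    rw [χt, hA, χt, ← χf ((s (s h)) ^ 2 * f h), map_mul, map_pow, ff,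
      show (f (s (s h))) ^ 2 * (s h) ^ 2 = (f (s (s h)) * s h) ^ 2 by ring, χ2, fs, fs, ← χs (h * s (f h)),
      map_mul, mul_comm]
  simp only [chi_add, add_mul, one_mul, e2]
  have e1' : chi ((1 + t) ^ 2 * f q) = chi q * chi (f t * q) := e1
  have hcq := chi_mul_self q
  have hcA := chi_mul_self A
  rw [e1']
  calc chi A * chi (f t * q) * chi (t * A) * chi (t ^ 2 * f t)
      = (chi q * chi q) * chi A * chi (f t * q) * chi (t * A) * chi (t ^ 2 * f t) := by
        rw [hcq]; ring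
    _ = chi (t ^ 2 * f t) * (chi q * (chi q * chi (f t * q)) * (chi A * chi (t * A))) := by ring

/-- The summand after the substitution. -/
noncomputable def fun4 (s f : F →+* F) (a z : F) : ℤ :=
  chi (a * tr3 s z) * chi ((tr3 s z) ^ 2 * f (tr3 s z)) *
    chi ((z + tr3 s z) * s (z + tr3 s z))

omit [Fintype F] in
lemma summand4 (s3 : ∀ x, s (s (s x)) = x) (fs : ∀ x, f (s x) = s (f x))
    (ff : ∀ x, f (f x) = (s x) ^ 2) (χs : ∀ x, chi (s x) = chi x) (χf : ∀ x, chi (f x) = chi x)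
    (χ2 : ∀ x : F, chi (x ^ 2) = chi x) (χt : ∀ x, chi (tr3 s x) = chi x) {a : F}
    (ha : s a = a) (y : F) : chi (a * y + y * s y * f y) = fun4 s f a (psi4 s f y) := by
  unfold fun4
  rw [tr3_psi4 s3 fs]
  have h1 : psi4 s f y + tr3 s y = phi4 s f y := by
    unfold psi4
    rw [add_comm (tr3 s y) (phi4 s f y), add_assoc, add_self', add_zero]
  rw [h1, chi_add, cub4_chi s3 fs ff χs χf χ2 χt, ← χt (a * y), tr3_mul ha]
  ring

omit [Fintype F] in
lemma fun4_shift (χf : ∀ x, chi (f x) = chi x) (χ2 : ∀ x : F, chi (x ^ 2) = chi x)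
    (a z : F) : fun4 s f a (z + 1) = chi a * chi (1 : F) * fun4 s f a z := by
  unfold fun4
  have h1 : tr3 s (z + 1) = tr3 s z + 1 := by
    rw [tr3_add, tr3_of_fixed (map_one s)]
  rw [h1, show z + 1 + (tr3 s z + 1) = z + tr3 s z + (1 + 1) by ring, add_self', add_zero,
    map_add, map_one]
  set t := tr3 s z
  have h2 := two_eq_zero (F := F)
  have h3 : (t + 1) ^ 2 * (f t + 1) = t ^ 2 * f t + t ^ 2 + (f t + 1) := by
    linear_combination (t + t * f t) * h2
  have h4 := chi_mul_self t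
  rw [h3, mul_add, mul_one, chi_add, chi_add, chi_add, chi_add, χ2, χf]
  calc chi (a * t) * chi a * (chi (t ^ 2 * f t) * chi t * (chi t * chi (1 : F))) *
        chi ((z + t) * s (z + t))
      = (chi t * chi t) * (chi a * chi (1 : F) * (chi (a * t) * chi (t ^ 2 * f t) *
        chi ((z + t) * s (z + t)))) := by ring
    _ = _ := by rw [h4, one_mul]

lemma sum_fun4 (χf : ∀ x, chi (f x) = chi x) (χ2 : ∀ x : F, chi (x ^ 2) = chi x)
    {a : F} (ha : chi a * chi (1 : F) = -1) : ∑ z : F, fun4 s f a z = 0 := by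
  have h1 : ∑ z : F, fun4 s f a z = ∑ z : F, fun4 s f a (z + 1) :=
    (Equiv.sum_comp (Equiv.addRight (1 : F)) (fun z => fun4 s f a z)).symm
  have h2 : ∑ z : F, fun4 s f a (z + 1) = - ∑ z : F, fun4 s f a z := by
    rw [← Finset.sum_neg_distrib]
    refine Finset.sum_congr rfl fun z _ => ?_
    rw [fun4_shift χf χ2, ha]
    ring
  linarith [h1.trans h2]

omit [Fintype F] [Algebra (ZMod 2) F] in
lemma pow_split {x : ℕ} (hs : ∀ y, s y = y ^ (2 ^ m)) (hf : ∀ y, f y = y ^ (2 ^ x)) (y : F) :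
    y ^ (2 ^ m + 2 ^ x + 1) = y * s y * f y := by
  rw [hs, hf, pow_add, pow_add, pow_one]
  ring

/-- The sum vanishes at the elements of the subfield with `chi a = - chi 1`. -/
theorem cub4_zero {x : ℕ} (hs : ∀ y, s y = y ^ (2 ^ m)) (hf : ∀ y, f y = y ^ (2 ^ x))
    (s3 : ∀ x, s (s (s x)) = x) (ff : ∀ x, f (f x) = (s x) ^ 2) {a : F} (ha : s a = a)
    (ha1 : chi a * chi (1 : F) = -1) : WS (2 ^ m + 2 ^ x + 1) a = 0 := by
  have fs : ∀ x, f (s x) = s (f x) := by
    intro y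
    rw [hs, hf, hf, hs, ← pow_mul, ← pow_mul, mul_comm]
  have χs : ∀ x, chi (s x) = chi x := fun x => by rw [hs, chi_pow]
  have χf : ∀ x, chi (f x) = chi x := fun x => by rw [hf, chi_pow]
  have hb := Finite.injective_iff_bijective.mp (psi4_inj s3 fs ff)
  unfold WS
  rw [← sum_fun4 (s := s) χf chi_sq ha1, ← Equiv.sum_comp (Equiv.ofBijective _ hb) (fun4 s f a)]
  refine Finset.sum_congr rfl fun y _ => ?_
  rw [pow_split hs hf]
  exact summand4 s3 fs ff χs χf chi_sq (chi_tr3 hs) ha y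

end order4

/-- An element of the subfield, not zero and not one. -/
lemma exists_sub {k : ℕ} (hk : 2 ≤ k) (hF : Fintype.card F = 2 ^ (3 * k)) :
    ∃ b : F, b ^ (2 ^ k) = b ∧ b ≠ 0 ∧ b ≠ 1 := by
  obtain ⟨φ⟩ : Nonempty (GaloisField 2 k →ₐ[ZMod 2] F) :=
    FiniteField.nonempty_algHom_of_finrank_dvd (by
      rw [GaloisField.finrank 2 (by omega), finrank_eq hF]
      exact dvd_mul_left _ _)
  letI : Fintype (GaloisField 2 k) := Fintype.ofFinite _
  have hK : Fintype.card (GaloisField 2 k) = 2 ^ k := by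
    rw [Fintype.card_eq_nat_card, GaloisField.card 2 k (by omega)]
  have hcard : 2 < Fintype.card (GaloisField 2 k) := by
    rw [hK]
    calc 2 < 2 ^ 2 := by norm_num
      _ ≤ 2 ^ k := Nat.pow_le_pow_right (by norm_num) hk
  classical
  obtain ⟨t, -, ht⟩ := Finset.exists_mem_notMem_of_card_lt_card
    (s := ({0, 1} : Finset (GaloisField 2 k))) (t := Finset.univ)
    (lt_of_le_of_lt (Finset.card_le_two) (by rw [Finset.card_univ]; exact hcard))
  simp only [Finset.mem_insert, Finset.mem_singleton, not_or] at ht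
  refine ⟨φ t, ?_, ?_, ?_⟩
  · rw [← map_pow, ← hK, FiniteField.pow_card]
  · intro h
    exact ht.1 ((map_eq_zero φ).mp h)
  · intro h
    exact ht.2 ((map_eq_one_iff φ φ.toRingHom.injective).mp h)

omit [Algebra (ZMod 2) F] in
/-- The frobenius of order three on the subfield. -/
lemma sub_fixed {k m : ℕ} (hkm : m = k ∨ m = 2 * k) {s : F →+* F}
    (hs : ∀ x, s x = x ^ (2 ^ m)) {b : F} (hb : b ^ (2 ^ k) = b) : s b = b := by
  rw [hs]
  rcases hkm with rfl | rfl
  · exact hb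
  · rw [two_mul, pow_add, pow_mul, hb, hb]

/-- In the coprime case `m` is not two modulo three. -/
lemma mod_of_coprime {k m : ℕ} (hk : 1 ≤ k) (h : Nat.Coprime (2 ^ m + 2 ^ 1 + 1) (2 ^ (3 * k) - 1)) :
    m % 3 ≠ 2 := by
  intro hm
  have h1 : 7 ∣ 2 ^ m + 2 ^ 1 + 1 := by
    have hdiv := Nat.div_add_mod m 3
    have h11 : (2 ^ m) % 7 = (2 ^ (m % 3)) % 7 := by
      conv_lhs => rw [← hdiv]
      rw [pow_add, pow_mul, Nat.mul_mod, Nat.pow_mod]
      norm_num
    rw [hm] at h11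
    norm_num at h11
    omega
  have h2 : 7 ∣ 2 ^ (3 * k) - 1 := by
    have h3 : (2 ^ (3 * k)) % 7 = 1 := by
      rw [pow_mul, Nat.pow_mod]
      norm_num
    omega
  have h3 := Nat.dvd_gcd h1 h2
  rw [h] at h3
  norm_num at h3

/-- The zeros of the second kind of sums. -/
theorem cub4_sub {k m x : ℕ} (hkm : m = k ∨ m = 2 * k) (hx : 2 * x ≡ m + 1 [MOD (3 * k)])
    (hF : Fintype.card F = 2 ^ (3 * k)) {b : F} (hb : b ^ (2 ^ k) = b) :
    WS (2 ^ m + 2 ^ x + 1) (b ^ 2 + b) = 0 := by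
  obtain ⟨s, hs, s3⟩ := exists_order3 hkm hF
  have hsb : s b = b := sub_fixed hkm hs hb
  have hsa : s (b ^ 2 + b) = b ^ 2 + b := by rw [map_add, map_pow, hsb]
  have hχ : chi (b ^ 2 + b) = 1 := by rw [chi_add, chi_sq, chi_mul_self]
  haveI : CharP F 2 := charTwo
  haveI : ExpChar F 2 := ExpChar.prime Nat.prime_two
  have hf : ∀ y, iterateFrobenius F 2 x y = y ^ (2 ^ x) := fun y => iterateFrobenius_def 2 x y
  have hkodd : Odd k := by
    by_contra hcon
    rw [Nat.not_odd_iff_even] at hcon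
    obtain ⟨j, rfl⟩ := hcon
    have h5 : (2 : ℕ) ∣ 3 * (j + j) := ⟨3 * j, by ring⟩
    have h2 : 2 * x ≡ m + 1 [MOD 2] := Nat.ModEq.of_dvd h5 hx
    have h3 : (m + 1) % 2 = 1 := by omega
    unfold Nat.ModEq at h2
    omega
  have h1 : chi (1 : F) = -1 := chi_one hF (by
    rw [Nat.odd_mul]
    exact ⟨by decide, hkodd⟩)
  have hpow : ∀ y : F, y ^ (2 ^ (3 * k)) = y := by
    intro y
    rw [← hF, FiniteField.pow_card]
  have hper : ∀ (q r : ℕ) (y : F), y ^ (2 ^ (r + 3 * k * q)) = y ^ (2 ^ r) := by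
    intro q r y
    induction q with
    | zero => simp
    | succ q ih =>
      rw [show r + 3 * k * (q + 1) = 3 * k + (r + 3 * k * q) by ring, pow_add, pow_mul, hpow, ih]
  have hff : ∀ y : F, iterateFrobenius F 2 x (iterateFrobenius F 2 x y) = (s y) ^ 2 := by
    intro y
    rw [hf, hf, hs, ← pow_mul, ← pow_mul, ← pow_add, ← pow_succ, ← two_mul]
    have h6 : ∀ r : ℕ, y ^ (2 ^ r) = y ^ (2 ^ (r % (3 * k))) := by
      intro r
      conv_lhs => rw [← Nat.mod_add_div r (3 * k)]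
      exact hper _ _ y
    rw [h6 (2 * x), h6 (m + 1), hx]
  exact cub4_zero hs hf s3 hff hsa (by rw [hχ, h1]; norm_num)

/-- The zeros of the sum on the subfield. -/
theorem cub34_zero {k m x : ℕ} (hk : 2 ≤ k) (hkm : m = k ∨ m = 2 * k)
    (hx : x = 1 ∨ 2 * x ≡ m + 1 [MOD (3 * k)])
    (hc : Nat.Coprime (2 ^ m + 2 ^ x + 1) (2 ^ (3 * k) - 1))
    (hF : Fintype.card F = 2 ^ (3 * k)) {b : F} (hb : b ^ (2 ^ k) = b) (hb1 : b ^ 2 + b ≠ 1) :
    WS (2 ^ m + 2 ^ x + 1) (b ^ 2 + b) = 0 := by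
  rcases hx with rfl | hx
  · obtain ⟨s, hs, s3⟩ := exists_order3 hkm hF
    have hsb : s b = b := sub_fixed hkm hs hb
    have hsa : s (b ^ 2 + b) = b ^ 2 + b := by rw [map_add, map_pow, hsb]
    have hm := mod_of_coprime (by omega) hc
    have h1 := cub3_zero hm hs s3 hsa hb1
    rw [show 2 ^ m + 2 ^ 1 + 1 = 2 ^ m + 3 by norm_num]
    exact h1
  · exact cub4_sub hkm hx hF hb

/-- The conjecture for the cubic exponents of both kinds. -/
theorem cub34_good {k m x : ℕ} (hk : 2 ≤ k) (hkm : m = k ∨ m = 2 * k)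
    (hx : x = 1 ∨ 2 * x ≡ m + 1 [MOD (3 * k)])
    (hc : Nat.Coprime (2 ^ m + 2 ^ x + 1) (2 ^ (3 * k) - 1))
    (hF : Fintype.card F = 2 ^ (3 * k)) : Good F (2 ^ m + 2 ^ x + 1) := by
  refine ⟨by rw [hF]; exact hc, ?_⟩
  obtain ⟨b, hb, hb0, hb1⟩ := exists_sub (F := F) hk hF
  rcases hx with rfl | hx
  · obtain ⟨s, hs, s3⟩ := exists_order3 hkm hF
    have hm := mod_of_coprime (by omega) hc
    refine ⟨b, hb0, ?_⟩
    rw [show 2 ^ m + 2 ^ 1 + 1 = 2 ^ m + 3 by norm_num]
    exact cub3_zero hm hs s3 (sub_fixed hkm hs hb) hb1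
  · refine ⟨b ^ 2 + b, ?_, cub4_sub hkm hx hF hb⟩
    rw [show b ^ 2 + b = b * (b + 1) by ring]
    exact mul_ne_zero hb0 fun h => hb1 (eq_of_add' h)

end

end MC
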