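import Pool.Agent.MC.Ctx

/-!
The quadratic sums `E n = ∑ z, χ (z z₂ + n z)`.
-/

set_option autoImplicit false

open Finset

namespace MC

variable {F K : Type} [Field F] [Field K] [Fintype F] [Fintype K] (C : Ctx F K)

namespace Ctx

/-- `∑ z, χ (z z₂ + n z)`. -/
def E (n : F) : ℤ := ∑ z : F, C.χ (z * C.s (C.s z) + z * n)

include C

lemma χswap (w z : F) : C.χ (w * C.s (C.s z)) = C.χ (z * C.s (C.s (C.s w))) := by
  have h : C.s (C.s (C.s (w * C.s (C.s z)))) = z * C.s (C.s (C.s w)) := by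
    simp only [map_mul, C.s5]
    ring
  rw [← h, C.χs, C.χs, C.χs]

lemma E_shift (n w : F) :
    C.E n = C.χ (w * C.s (C.s w) + w * n) * C.E (n + C.s (C.s w) + C.s (C.s (C.s w))) := by
  have h1 : C.E n = ∑ z : F, C.χ ((z + w) * C.s (C.s (z + w)) + (z + w) * n) :=
    (Equiv.sum_comp (Equiv.addRight w) (fun z => C.χ (z * C.s (C.s z) + z * n))).symm
  rw [h1]
  unfold E
  rw [Finset.mul_sum]
  refine Finset.sum_congr rfl fun z _ => ?_
  have h2 : (z + w) * C.s (C.s (z + w)) + (z + w) * n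
      = (w * C.s (C.s w) + w * n) + (z * C.s (C.s z) + z * n + z * C.s (C.s w))
        + w * C.s (C.s z) := by
    simp only [map_add]
    ring
  have h3 : z * C.s (C.s z) + z * (n + C.s (C.s w) + C.s (C.s (C.s w)))
      = (z * C.s (C.s z) + z * n + z * C.s (C.s w)) + z * C.s (C.s (C.s w)) := by ring
  rw [h2, h3, C.χadd, C.χadd, C.χswap w z]
  simp only [C.χadd]
  ring

lemma E_zero {n : F} (hn : C.T n ≠ 1) : C.E n = 0 := by
  have h1 : (1 + C.T n) ≠ 0 := by
    intro h
    apply hn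
    have h3 := C.addK (C.T n)
    have : (1 : K) = C.T n := by linear_combination h - h3
    exact this.symm
  have h := C.E_shift n (C.i (1 + C.T n)⁻¹)
  have h2 : n + C.s (C.s (C.i (1 + C.T n)⁻¹)) + C.s (C.s (C.s (C.i (1 + C.T n)⁻¹))) = n := by
    simp only [C.si]
    rw [add_assoc, C.add_self, add_zero]
  have h3 : C.χ (C.i (1 + C.T n)⁻¹ * C.s (C.s (C.i (1 + C.T n)⁻¹)) + C.i (1 + C.T n)⁻¹ * n)
      = -1 := by
    simp only [C.si]
    rw [C.χadd, C.χsq, C.χi, ← C.χadd, ← map_add]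
    have : (1 + C.T n)⁻¹ + (1 + C.T n)⁻¹ * C.T n = 1 := by
      field_simp
    rw [this, map_one, C.χone]
  rw [h2, h3] at h
  linarith

lemma E_one {n : F} (hn : C.T n = 1) : C.E n = - C.χ (n * C.s n) * C.E 1 := by
  have h := C.E_shift n (C.s n + C.s (C.s (C.s (C.s n))))
  have hT := C.iT n
  rw [hn, map_one] at hT
  have h2 : n + C.s (C.s (C.s n + C.s (C.s (C.s (C.s n)))))
      + C.s (C.s (C.s (C.s n + C.s (C.s (C.s (C.s n)))))) = 1 := by
    simp only [map_add, C.s5]
    rw [hT]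
    ring
  rw [h2] at h
  have h3 : C.χ ((C.s n + C.s (C.s (C.s (C.s n)))) * C.s (C.s (C.s n + C.s (C.s (C.s (C.s n)))))
      + (C.s n + C.s (C.s (C.s (C.s n)))) * n) = - C.χ (n * C.s n) := by
    have e1 : C.χ ((C.s n + C.s (C.s (C.s (C.s n)))) *
        C.s (C.s (C.s n + C.s (C.s (C.s (C.s n)))))
        + (C.s n + C.s (C.s (C.s (C.s n)))) * n) = C.χ (n * C.s n + n * n) := by
      apply C.χcongr
      rw [C.iT, C.iT]
      simp only [map_add, map_mul, C.s5]
      have h := C.two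
      generalize C.s (C.s (C.s (C.s n))) = n4
      generalize C.s (C.s (C.s n)) = n3
      generalize C.s (C.s n) = n2
      generalize C.s n = n1
      linear_combination (n * n1 + n * n2 + n * n3 + n * n4 + n1 * n2 + n1 * n3 + n1 * n4
        + n2 * n3 + n2 * n4 + n3 * n4) * h
    rw [e1, C.χadd, C.χsq, ← C.χT n, hn, map_one, C.χone]
    ring
  rw [h3] at h
  exact h

lemma E_sq : C.E 1 * C.E 1 = C.Q ^ 6 := by
  classical
  have h1 : C.E 1 * C.E 1 = ∑ g : F, C.χ (g * C.s (C.s g) + g) *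
      ∑ u : F, C.χ (u * (C.s (C.s g) + C.s (C.s (C.s g)))) := by
    have e1 : C.E 1 * C.E 1 = ∑ u : F, ∑ g : F, C.χ (u * C.s (C.s u) + u * 1) *
        C.χ ((g + u) * C.s (C.s (g + u)) + (g + u) * 1) := by
      rw [E, Finset.sum_mul_sum]
      refine Finset.sum_congr rfl fun u _ => ?_
      exact (Equiv.sum_comp (Equiv.addRight u) (fun v => C.χ (u * C.s (C.s u) + u * 1) *
        C.χ (v * C.s (C.s v) + v * 1))).symm
    rw [e1, Finset.sum_comm]
    refine Finset.sum_congr rfl fun g _ => ?_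
    rw [Finset.mul_sum]
    refine Finset.sum_congr rfl fun u _ => ?_
    have e2 : (g + u) * C.s (C.s (g + u)) + (g + u) * 1
        = (g * C.s (C.s g) + g) + (u * C.s (C.s u) + u * 1) + (g * C.s (C.s u))
          + u * C.s (C.s g) := by
      simp only [map_add]
      ring
    have e4 : ∀ A B P R : F, C.χ (A + B + P + R) = C.χ A * C.χ B * C.χ P * C.χ R := by
      intro A B P R
      rw [C.χadd (A + B + P), C.χadd (A + B), C.χadd A]
    rw [e2, e4, C.χswap g u, mul_add u (C.s (C.s g)), C.χadd (u * C.s (C.s g))]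
    have e3 := C.χmul (u * C.s (C.s u) + u * 1)
    linear_combination (C.χ (g * C.s (C.s g) + g) * C.χ (u * C.s (C.s (C.s g))) *
      C.χ (u * C.s (C.s g))) * e3
  rw [h1]
  have h2 : ∀ g : F, C.χ (g * C.s (C.s g) + g) *
      ∑ u : F, C.χ (u * (C.s (C.s g) + C.s (C.s (C.s g))))
      = if C.s g = g then C.Q ^ 5 else 0 := by
    intro g
    rw [C.orth_ite]
    by_cases hg : C.s g = g
    · rw [if_pos hg]
      have e1 : C.s (C.s g) + C.s (C.s (C.s g)) = 0 := by
        rw [hg, hg, hg]; exact C.add_self g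
      rw [if_pos e1, hg, hg, C.χadd, C.χsq, C.χmul]
      ring
    · rw [if_neg hg, if_neg, mul_zero]
      intro h0
      apply hg
      have e2 := C.eq_of_add _ _ h0
      have e3 : C.s (C.s (C.s (C.s (C.s g)))) = C.s (C.s (C.s (C.s (C.s (C.s g))))) :=
        congrArg (fun x => C.s (C.s (C.s x))) e2
      rw [C.s5] at e3
      exact e3.symm
  rw [Finset.sum_congr rfl fun g _ => h2 g, C.sum_fix (fun _ => C.Q ^ 5)]
  simp only [Finset.sum_const, Finset.card_univ, nsmul_eq_mul]
  change C.Q * C.Q ^ 5 = _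
  ring

/-- The sum with `z z₁` in place of `z z₂` has the same value. -/
lemma E_alt : ∑ u : F, C.χ (u * C.s u + u) = C.E 1 := by
  let e : F ≃ F :=
    { toFun := fun u => u + C.s u + C.s (C.s (C.s (C.s u)))
      invFun := fun u => u + C.s (C.s u) + C.s (C.s (C.s u))
      left_inv := by
        intro u
        simp only [map_add, C.s5]
        have h := C.two
        linear_combination (C.s (C.s u) + C.s u + C.s (C.s (C.s u)) + C.s (C.s (C.s (C.s u)))) * h
      right_inv := by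
        intro u
        simp only [map_add, C.s5]
        have h := C.two
        linear_combination (C.s (C.s u) + C.s u + C.s (C.s (C.s u)) + C.s (C.s (C.s (C.s u)))) * h }
  rw [← Equiv.sum_comp e, E]
  refine Finset.sum_congr rfl fun u _ => ?_
  apply C.χcongr
  rw [C.iT, C.iT]
  simp only [e, Equiv.coe_fn_mk, map_add, map_mul, C.s5, map_one]
  have h := C.two
  generalize C.s (C.s (C.s (C.s u))) = n4
  generalize C.s (C.s (C.s u)) = n3
  generalize C.s (C.s u) = n2
  generalize C.s u = n1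
  linear_combination (u * n1 + u * n2 + u * n3 + u * n4 + n1 * n2 + n1 * n3 + n1 * n4
        + n2 * n3 + n2 * n4 + n3 * n4 + (u + u * n1 + u * n4 + u ^ 2 + n1 + n1 * n2 + n1 ^ 2 + n4
        + n4 * n3 + n4 ^ 2 + n2 + n2 * n3 + n2 ^ 2 + n3 + n3 ^ 2)) * h

end Ctx

end MC
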