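import Pool.Agent.MC.Link

/-!
The concrete statements.
-/

set_option autoImplicit false

open Finset

namespace MC

section

variable {F : Type} [Field F] [Fintype F] [Algebra (ZMod 2) F]

lemma four_pow_mod {k : ℕ} (hk : Odd k) : (((2 : ℤ) ^ k) ^ 2) % 5 = 4 := by
  obtain ⟨m, rfl⟩ := hk
  rw [← pow_mul, show (2 * m + 1) * 2 = 4 * m + 2 by ring, pow_add, pow_mul]
  norm_num
  rw [Int.mul_emod]
  have h : ((16 : ℤ) ^ m) % 5 = 1 := by
    induction m with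
    | zero => norm_num
    | succ m ih => rw [pow_succ, Int.mul_emod, ih]; norm_num
  rw [h]
  norm_num

variable {K : Type} [Field K] [Fintype K] {C : Ctx F K}

lemma Q_mod {k : ℕ} (hk : Odd k) (hK : Fintype.card K = 2 ^ k) : C.Q ^ 2 % 5 = 4 := by
  have h : C.Q = 2 ^ k := by
    unfold Ctx.Q
    rw [hK]
    push_cast
    rfl
  rw [h]
  exact four_pow_mod hk

lemma Q_four {k : ℕ} (hk : 3 ≤ k) (hK : Fintype.card K = 2 ^ k) : 4 ≤ C.Q := by
  have h : C.Q = 2 ^ k := by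
    unfold Ctx.Q
    rw [hK]
    push_cast
    rfl
  rw [h]
  calc (4 : ℤ) = 2 ^ 2 := by norm_num
    _ ≤ 2 ^ k := pow_le_pow_right₀ (by norm_num) (by omega)

/-- The sum over the substitution `x = y y₁` for the Dobbertin exponent. -/
lemma dobb_pow {k : ℕ} (hs : ∀ x, C.s x = x ^ (2 ^ (1 * k))) (y : F) :
    (y * C.s y) ^ (2 ^ (4 * k) + 2 ^ (3 * k) + 2 ^ (2 * k) + 2 ^ k - 1)
      = (C.s (C.s (C.kap y))) ^ 2 := by
  have h1k : 1 ≤ 2 ^ k := Nat.one_le_two_pow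
  have h4k : 1 ≤ 2 ^ (4 * k) := Nat.one_le_two_pow
  have h3k : 1 ≤ 2 ^ (3 * k) := Nat.one_le_two_pow
  have h2k : 1 ≤ 2 ^ (2 * k) := Nat.one_le_two_pow
  by_cases hy : y = 0
  · subst hy
    rw [zero_mul, zero_pow (by omega), C.kap_zero, map_zero, map_zero]
    norm_num
  · have hx : y * C.s y ≠ 0 := mul_ne_zero hy (C.s_ne hy)
    apply mul_right_cancel₀ hx
    rw [← pow_succ, show 2 ^ (4 * k) + 2 ^ (3 * k) + 2 ^ (2 * k) + 2 ^ k - 1 + 1
      = 2 ^ (4 * k) + 2 ^ (3 * k) + 2 ^ (2 * k) + 2 ^ k by omega, pow_add, pow_add, pow_add]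
    have e1 : ∀ x : F, x ^ 2 ^ k = C.s x := by
      intro x
      rw [hs, one_mul]
    have e2 : ∀ x : F, x ^ 2 ^ (2 * k) = C.s (C.s x) := by
      intro x
      rw [show 2 * k = k + k by ring, pow_add, pow_mul, e1, e1]
    have e3 : ∀ x : F, x ^ 2 ^ (3 * k) = C.s (C.s (C.s x)) := by
      intro x
      rw [show 3 * k = k + 2 * k by ring, pow_add, pow_mul, e1, e2]
    have e4 : ∀ x : F, x ^ 2 ^ (4 * k) = C.s (C.s (C.s (C.s x))) := by
      intro x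
      rw [show 4 * k = k + 3 * k by ring, pow_add, pow_mul, e1, e3]
    rw [e1, e2, e3, e4]
    simp only [Ctx.kap, map_mul, C.s5]
    ring

lemma inj_dobb : Function.Injective (fun y : F => (C.s (C.s (C.kap y))) ^ 2) := by
  intro y z h
  have h1 : (C.s (C.s (C.kap y))) ^ 2 = (C.s (C.s (C.kap z))) ^ 2 := h
  have h2 : C.s (C.s (C.kap y)) = C.s (C.s (C.kap z)) := by
    have := C.two
    have h3 : (C.s (C.s (C.kap y)) + C.s (C.s (C.kap z))) ^ 2 = 0 := by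
      linear_combination h1 + (C.s (C.s (C.kap y)) * C.s (C.s (C.kap z)) +
        C.s (C.s (C.kap z)) * C.s (C.s (C.kap z))) * this
    exact C.eq_of_add _ _ (pow_eq_zero_iff (by norm_num) |>.mp h3)
  exact C.kap_inj (C.s.injective (C.s.injective h2))

lemma WS_dobb {k : ℕ} (hs : ∀ x, C.s x = x ^ (2 ^ (1 * k))) (hχ : ∀ x, C.χ x = chi x) (a : F) :
    WS (2 ^ (4 * k) + 2 ^ (3 * k) + 2 ^ (2 * k) + 2 ^ k - 1) a = C.W a := by
  rw [WS_eq (φ := fun y => y * C.s y) (ψ := fun y => (C.s (C.s (C.kap y))) ^ 2)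
    (fun y z h => C.inj1 h) (fun y => dobb_pow hs y)]
  unfold Ctx.W
  refine Finset.sum_congr rfl fun y _ => ?_
  rw [C.χadd, hχ, hχ, chi_add, chi_sq, ← hχ (C.s (C.s (C.kap y))), C.χs, C.χs, hχ]
  ring

/-- The conjecture for the Dobbertin exponents. -/
theorem dobb_good {k : ℕ} (hk : Odd k) (hF : Fintype.card F = 2 ^ (5 * k)) :
    Good F (2 ^ (4 * k) + 2 ^ (3 * k) + 2 ^ (2 * k) + 2 ^ k - 1) := by
  obtain ⟨K, _, _, C, hK, hs, hχ⟩ := exists_ctx hk hF 1 (Or.inl rfl)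
  refine ⟨coprime_of_transfer (φ := fun y => y * C.s y)
    (ψ := fun y => (C.s (C.s (C.kap y))) ^ 2) (fun y z h => C.inj1 h) inj_dobb
    (fun y => dobb_pow hs y), ?_⟩
  obtain ⟨a, ha, hW⟩ := C.exists_W_zero
  exact ⟨a, ha, by rw [WS_dobb hs hχ, hW]⟩

lemma kap_pow {e : ℕ} (hs : ∀ x, C.s x = x ^ e) (y : F) : y ^ (e ^ 2 + e + 1) = C.kap y := by
  unfold Ctx.kap
  rw [hs, hs, ← pow_mul]
  ring

lemma two_pow' {e : ℕ} (hs : ∀ x, C.s x = x ^ e) (y : F) : y ^ (e ^ 2 + 1) = y * C.s (C.s y) := by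
  rw [hs, hs, ← pow_mul]
  ring

/-- The linear case of the second family. -/
theorem lin_good {k : ℕ} (hk : Odd k) (hk3 : 3 ≤ k) (hF : Fintype.card F = 2 ^ (5 * k)) {r : ℕ}
    (hr : r = 1 ∨ r = 2) :
    Good F ((2 ^ (r * k)) ^ 2 + 2 ^ (r * k) + 1) := by
  obtain ⟨K, _, _, C, hK, hs, hχ⟩ := exists_ctx hk hF r hr
  refine ⟨coprime_of_transfer (φ := id) (ψ := C.kap) (fun y z h => h) (fun y z h => C.kap_inj h)
    (fun y => kap_pow hs y), ?_⟩
  obtain ⟨a, ha, hW⟩ := C.exists_zero_a (Q_mod hk hK) (Q_four hk3 hK)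
  refine ⟨C.i a, fun h => ha (C.inj (by rw [h, map_zero])), ?_⟩
  rw [WS_eq (φ := id) (ψ := C.kap) (fun y z h => h) (fun y => kap_pow hs y), ← hW]
  refine Finset.sum_congr rfl fun y _ => ?_
  rw [hχ, id, add_comm]

/-- The twisted case of the second family. -/
theorem twist_good {k : ℕ} (hk : Odd k) (hk3 : 3 ≤ k) (hF : Fintype.card F = 2 ^ (5 * k)) {r : ℕ}
    (hr : r = 1 ∨ r = 2) {d : ℕ}
    (hd : d * ((2 ^ (r * k)) ^ 2 + 1) ≡ (2 ^ (r * k)) ^ 2 + 2 ^ (r * k) + 1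
      [MOD (Fintype.card F - 1)]) :
    Good F d := by
  have hlin := lin_good hk hk3 hF hr
  obtain ⟨K, _, _, C, hK, hs, hχ⟩ := exists_ctx hk hF r hr
  have hN : 1 < Fintype.card F - 1 := by
    rw [hF]
    have : 2 ^ 2 ≤ 2 ^ (5 * k) := Nat.pow_le_pow_right (by norm_num) (by omega)
    omega
  have hd0 : d ≠ 0 := by
    rintro rfl
    rw [zero_mul] at hd
    have h1 := hlin.1
    have h2 := hd.gcd_eq
    rw [Nat.gcd_zero_left] at h2
    have h3 : Nat.gcd ((2 ^ (r * k)) ^ 2 + 2 ^ (r * k) + 1) (Fintype.card F - 1) = 1 := h1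
    omega
  have hpow : ∀ y : F, (y * C.s (C.s y)) ^ d = C.kap y := by
    intro y
    rw [← two_pow' hs, ← kap_pow hs, ← pow_mul, mul_comm]
    exact pow_modEq (by positivity) (by positivity) hd y
  refine ⟨coprime_of_transfer (φ := fun y => y * C.s (C.s y)) (ψ := C.kap)
    (fun y z h => C.inj2 h) (fun y z h => C.kap_inj h) hpow, ?_⟩
  obtain ⟨b, hb, hW⟩ := C.exists_zero_b (Q_mod hk hK) (Q_four hk3 hK)
  refine ⟨C.i b, fun h => hb (C.inj (by rw [h, map_zero])), ?_⟩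
  rw [WS_eq (φ := fun y => y * C.s (C.s y)) (ψ := C.kap) (fun y z h => C.inj2 h) hpow, ← hW]
  refine Finset.sum_congr rfl fun y _ => ?_
  rw [hχ, add_comm]

/-- The second family. -/
theorem family_good {k : ℕ} (hk : Odd k) (hk3 : 3 ≤ k) (hF : Fintype.card F = 2 ^ (5 * k)) {r : ℕ}
    (hr : r = 1 ∨ r = 2) {d j u : ℕ} (hu : u = 1 ∨ u = (2 ^ (r * k)) ^ 2 + 1)
    (hd : d * u ≡ 2 ^ j * ((2 ^ (r * k)) ^ 2 + 2 ^ (r * k) + 1) [MOD (Fintype.card F - 1)] ∨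
      d * ((2 ^ (r * k)) ^ 2 + 2 ^ (r * k) + 1) ≡ 2 ^ j * u [MOD (Fintype.card F - 1)]) :
    Good F d := by
  set v := (2 ^ (r * k)) ^ 2 + 2 ^ (r * k) + 1 with hv
  set N := Fintype.card F - 1 with hNdef
  have hN : 1 < N := by
    rw [hNdef, hF]
    have : 2 ^ 2 ≤ 2 ^ (5 * k) := Nat.pow_le_pow_right (by norm_num) (by omega)
    omega
  -- an exponent `d₀` with `d₀ u ≡ v`
  obtain ⟨d₀, hg, hd₀, hcu⟩ : ∃ d₀, Good F d₀ ∧ d₀ * u ≡ v [MOD N] ∧ Nat.Coprime u N := by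
    rcases hu with rfl | rfl
    · exact ⟨v, lin_good hk hk3 hF hr, by rw [mul_one], Nat.coprime_one_left _⟩
    · have hc : Nat.Coprime ((2 ^ (r * k)) ^ 2 + 1) N := by
        obtain ⟨K, _, _, C, hK, hs, hχ⟩ := exists_ctx hk hF r hr
        apply coprime_of_inj
        intro y z h
        have h1 : y ^ ((2 ^ (r * k)) ^ 2 + 1) = z ^ ((2 ^ (r * k)) ^ 2 + 1) := h
        rw [two_pow' hs, two_pow' hs] at h1
        exact C.inj2 h1
      obtain ⟨m, hm⟩ := Nat.exists_mul_mod_eq_one_of_coprime hc hN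
      have hm' : m * ((2 ^ (r * k)) ^ 2 + 1) ≡ 1 [MOD N] := by
        unfold Nat.ModEq
        rw [mul_comm, hm.2, Nat.mod_eq_of_lt hN]
      have h1 : (m * v) * ((2 ^ (r * k)) ^ 2 + 1) ≡ v [MOD N] := by
        have h2 := hm'.mul_right v
        rw [one_mul] at h2
        rw [show m * v * ((2 ^ (r * k)) ^ 2 + 1) = m * ((2 ^ (r * k)) ^ 2 + 1) * v by ring]
        exact h2
      exact ⟨m * v, twist_good hk hk3 hF hr h1, h1, hc⟩
  have hcu' : Nat.gcd N u = 1 := Nat.Coprime.symm hcu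
  apply hg.equiv (n := 5 * k) (j := j) (by omega) hF
  rcases hd with hd | hd
  · left
    apply Nat.ModEq.cancel_right_of_coprime hcu'
    have h1 := hd₀.mul_left (2 ^ j)
    rw [show 2 ^ j * (d₀ * u) = 2 ^ j * d₀ * u by ring] at h1
    exact hd.trans h1.symm
  · right
    apply Nat.ModEq.cancel_right_of_coprime hcu'
    have h1 := hd₀.mul_left d
    rw [show d * (d₀ * u) = d * d₀ * u by ring] at h1
    exact h1.trans hd

end

end MC
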