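import Pool.Agent.MC.ESum

/-!
The function `Γ u = ∑_{t ∈ K} χ (κ (u + t))`, `κ y = y y₁ y₂`.
-/

set_option autoImplicit false

open Finset

namespace MC

lemma sum_mulLeft {R : Type} [Field R] [Fintype R] (c : R) (hc : c ≠ 0) (f : R → ℤ) :
    ∑ x : R, f (c * x) = ∑ x : R, f x :=
  Equiv.sum_comp (Equiv.mulLeft₀ c hc) f

variable {F K : Type} [Field F] [Field K] [Fintype F] [Fintype K] (C : Ctx F K)

namespace Ctx

/-- `y y₁ y₂`. -/
def kap (y : F) : F := y * C.s y * C.s (C.s y)

/-- `∑_{t ∈ K} χ (κ (u + t))`. -/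
def Gam (u : F) : ℤ := ∑ t : K, C.χ (C.kap (u + C.i t))

include C

lemma χ3 (x : F) : C.χ x * C.χ x * C.χ x = C.χ x := by
  rw [C.χmul, one_mul]

lemma kap_shift (u : F) (r : K) :
    C.χ (C.kap (u + C.i r))
      = C.χ (C.kap u) * C.χ (C.i (r * r * r)) * C.χ (C.i r * (u * C.s (C.s u)))
        * C.χ (C.i (r * r) * u) := by
  rw [← C.χadd, ← C.χadd, ← C.χadd]
  apply C.χcongr
  rw [C.iT, C.iT]
  simp only [kap, map_add, map_mul, C.s5, C.si]
  have h := C.two
  generalize C.s (C.s (C.s (C.s u))) = n4
  generalize C.s (C.s (C.s u)) = n3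
  generalize C.s (C.s u) = n2
  generalize C.s u = n1
  generalize C.i r = c
  linear_combination (c * (u * n1 + n1 * n2 + n2 * n3 + n3 * n4 + n4 * u)
    + c * c * (u + n1 + n2 + n3 + n4)) * h

/-- The Γ functional equation: shift by one. -/
lemma Gam_zero {u : F} (hu : C.χ (u * C.s (C.s u) + u) = 1) : C.Gam u = 0 := by
  have h1 : C.Gam u = ∑ t : K, C.χ (C.kap (u + C.i (t + 1))) :=
    (Equiv.sum_comp (Equiv.addRight (1 : K)) (fun t => C.χ (C.kap (u + C.i t)))).symm
  have h2 : ∑ t : K, C.χ (C.kap (u + C.i (t + 1))) = - C.Gam u := by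
    unfold Gam
    rw [← Finset.sum_neg_distrib]
    refine Finset.sum_congr rfl fun t _ => ?_
    have e1 : u + C.i (t + 1) = (u + C.i t) + C.i 1 := by rw [map_add]; ring
    rw [e1, C.kap_shift (u + C.i t) 1]
    simp only [mul_one, map_one, one_mul, C.χone]
    have e2 : C.χ ((u + C.i t) * C.s (C.s (u + C.i t))) * C.χ (u + C.i t)
        = C.χ (u * C.s (C.s u) + u) := by
      rw [← C.χadd]
      have e3 : C.χ ((u + C.i t) * C.s (C.s (u + C.i t)) + (u + C.i t))
          = C.χ (u * C.s (C.s u) + u + (C.i t * C.i t + C.i t)) := by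
        apply C.χcongr
        rw [C.iT, C.iT]
        simp only [map_add, map_mul, C.s5, C.si]
        have h := C.two
        generalize C.s (C.s (C.s (C.s u))) = n4
        generalize C.s (C.s (C.s u)) = n3
        generalize C.s (C.s u) = n2
        generalize C.s u = n1
        generalize C.i t = c
        linear_combination (c * (u + n1 + n2 + n3 + n4)) * h
      rw [e3, C.χadd _ (C.i t * C.i t + C.i t), C.χadd (C.i t * C.i t), C.χsq, C.χmul, mul_one]
    rw [hu] at e2
    linear_combination (-C.χ (C.kap (u + C.i t))) * e2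
  linarith [h1.trans h2]

lemma Gam_sq_sum : ∑ u : F, C.Gam u * C.Gam u = C.Q ^ 6 - C.Q * C.E 1 := by
  classical
  -- pass to differences
  have h1 : ∑ u : F, C.Gam u * C.Gam u
      = C.Q * ∑ r : K, ∑ u : F, C.χ (C.kap u) * C.χ (C.kap (u + C.i r)) := by
    have e1 : ∀ u : F, C.Gam u * C.Gam u
        = ∑ t : K, ∑ r : K, C.χ (C.kap (u + C.i t)) * C.χ (C.kap (u + C.i t + C.i r)) := by
      intro u
      rw [Gam, Finset.sum_mul_sum]
      refine Finset.sum_congr rfl fun t _ => ?_
      rw [← Equiv.sum_comp (Equiv.addLeft t)]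
      refine Finset.sum_congr rfl fun r _ => ?_
      simp only [Equiv.coe_addLeft, map_add]
      rw [add_assoc u]
    rw [Finset.sum_congr rfl fun u _ => e1 u, Finset.sum_comm]
    have e2 : ∀ t : K, ∑ u : F, ∑ r : K, C.χ (C.kap (u + C.i t)) *
        C.χ (C.kap (u + C.i t + C.i r))
        = ∑ r : K, ∑ u : F, C.χ (C.kap u) * C.χ (C.kap (u + C.i r)) := by
      intro t
      rw [Finset.sum_comm]
      refine Finset.sum_congr rfl fun r _ => ?_
      exact Equiv.sum_comp (Equiv.addRight (C.i t))
        (fun u => C.χ (C.kap u) * C.χ (C.kap (u + C.i r)))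
    rw [Finset.sum_congr rfl fun t _ => e2 t]
    simp only [Finset.sum_const, Finset.card_univ, nsmul_eq_mul]
    rfl
  have h2 : ∀ r : K, ∑ u : F, C.χ (C.kap u) * C.χ (C.kap (u + C.i r))
      = if r = 0 then C.Q ^ 5 else if r = 1 then - C.E 1 else 0 := by
    intro r
    have e1 : ∀ u : F, C.χ (C.kap u) * C.χ (C.kap (u + C.i r))
        = C.χ (C.i (r * r * r)) * C.χ (C.i r * (u * C.s (C.s u)) + C.i (r * r) * u) := by
      intro u
      rw [C.kap_shift, C.χadd (C.i r * _)]
      have e3 := C.χmul (C.kap u)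
      linear_combination (C.χ (C.i (r * r * r)) * C.χ (C.i r * (u * C.s (C.s u)))
        * C.χ (C.i (r * r) * u)) * e3
    rw [Finset.sum_congr rfl fun u _ => e1 u, ← Finset.mul_sum]
    by_cases hr : r = 0
    · subst hr
      rw [if_pos rfl]
      simp only [mul_zero, map_zero, zero_mul, add_zero, C.χzero, Finset.sum_const,
        Finset.card_univ, nsmul_eq_mul, mul_one, one_mul]
      exact C.cardF
    · rw [if_neg hr]
      haveI : CharP K 2 := CharTwo.of_one_ne_zero_of_two_eq_zero one_ne_zero C.twoK
      obtain ⟨p, hp⟩ := FiniteField.isSquare_of_char_two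
        (ringChar.eq_iff.mpr (inferInstance : CharP K 2)) r⁻¹
      have hp0 : p ≠ 0 := by
        rintro rfl
        rw [mul_zero] at hp
        exact hr (inv_eq_zero.mp hp)
      have hp1 : r * (p * p) = 1 := by rw [← hp]; exact mul_inv_cancel₀ hr
      have hpF : C.i p ≠ 0 := by
        intro h; apply hp0; apply C.inj; rw [h, map_zero]
      have e2 : ∑ u : F, C.χ (C.i r * (u * C.s (C.s u)) + C.i (r * r) * u)
          = C.E (C.i (r * r * p)) := by
        rw [← sum_mulLeft (C.i p) hpF, E]
        refine Finset.sum_congr rfl fun z _ => ?_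
        simp only [map_mul, C.si]
        congr 1
        have e3 : C.i r * (C.i p * C.i p) = 1 := by
          rw [← map_mul, ← map_mul, hp1, map_one]
        linear_combination (z * C.s (C.s z)) * e3
      rw [e2]
      by_cases h1 : r = 1
      · subst h1
        rw [if_pos rfl]
        have : p = 1 := by
          have e4 : p * p = 1 := by rw [one_mul] at hp1; exact hp1
          have e5 : (p + 1) * (p + 1) = 0 := by
            have := C.twoK
            linear_combination e4 + (p + 1) * this
          have e6 := mul_self_eq_zero.mp e5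
          have e7 := C.addK p
          linear_combination -e6 + e7
        subst this
        simp only [mul_one, map_one, C.χone]
        ring
      · rw [if_neg h1, C.E_zero, mul_zero]
        rw [C.Ti]
        intro h2
        apply h1
        apply C.cube
        have : (r * r * p) * (r * r * p) = 1 := by rw [h2, one_mul]
        calc r * r * r = r * r * r * (r * (p * p)) := by rw [hp1, mul_one]
          _ = (r * r * p) * (r * r * p) := by ring
          _ = 1 := this
  rw [h1, Finset.sum_congr rfl fun r _ => h2 r]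
  have h3 : ∀ r : K, (if r = 0 then C.Q ^ 5 else if r = 1 then - C.E 1 else 0)
      = (if r = 0 then C.Q ^ 5 else 0) + (if r = 1 then - C.E 1 else 0) := by
    intro r
    by_cases hr : r = 0
    · subst hr
      simp
    · simp [hr]
  rw [Finset.sum_congr rfl fun r _ => h3 r, Finset.sum_add_distrib, Finset.sum_ite_eq',
    Finset.sum_ite_eq']
  simp only [Finset.mem_univ, if_true]
  ring

end Ctx

end MC
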