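import Pool.Agent.MC.Final

/-!
The Dobbertin sums on the hyperplane of relative trace zero.
-/

set_option autoImplicit false

open Finset

namespace MC

section

variable {F : Type} [Field F] [Fintype F] [Algebra (ZMod 2) F]

theorem hyper [DecidableEq F] {k : ℕ} (hk : Odd k) (hF : Fintype.card F = 2 ^ (5 * k)) (a : F)
    (ha : a + a ^ (2 ^ k) + a ^ (2 ^ (2 * k)) + a ^ (2 ^ (3 * k)) + a ^ (2 ^ (4 * k)) = 0) :
    WS (2 ^ (4 * k) + 2 ^ (3 * k) + 2 ^ (2 * k) + 2 ^ k - 1) a = 2 ^ (2 * k) * chi (a ^ 3) *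
      ∑ t : F, (if t ^ (2 ^ k) = t then
        chi (t ^ 3 + t * (a ^ (2 ^ k + 1) + a ^ (2 ^ (2 * k) + 1))) else 0) ∧
    WS (2 ^ (4 * k) + 2 ^ (3 * k) + 2 ^ (2 * k) + 2 ^ k - 1) a ^ 2 =
      2 ^ (5 * k) * (1 - chi (a ^ (2 ^ k + 1) + a ^ (2 ^ (2 * k) + 1))) := by
  obtain ⟨K, _, _, C, hK, hs, hχ⟩ := exists_ctx hk hF 1 (Or.inl rfl)
  have hQ : C.Q = 2 ^ k := by
    unfold Ctx.Q
    rw [hK]
    push_cast
    rfl
  have e1 : ∀ x : F, x ^ 2 ^ k = C.s x := by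
    intro x
    rw [hs, one_mul]
  have e2 : ∀ x : F, x ^ 2 ^ (2 * k) = C.s (C.s x) := by
    intro x
    rw [show 2 * k = k + k by ring, pow_add, pow_mul, e1, e1]
  have e3 : ∀ x : F, x ^ 2 ^ (3 * k) = C.s (C.s (C.s x)) := by
    intro x
    rw [show 3 * k = k + 2 * k by ring, pow_add, pow_mul, e1, e2]
  have e4 : ∀ x : F, x ^ 2 ^ (4 * k) = C.s (C.s (C.s (C.s x))) := by
    intro x
    rw [show 4 * k = k + 3 * k by ring, pow_add, pow_mul, e1, e3]
  have hT : C.T a = 0 := by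
    apply C.inj
    rw [C.iT, map_zero, ← ha, e1, e2, e3, e4]
  have e5 : a ^ (2 ^ k + 1) + a ^ (2 ^ (2 * k) + 1) = a * C.s a + a * C.s (C.s a) := by
    rw [pow_succ, pow_succ, e1, e2]
    ring
  rw [WS_dobb hs hχ, e5]
  constructor
  · have hf := C.sum_fix (fun t => C.χ (t * t * t + t * (a * C.s a + a * C.s (C.s a))))
    have hg : ∑ t : K, C.χ (C.i (t * t * t) + C.i t * (a * C.s a + a * C.s (C.s a)))
        = ∑ t : F, (if t ^ (2 ^ k) = t then
          chi (t ^ 3 + t * (a * C.s a + a * C.s (C.s a))) else 0) := by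
      have h1 : ∑ t : K, C.χ (C.i (t * t * t) + C.i t * (a * C.s a + a * C.s (C.s a)))
          = ∑ t : K, C.χ (C.i t * C.i t * C.i t + C.i t * (a * C.s a + a * C.s (C.s a))) := by
        refine Finset.sum_congr rfl fun t _ => ?_
        simp only [map_mul]
      rw [h1, ← hf]
      refine Finset.sum_congr rfl fun t _ => ?_
      have h2 : t * t * t = t ^ 3 := by ring
      simp only [e1, h2, hχ]
    rw [C.W_formula (Q_mod hk hK) a hT, hg, hQ, hχ, show a * a * a = a ^ 3 by ring,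
      show ((2 : ℤ) ^ k) ^ 2 = 2 ^ (2 * k) by ring]
  · rw [C.W_sq a hT, hQ, hχ, show ((2 : ℤ) ^ k) ^ 5 = 2 ^ (5 * k) by ring]

end

end MC
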