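import Pool.Agent.MC.PartE

/-!
The value of `E 1`, the closed form of `W a` on the hyperplane `T a = 0`, and bijections.
-/

set_option autoImplicit false

open Finset

namespace MC

variable {F K : Type} [Field F] [Field K] [Fintype F] [Fintype K] (C : Ctx F K)

namespace Ctx

include C

lemma five_dvd_gen (p : F → Prop) [DecidablePred p] (hp : ∀ x, p x → p (C.s x))
    (hn : ∀ x, p x → C.s x ≠ x) : (5 : ℤ) ∣ ∑ x : F, (if p x then (1 : ℤ) else 0) := by
  have h0 : ∑ x : F, (if p x then (1 : ℤ) else 0) = (Fintype.card {h : F // p h} : ℤ) := by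
    rw [Fintype.card_subtype, Finset.card_filter]
    push_cast
    rfl
  rw [h0]
  have key : 5 ∣ Fintype.card {h : F // p h} := by
    by_contra hcon
    haveI : Fact (Nat.Prime 5) := ⟨by norm_num⟩
    let f : {h : F // p h} → {h : F // p h} := fun h => ⟨C.s h.1, hp _ h.2⟩
    let σ : Equiv.Perm {h : F // p h} :=
      { toFun := f
        invFun := fun h => f (f (f (f h)))
        left_inv := by
          intro h
          apply Subtype.ext
          exact C.s5 h.1
        right_inv := by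
          intro h
          apply Subtype.ext
          exact C.s5 h.1 }
    have hσ : σ ^ 5 ^ 1 = 1 := by
      ext h
      rw [pow_one]
      have : (σ ^ 5) h = σ (σ (σ (σ (σ h)))) := rfl
      rw [this]
      exact C.s5 h.1
    obtain ⟨a, ha⟩ := Equiv.Perm.exists_fixed_point_of_prime hcon hσ
    have h1 : C.s a.1 = a.1 := congrArg Subtype.val ha
    exact hn _ a.2 h1
  exact_mod_cast key

/-- The value of `E 1`. -/
lemma E_val (hQ : C.Q ^ 2 % 5 = 4) : C.E 1 = - C.Q ^ 3 := by
  classical
  -- split into fixed and non fixed points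
  have h1 : C.E 1 = C.Q + ∑ z : F, (if C.s z = z then 0 else C.χ (z * C.s (C.s z) + z * 1)) := by
    have e1 : ∀ z : F, C.χ (z * C.s (C.s z) + z * 1) = (if C.s z = z then 1 else 0) +
        (if C.s z = z then 0 else C.χ (z * C.s (C.s z) + z * 1)) := by
      intro z
      split_ifs with h
      · rw [h, h, mul_one, C.χadd, C.χsq, C.χmul]; norm_num
      · rw [zero_add]
    rw [E, Finset.sum_congr rfl fun z _ => e1 z, Finset.sum_add_distrib, C.sum_fix (fun _ => 1)]
    simp only [Finset.sum_const, Finset.card_univ, nsmul_eq_mul, mul_one]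
    rfl
  have h2 : ∑ z : F, (if C.s z = z then 0 else C.χ (z * C.s (C.s z) + z * 1))
      = ∑ z : F, (if C.s z ≠ z then (1 : ℤ) else 0)
        - 2 * ∑ z : F, (if C.s z ≠ z ∧ C.χ (z * C.s (C.s z) + z * 1) = -1 then (1 : ℤ) else 0) := by
    rw [Finset.mul_sum, ← Finset.sum_sub_distrib]
    refine Finset.sum_congr rfl fun z _ => ?_
    by_cases h : C.s z = z
    · rw [if_pos h, if_neg (not_not.mpr h), if_neg (fun h' => h'.1 h)]
      norm_num
    · rcases C.χval (z * C.s (C.s z) + z * 1) with h2 | h2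
      · rw [if_neg h, if_pos h, if_neg (fun h' => by rw [h2] at h'; exact absurd h'.2 (by norm_num)),
          h2]
        norm_num
      · rw [if_neg h, if_pos h, if_pos ⟨h, h2⟩, h2]
        norm_num
  have hs : ∀ x : F, C.s x ≠ x → C.s (C.s x) ≠ C.s x := by
    intro x hx h
    exact hx (C.s.injective h)
  obtain ⟨m1, hm1⟩ := C.five_dvd_gen (fun z => C.s z ≠ z) hs (fun x hx => hx)
  obtain ⟨m2, hm2⟩ := C.five_dvd_gen
    (fun z => C.s z ≠ z ∧ C.χ (z * C.s (C.s z) + z * 1) = -1) (by
      rintro x ⟨hx, hx2⟩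
      refine ⟨hs x hx, ?_⟩
      rw [← hx2, ← C.χs (x * C.s (C.s x) + x * 1)]
      simp only [map_add, map_mul, map_one]) (fun x hx => hx.1)
  rw [hm1, hm2] at h2
  rw [h2] at h1
  have h3 := C.E_sq
  have h4 : (C.E 1 - C.Q ^ 3) * (C.E 1 + C.Q ^ 3) = 0 := by linear_combination h3
  rcases mul_eq_zero.mp h4 with h | h
  · exfalso
    have h5 : C.E 1 = C.Q ^ 3 := by linarith
    rw [h5] at h1
    -- Q^3 ≡ Q mod 5 contradicts Q^2 ≡ -1
    have h6 : (C.Q ^ 3 - C.Q) % 5 = 0 := by omega
    have h7 : C.Q ^ 3 - C.Q = C.Q * (C.Q ^ 2 - 1) := by ring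
    rw [h7] at h6
    have h8 : (5 : ℤ) ∣ C.Q * (C.Q ^ 2 - 1) := Int.dvd_of_emod_eq_zero h6
    have hp : Prime (5 : ℤ) := by norm_num
    rcases hp.dvd_or_dvd h8 with h9 | h9
    · have : (5 : ℤ) ∣ C.Q ^ 2 := dvd_pow h9 (by norm_num)
      omega
    · omega
  · linarith

/-- Closed form on the hyperplane. -/
theorem W_formula (hQ : C.Q ^ 2 % 5 = 4) (a : F) (ha : C.T a = 0) :
    C.W a = C.Q ^ 2 * C.χ (a * a * a) *
      ∑ t : K, C.χ (C.i (t * t * t) + C.i t * (a * C.s a + a * C.s (C.s a))) := by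
  set u : F := a + C.s (C.s (C.s (C.s a))) with hu
  have hT := C.iT a
  rw [ha, map_zero] at hT
  have hTu : C.T u = 0 := by
    rw [hu, C.Tadd, C.Ts, C.Ts, C.Ts, C.Ts, C.addK]
  have h1 : C.s (C.s (C.s (C.s u))) + C.s (C.s u) = a := by
    rw [hu]
    simp only [map_add, C.s5]
    have h := C.two
    linear_combination -hT - a * h
  have h4 : C.s (C.s (C.s (C.s a))) = - a - C.s a - C.s (C.s a) - C.s (C.s (C.s a)) := by
    linear_combination -hT
  have e1 : C.χ (C.kap u) = C.χ (a * a * a) := by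
    apply C.χcongr
    rw [C.iT, C.iT, hu]
    simp only [kap, map_add, map_mul, C.s5]
    have h := C.two
    rw [h4]
    generalize C.s (C.s (C.s a)) = g3
    generalize C.s (C.s a) = g2
    generalize C.s a = g1
    linear_combination (4 * a * g1 * g2 + 4 * a * g1 * g3 + 2 * a * g1 ^ 2 + 4 * a * g2 * g3 + 2 * a * g2 ^ 2 
      + 2 * a * g3 ^ 2 + 2 * a ^ 2 * g1 + 2 * a ^ 2 * g2 + 2 * a ^ 2 * g3 + 4 * g1 * g2 * 
      g3 + 2 * g1 * g2 ^ 2 + 2 * g1 * g3 ^ 2 + 2 * g1 ^ 2 * g2 + 2 * g1 ^ 2 * g3 + 2 * g2 * 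
      g3 ^ 2 + 2 * g2 ^ 2 * g3) * h
  have e2 : ∀ r : K, C.χ (C.i r * (u * C.s (C.s u))) = C.χ (C.i r * (a * C.s a + a * C.s (C.s a))) := by
    intro r
    apply C.χcongr
    rw [C.iT, C.iT, hu]
    simp only [map_add, map_mul, C.s5, C.si]
    have h := C.two
    rw [h4]
    generalize C.s (C.s (C.s a)) = g3
    generalize C.s (C.s a) = g2
    generalize C.s a = g1
    generalize C.i r = c
    linear_combination (-a * c * g1 + a * c * g3 - 2 * c * g1 * g2 - c * g1 ^ 2 - c * g2 * g3 -
      c * g2 ^ 2) * h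
  have e3 : C.Gam u = C.χ (a * a * a) *
      ∑ t : K, C.χ (C.i (t * t * t) + C.i t * (a * C.s a + a * C.s (C.s a))) := by
    rw [Gam, Finset.mul_sum]
    refine Finset.sum_congr rfl fun t _ => ?_
    rw [C.kap_shift, C.χi (t * t) u, hTu, mul_zero, map_zero, C.χzero, e1, e2, C.χadd]
    ring
  have h3 := C.V_eq u
  rw [C.V_eq_W, h1, C.E_val hQ, e3] at h3
  have hQ0 : C.Q ≠ 0 := by have := C.Qpos; omega
  apply mul_left_cancel₀ hQ0
  rw [h3]
  ring

lemma one_of_sq {x : F} (h : x * x = 1) : x = 1 := by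
  have h1 : (x + 1) * (x + 1) = 0 := by
    have := C.two
    linear_combination h + (1 + x) * this
  have h2 := mul_self_eq_zero.mp h1
  exact C.eq_of_add _ _ h2

lemma inj1 {y z : F} (h : y * C.s y = z * C.s z) : y = z := by
  by_cases hz : z = 0
  · subst hz
    rw [zero_mul] at h
    by_contra hy
    exact (mul_ne_zero hy (C.s_ne hy)) h
  · have h1 := C.s_ne hz
    have hr : (y / z) * C.s (y / z) = 1 := by
      rw [map_div₀]
      field_simp
      exact h
    have hne : C.s (y / z) ≠ 0 := by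
      intro h0
      rw [h0, mul_zero] at hr
      exact zero_ne_one hr
    have hr1 : C.s (y / z) * C.s (C.s (y / z)) = 1 := by
      have := congrArg C.s hr
      simpa only [map_mul, map_one] using this
    have e2 : C.s (C.s (y / z)) = y / z := by
      apply mul_left_cancel₀ hne
      rw [hr1, ← hr]
      ring
    have e3 := C.two_fix e2
    rw [e3] at hr
    have e4 := C.one_of_sq hr
    field_simp at e4
    exact e4

lemma inj2 {y z : F} (h : y * C.s (C.s y) = z * C.s (C.s z)) : y = z := by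
  by_cases hz : z = 0
  · subst hz
    rw [zero_mul] at h
    by_contra hy
    exact (mul_ne_zero hy (C.s_ne (C.s_ne hy))) h
  · have h1 := C.s_ne (C.s_ne hz)
    have hr : (y / z) * C.s (C.s (y / z)) = 1 := by
      rw [map_div₀, map_div₀]
      field_simp
      exact h
    have hne : C.s (C.s (y / z)) ≠ 0 := by
      intro h0
      rw [h0, mul_zero] at hr
      exact zero_ne_one hr
    have hr1 : C.s (C.s (y / z)) * C.s (C.s (C.s (C.s (y / z)))) = 1 := by
      have := congrArg (fun x => C.s (C.s x)) hr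
      simpa only [map_mul, map_one] using this
    have e2 : C.s (C.s (C.s (C.s (y / z)))) = y / z := by
      apply mul_left_cancel₀ hne
      rw [hr1, ← hr]
      ring
    have e3 : C.s (y / z) = y / z := by
      have := congrArg C.s e2
      rw [C.s5] at this
      exact this.symm
    rw [e3, e3] at hr
    have e4 := C.one_of_sq hr
    field_simp at e4
    exact e4

end Ctx

end MC
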