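import Pool.Agent.MC.Conc2
import Pool.Agent.MC.PartF

/-!
Exponents: coprimality, equivalence of decimations, and the concrete sums.
-/

set_option autoImplicit false

open Finset

namespace MC

section

variable {F : Type} [Field F] [Fintype F] [Algebra (ZMod 2) F]

/-- The Walsh sum of `x ^ d` at `a`. -/
noncomputable def WS (d : ℕ) (a : F) : ℤ := ∑ x : F, chi (a * x + x ^ d)

omit [Algebra (ZMod 2) F] in
lemma coprime_of_inj {d : ℕ} (h : Function.Injective (fun x : F => x ^ d)) :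
    Nat.Coprime d (Fintype.card F - 1) := by
  classical
  by_contra hcon
  obtain ⟨p, hp, hpd, hpN⟩ := Nat.Prime.not_coprime_iff_dvd.mp hcon
  haveI : Fact p.Prime := ⟨hp⟩
  rw [← Fintype.card_units] at hpN
  obtain ⟨g, hg⟩ := exists_prime_orderOf_dvd_card p hpN
  have h1 : g ^ d = 1 := by
    rw [← hg] at hpd
    exact orderOf_dvd_iff_pow_eq_one.mp hpd
  have h2 : (g : F) ^ d = 1 := by
    rw [← Units.val_pow_eq_pow_val, h1, Units.val_one]
  have h3 : (g : F) = 1 := by
    apply h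
    simp only [h2, one_pow]
  have h4 : g = 1 := Units.ext h3
  rw [h4, orderOf_one] at hg
  exact hp.one_lt.ne hg

omit [Algebra (ZMod 2) F] in
lemma inj_of_coprime {d : ℕ} (hN : 1 < Fintype.card F - 1)
    (h : Nat.Coprime d (Fintype.card F - 1)) : Function.Injective (fun x : F => x ^ d) := by
  have hd : d ≠ 0 := by
    rintro rfl
    rw [Nat.coprime_zero_left] at h
    omega
  intro x y hxy
  have hxy' : x ^ d = y ^ d := hxy
  by_cases hy : y = 0
  · subst hy
    rw [zero_pow hd] at hxy'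
    exact pow_eq_zero_iff hd |>.mp hxy'
  · have h1 : (x / y) ^ d = 1 := by
      rw [div_pow, hxy', div_self (pow_ne_zero _ hy)]
    have hx : x ≠ 0 := by
      rintro rfl
      rw [zero_pow hd] at hxy'
      exact pow_ne_zero _ hy hxy'.symm
    have h2 : (x / y) ^ (Fintype.card F - 1) = 1 :=
      FiniteField.pow_card_sub_one_eq_one _ (div_ne_zero hx hy)
    have h3 := pow_gcd_eq_one.mpr ⟨h1, h2⟩
    rw [h, pow_one] at h3
    field_simp at h3
    exact h3

omit [Algebra (ZMod 2) F] in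
lemma pow_modEq {m m' : ℕ} (hm : m ≠ 0) (hm' : m' ≠ 0) (h : m ≡ m' [MOD (Fintype.card F - 1)])
    (x : F) : x ^ m = x ^ m' := by
  by_cases hx : x = 0
  · rw [hx, zero_pow hm, zero_pow hm']
  · exact pow_eq_pow_of_modEq h (FiniteField.pow_card_sub_one_eq_one x hx)

omit [Field F] [Algebra (ZMod 2) F] in
lemma coprime_two_pow {n : ℕ} (hn : 2 ≤ n) (hF : Fintype.card F = 2 ^ n) (j : ℕ) :
    Nat.Coprime (2 ^ j) (Fintype.card F - 1) := by
  apply Nat.Coprime.pow_left
  rw [hF]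
  have h1 : 1 ≤ 2 ^ n := Nat.one_le_two_pow
  have h2 : 2 ∣ 2 ^ n := dvd_pow_self 2 (by omega)
  rw [Nat.coprime_two_left, Nat.odd_iff]
  omega

/-- The conclusion of the conjecture for the exponent `d`, together with coprimality. -/
def Good (F : Type) [Field F] [Fintype F] [Algebra (ZMod 2) F] (d : ℕ) : Prop :=
  Nat.Coprime d (Fintype.card F - 1) ∧ ∃ a : F, a ≠ 0 ∧ WS d a = 0

lemma Good.equiv {n : ℕ} (hn : 2 ≤ n) (hF : Fintype.card F = 2 ^ n) {d₀ d j : ℕ}
    (h₀ : Good F d₀) (h : d ≡ 2 ^ j * d₀ [MOD (Fintype.card F - 1)] ∨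
      d * d₀ ≡ 2 ^ j [MOD (Fintype.card F - 1)]) : Good F d := by
  have hN : 1 < Fintype.card F - 1 := by
    rw [hF]
    have : 2 ^ 2 ≤ 2 ^ n := Nat.pow_le_pow_right (by norm_num) hn
    omega
  have hne : ∀ m : ℕ, Nat.Coprime m (Fintype.card F - 1) → m ≠ 0 := by
    rintro m hm rfl
    rw [Nat.coprime_zero_left] at hm
    omega
  obtain ⟨hc, a, ha, hW⟩ := h₀
  have h2 := coprime_two_pow hn hF j
  rcases h with h | h
  · have h3 : Nat.Coprime (2 ^ j * d₀) (Fintype.card F - 1) := Nat.Coprime.mul_left h2 hc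
    have h4 : Nat.Coprime d (Fintype.card F - 1) := by
      exact h.gcd_eq.trans h3
    refine ⟨h4, a, ha, ?_⟩
    rw [← hW]
    unfold WS
    refine Finset.sum_congr rfl fun x _ => ?_
    rw [chi_add, chi_add, pow_modEq (hne _ h4) (hne _ h3) h x, mul_comm (2 ^ j) d₀, pow_mul,
      chi_pow]
  · have h3 : Nat.Coprime (d * d₀) (Fintype.card F - 1) := by
      exact h.gcd_eq.trans h2
    have h4 : Nat.Coprime d (Fintype.card F - 1) := Nat.Coprime.coprime_mul_right h3
    have hinj := inj_of_coprime hN hc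
    have hbij := Finite.injective_iff_bijective.mp hinj
    refine ⟨h4, a⁻¹ ^ d₀, pow_ne_zero _ (inv_ne_zero ha), ?_⟩
    rw [← hW]
    unfold WS
    rw [← Equiv.sum_comp (Equiv.ofBijective _ hbij)
      (fun x => chi (a⁻¹ ^ d₀ * x + x ^ d))]
    rw [← Equiv.sum_comp (Equiv.mulLeft₀ a ha) (fun x => chi ((a⁻¹ ^ d₀) *
      (Equiv.ofBijective _ hbij x) + (Equiv.ofBijective _ hbij x) ^ d))]
    refine Finset.sum_congr rfl fun x _ => ?_
    change chi (a⁻¹ ^ d₀ * (a * x) ^ d₀ + ((a * x) ^ d₀) ^ d) = _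
    have e1 : a⁻¹ ^ d₀ * (a * x) ^ d₀ = x ^ d₀ := by
      rw [← mul_pow, inv_mul_cancel_left₀ ha]
    have e2 : ((a * x) ^ d₀) ^ d = (a * x) ^ 2 ^ j := by
      rw [← pow_mul, mul_comm d₀ d]
      exact pow_modEq (hne _ h3) (by positivity) h _
    rw [e1, e2, chi_add, chi_pow, chi_add]
    ring

/-- Transfer along a substitution. -/
lemma WS_eq {d : ℕ} {φ ψ : F → F} (hφ : Function.Injective φ)
    (h : ∀ y, φ y ^ d = ψ y) (a : F) :
    WS d a = ∑ y : F, chi (a * φ y + ψ y) := by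
  have hb := Finite.injective_iff_bijective.mp hφ
  unfold WS
  rw [← Equiv.sum_comp (Equiv.ofBijective _ hb) (fun x => chi (a * x + x ^ d))]
  refine Finset.sum_congr rfl fun y _ => ?_
  simp only [Equiv.ofBijective_apply]
  rw [h]

omit [Algebra (ZMod 2) F] in
lemma coprime_of_transfer {d : ℕ} {φ ψ : F → F} (hφ : Function.Injective φ)
    (hψ : Function.Injective ψ) (h : ∀ y, φ y ^ d = ψ y) :
    Nat.Coprime d (Fintype.card F - 1) := by
  apply coprime_of_inj
  have hb := Finite.injective_iff_bijective.mp hφ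
  intro x y hxy
  obtain ⟨x', rfl⟩ := hb.2 x
  obtain ⟨y', rfl⟩ := hb.2 y
  have h1 : φ x' ^ d = φ y' ^ d := hxy
  rw [h, h] at h1
  rw [hψ h1]

end

end MC
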