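import Pool.Agent.MC.BSum

/-!
`Q V = - E(1) Γ`, and the consequences for the Dobbertin exponent.
-/

set_option autoImplicit false

open Finset

namespace MC

variable {F K : Type} [Field F] [Field K] [Fintype F] [Fintype K] (C : Ctx F K)

namespace Ctx

include C

lemma T_P (y : F) : C.T (C.P y) = 0 := by
  have h1 : C.P y = C.s (y * C.s y) + C.s (C.s (C.s (y * C.s y))) := by
    simp only [P, map_mul]
  rw [h1, C.Tadd, C.Ts, C.Ts, C.Ts, C.Ts, C.addK]

lemma V_shift (u : F) (t : K) : C.V (u + C.i t) = C.V u := by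
  unfold V
  refine Finset.sum_congr rfl fun y _ => ?_
  have h1 : C.kap y + (u + C.i t) * C.P y = (C.kap y + u * C.P y) + C.i t * C.P y := by ring
  rw [h1, C.χadd, C.χi, C.T_P, mul_zero, map_zero, C.χzero, mul_one]

lemma VG_sum : ∑ u : F, C.V u * C.Gam u = C.Q * (C.Q ^ 5 - C.Q ^ 4 * C.E 1) := by
  rw [← C.X_sum]
  have h1 : ∀ u : F, C.V u * C.Gam u = ∑ t : K, C.V (u + C.i t) * C.χ (C.kap (u + C.i t)) := by
    intro u
    rw [Gam, Finset.mul_sum]
    refine Finset.sum_congr rfl fun t _ => ?_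
    rw [C.V_shift]
  rw [Finset.sum_congr rfl fun u _ => h1 u, Finset.sum_comm]
  have h2 : ∀ t : K, ∑ u : F, C.V (u + C.i t) * C.χ (C.kap (u + C.i t))
      = ∑ u : F, C.V u * C.χ (C.kap u) := by
    intro t
    exact Equiv.sum_comp (Equiv.addRight (C.i t)) (fun u => C.V u * C.χ (C.kap u))
  rw [Finset.sum_congr rfl fun t _ => h2 t]
  simp only [Finset.sum_const, Finset.card_univ, nsmul_eq_mul]
  rfl

/-- The main identity. -/
theorem V_eq (u : F) : C.Q * C.V u = - C.E 1 * C.Gam u := by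
  have h1 : ∑ v : F, (C.Q * C.V v + C.E 1 * C.Gam v) ^ 2 = 0 := by
    have e1 : ∀ v : F, (C.Q * C.V v + C.E 1 * C.Gam v) ^ 2
        = C.Q ^ 2 * (C.V v * C.V v) + 2 * C.Q * C.E 1 * (C.V v * C.Gam v)
          + C.E 1 ^ 2 * (C.Gam v * C.Gam v) := by
      intro v; ring
    rw [Finset.sum_congr rfl fun v _ => e1 v, Finset.sum_add_distrib, Finset.sum_add_distrib,
      ← Finset.mul_sum, ← Finset.mul_sum, ← Finset.mul_sum, C.V_sq_sum, C.VG_sum, C.Gam_sq_sum]
    have h := C.E_sq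
    linear_combination (C.Q ^ 6 - 2 * C.Q ^ 6 - C.Q * C.E 1 + C.Q ^ 6 - C.Q ^ 6) * h
  have h2 := (Finset.sum_eq_zero_iff_of_nonneg (fun v _ => sq_nonneg _)).mp h1 u
    (Finset.mem_univ u)
  have h3 := pow_eq_zero_iff (n := 2) (by norm_num) |>.mp h2
  linarith

end Ctx

end MC
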