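import Pool.Agent.MC.MainA

/-!
Consequences: existence of a zero and the squares of the sums on the hyperplane.
-/

set_option autoImplicit false

open Finset

namespace MC

variable {F K : Type} [Field F] [Field K] [Fintype F] [Fintype K] (C : Ctx F K)

namespace Ctx

/-- `∑ y, χ (κ y + a y y₁)`. -/
def W (a : F) : ℤ := ∑ y : F, C.χ (C.kap y + a * (y * C.s y))

include C

lemma V_eq_W (u : F) : C.V u = C.W (C.s (C.s (C.s (C.s u))) + C.s (C.s u)) := by
  unfold V W
  refine Finset.sum_congr rfl fun y _ => ?_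
  apply C.χcongr
  rw [C.iT, C.iT]
  simp only [kap, P, map_add, map_mul, C.s5]
  ring

lemma two_fix {x : F} (h : C.s (C.s x) = x) : C.s x = x := by
  have h1 : C.s (C.s (C.s (C.s x))) = x := by rw [h, h]
  have h2 := congrArg C.s h1
  rw [C.s5] at h2
  exact h2.symm

open Classical in
lemma exists_u : ∃ u : F, C.s u ≠ u ∧ C.χ (u * C.s (C.s u) + u) = 1 := by
  by_contra hno
  push_neg at hno
  have h1 : ∀ u : F, C.χ (u * C.s (C.s u) + u * 1) = (if C.s u = u then 2 else 0) - 1 := by
    intro u
    rw [mul_one]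
    by_cases hu : C.s u = u
    · rw [if_pos hu, hu, hu, C.χadd, C.χsq, C.χmul]
      norm_num
    · rw [if_neg hu]
      have h2 := hno u hu
      have h3 := C.χmul (u * C.s (C.s u) + u)
      rcases mul_self_eq_one_iff.mp h3 with h | h
      · exact absurd h h2
      · rw [h]; norm_num
  have h2 : C.E 1 = 2 * C.Q - C.Q ^ 5 := by
    rw [E, Finset.sum_congr rfl fun u _ => h1 u, Finset.sum_sub_distrib,
      C.sum_fix (fun _ => 2)]
    simp only [Finset.sum_const, Finset.card_univ, nsmul_eq_mul, mul_one]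
    rw [C.cardF]
    change C.Q * 2 - C.Q ^ 5 = _
    ring
  have h3 := C.E_sq
  have hQ := C.Qpos
  rw [h2] at h3
  have h4 : C.Q ^ 2 * ((C.Q ^ 4 - 2) ^ 2 - C.Q ^ 4) = 0 := by linear_combination h3
  have hQ2 : C.Q ^ 2 ≠ 0 := by positivity
  have h5 := (mul_eq_zero.mp h4).resolve_left hQ2
  have h6 : (C.Q ^ 4 - 2 - C.Q ^ 2) * (C.Q ^ 4 - 2 + C.Q ^ 2) = 0 := by linear_combination h5
  have hq : 4 ≤ C.Q ^ 2 := by nlinarith
  have hq4 : C.Q ^ 4 = C.Q ^ 2 * C.Q ^ 2 := by ring
  rw [hq4] at h6
  generalize C.Q ^ 2 = q at hq h6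
  rcases mul_eq_zero.mp h6 with h | h
  · nlinarith
  · nlinarith

/-- There is a nonzero `a` with `W a = 0`. -/
theorem exists_W_zero : ∃ a : F, a ≠ 0 ∧ C.W a = 0 := by
  obtain ⟨u, hu, hχ⟩ := C.exists_u
  refine ⟨C.s (C.s (C.s (C.s u))) + C.s (C.s u), ?_, ?_⟩
  · intro h0
    apply hu
    have h1 := C.eq_of_add _ _ h0
    have h2 := congrArg C.s h1
    rw [C.s5] at h2
    have h3 : C.s (C.s u) = u := by
      have := congrArg (fun x => C.s (C.s x)) h2
      simp only [C.s5] at this
      exact this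
    exact C.two_fix h3
  · rw [← C.V_eq_W]
    have h1 := C.V_eq u
    rw [C.Gam_zero hχ, mul_zero] at h1
    have hQ : C.Q ≠ 0 := by have := C.Qpos; omega
    exact (mul_eq_zero.mp h1).resolve_left hQ

open Classical in
lemma sum_sq_K (c : K) : ∑ t : K, C.χ (C.i (t * t * c)) = if c = 0 then C.Q else 0 := by
  have hinj : Function.Injective (fun m : K => m * m) := fun a b h => C.sq_inj h
  have hb := Finite.injective_iff_bijective.mp hinj
  rw [← C.orthK_ite c]
  exact Equiv.sum_comp (Equiv.ofBijective _ hb) (fun m => C.χ (C.i (m * c)))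

lemma Gam_sq (u : F) : C.Gam u * C.Gam u = C.Q * (1 - C.χ (u * C.s (C.s u) + u)) := by
  classical
  have h1 : C.Gam u * C.Gam u = ∑ r : K, C.χ (C.i (r * r * r)) * C.χ (C.i r * (u * C.s (C.s u)))
      * C.χ (C.i (r * r) * u) * ∑ t : K, C.χ (C.i (t * t * (r + r * r * r * r))) := by
    have e1 : C.Gam u * C.Gam u
        = ∑ t : K, ∑ r : K, C.χ (C.kap (u + C.i t)) * C.χ (C.kap (u + C.i t + C.i r)) := by
      rw [Gam, Finset.sum_mul_sum]
      refine Finset.sum_congr rfl fun t _ => ?_
      rw [← Equiv.sum_comp (Equiv.addLeft t)]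
      refine Finset.sum_congr rfl fun r _ => ?_
      simp only [Equiv.coe_addLeft, map_add]
      rw [add_assoc u]
    rw [e1, Finset.sum_comm]
    refine Finset.sum_congr rfl fun r _ => ?_
    rw [Finset.mul_sum]
    refine Finset.sum_congr rfl fun t _ => ?_
    rw [C.kap_shift (u + C.i t) r]
    have e2 : C.χ (C.i r * ((u + C.i t) * C.s (C.s (u + C.i t))))
        = C.χ (C.i r * (u * C.s (C.s u))) * C.χ (C.i (t * t * r)) := by
      rw [← C.χadd]
      apply C.χcongr
      rw [C.iT, C.iT]
      simp only [map_add, map_mul, C.s5, C.si]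
      have h := C.two
      generalize C.s (C.s (C.s (C.s u))) = n4
      generalize C.s (C.s (C.s u)) = n3
      generalize C.s (C.s u) = n2
      generalize C.s u = n1
      generalize C.i t = c
      generalize C.i r = d
      linear_combination (c * d * (u + n1 + n2 + n3 + n4)) * h
    have e3 : C.χ (C.i (r * r) * (u + C.i t))
        = C.χ (C.i (r * r) * u) * C.χ (C.i (t * t * (r * r * r * r))) := by
      rw [mul_add, C.χadd]
      congr 1
      rw [← map_mul, ← C.χsq (C.i (r * r * t)), ← map_mul]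
      congr 2
      ring
    have e4 : C.χ (C.i (t * t * (r + r * r * r * r)))
        = C.χ (C.i (t * t * r)) * C.χ (C.i (t * t * (r * r * r * r))) := by
      rw [← C.χadd, ← map_add]
      congr 2
      ring
    rw [e2, e3, e4]
    have e5 := C.χmul (C.kap (u + C.i t))
    linear_combination (C.χ (C.i (r * r * r)) * (C.χ (C.i r * (u * C.s (C.s u))) *
      C.χ (C.i (t * t * r))) * (C.χ (C.i (r * r) * u) * C.χ (C.i (t * t * (r * r * r * r))))) * e5
  rw [h1]
  have h2 : ∀ r : K, C.χ (C.i (r * r * r)) * C.χ (C.i r * (u * C.s (C.s u)))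
      * C.χ (C.i (r * r) * u) * ∑ t : K, C.χ (C.i (t * t * (r + r * r * r * r)))
      = (if r = 0 then C.Q else 0) + (if r = 1 then C.Q * (- C.χ (u * C.s (C.s u) + u)) else 0) := by
    intro r
    rw [C.sum_sq_K]
    by_cases h0 : r = 0
    · subst h0
      simp [C.χzero]
    · by_cases h1 : r = 1
      · subst h1
        have h5 : (1 : K) + 1 * 1 * 1 * 1 = 0 := by
          have := C.twoK
          linear_combination this
        rw [if_pos h5, if_neg h0, if_pos rfl, C.χadd]
        simp only [mul_one, map_one, one_mul, C.χone]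
        ring
      · rw [if_neg h0, if_neg h1, if_neg, mul_zero, add_zero]
        intro h6
        apply h1
        apply C.cube
        have h7 : r * (1 + r * r * r) = 0 := by linear_combination h6
        have h8 := (mul_eq_zero.mp h7).resolve_left h0
        have h9 := C.addK (1 : K)
        linear_combination h8 - h9
  rw [Finset.sum_congr rfl fun r _ => h2 r, Finset.sum_add_distrib, Finset.sum_ite_eq',
    Finset.sum_ite_eq']
  simp only [Finset.mem_univ, if_true]
  ring

/-- The square of `W a` for `a` of relative trace zero. -/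
theorem W_sq (a : F) (ha : C.T a = 0) :
    C.W a ^ 2 = C.Q ^ 5 * (1 - C.χ (a * C.s a + a * C.s (C.s a))) := by
  set u : F := a + C.s (C.s (C.s (C.s a))) with hu
  have hT := C.iT a
  rw [ha, map_zero] at hT
  have h1 : C.s (C.s (C.s (C.s u))) + C.s (C.s u) = a := by
    rw [hu]
    simp only [map_add, C.s5]
    have h := C.two
    linear_combination -hT - a * h
  have h2 : C.χ (u * C.s (C.s u) + u) = C.χ (a * C.s a + a * C.s (C.s a)) := by
    have e1 : C.χ (u * C.s (C.s u) + u) = C.χ (a * C.s a + a * C.s (C.s a) + 0) := by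
      apply C.χcongr
      rw [C.iT, C.iT, hu]
      simp only [map_add, map_mul, C.s5, map_zero]
      have h := C.two
      have h4 : C.s (C.s (C.s (C.s a))) = - a - C.s a - C.s (C.s a) - C.s (C.s (C.s a)) := by
        linear_combination -hT
      rw [h4]
      generalize C.s (C.s (C.s a)) = g3
      generalize C.s (C.s a) = g2
      generalize C.s a = g1
      linear_combination (-a * g1 + a * g3 - 2 * g1 * g2 - g1 ^ 2 - g2 * g3 - g2 ^ 2) * h
    rw [e1, add_zero]
  have h3 := C.V_eq u
  rw [C.V_eq_W, h1] at h3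
  have h4 := C.Gam_sq u
  rw [h2] at h4
  have h5 := C.E_sq
  have hQ : C.Q ^ 2 ≠ 0 := by
    have := C.Qpos
    positivity
  apply mul_left_cancel₀ hQ
  calc C.Q ^ 2 * C.W a ^ 2 = (C.Q * C.W a) ^ 2 := by ring
    _ = (C.E 1 * C.E 1) * (C.Gam u * C.Gam u) := by rw [h3]; ring
    _ = C.Q ^ 2 * (C.Q ^ 5 * (1 - C.χ (a * C.s a + a * C.s (C.s a)))) := by
      rw [h4, h5]; ring

end Ctx

end MC
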