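import Pool.Agent.MC.MainB

/-!
Sums `∑ y, χ (κ y + b y y₂ + a y)` with `a, b` in the small field.
-/

set_option autoImplicit false

open Finset

namespace MC

variable {F K : Type} [Field F] [Field K] [Fintype F] [Fintype K] (C : Ctx F K)

namespace Ctx

/-- The form `h² (h₂ + h₃) + t h h₂`. -/
def Th (t : K) (h : F) : F := h * h * (C.s (C.s h) + C.s (C.s (C.s h)))
  + C.i t * (h * C.s (C.s h))

include C

lemma kapH {h : F} (hh : C.T h = 0) :
    C.χ (C.kap h) = C.χ (h * h * (C.s (C.s h) + C.s (C.s (C.s h)))) := by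
  apply C.χcongr
  rw [C.iT, C.iT]
  have hT := C.iT h
  rw [hh, map_zero] at hT
  simp only [kap, map_add, map_mul, C.s5]
  have h2 := C.two
  have h4 : C.s (C.s (C.s (C.s h))) = - h - C.s h - C.s (C.s h) - C.s (C.s (C.s h)) := by
    linear_combination -hT
  rw [h4]
  generalize C.s (C.s (C.s h)) = g3
  generalize C.s (C.s h) = g2
  generalize C.s h = g1
  linear_combination (-2 * g1 * g2 * g3 - 2 * g1 * g2 * h - g1 * g2 ^ 2 - 2 * g1 * g3 * h - g1 * g3 ^ 2 - 
      g1 * h ^ 2 - g1 ^ 2 * g2 - g1 ^ 2 * g3 - g1 ^ 2 * h - 2 * g2 * g3 * h - g2 * g3 ^ 2 - 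
      g2 * h ^ 2 - g2 ^ 2 * g3 - g2 ^ 2 * h - g3 * h ^ 2 - g3 ^ 2 * h) * h2

open Classical in
lemma sum_split (f : F → ℤ) :
    ∑ y : F, f y = ∑ t : K, ∑ h : F, (if C.T h = 0 then f (h + C.i t) else 0) := by
  have h1 : ∑ y : F, f y = ∑ t : K, ∑ y : F, (if C.T y = t then f y else 0) := by
    rw [Finset.sum_comm]
    refine Finset.sum_congr rfl fun u _ => ?_
    rw [Finset.sum_ite_eq]
    simp
  rw [h1]
  refine Finset.sum_congr rfl fun t _ => ?_
  rw [← Equiv.sum_comp (Equiv.addRight (C.i t)) (fun y => if C.T y = t then f y else 0)]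
  refine Finset.sum_congr rfl fun h _ => ?_
  have e0 : C.T (h + C.i t) = C.T h + t := by rw [C.Tadd, C.Ti]
  simp only [Equiv.coe_addRight, e0, add_eq_right]

open Classical in
lemma orthH (c : F) : ∑ h : F, (if C.T h = 0 then C.χ (h * h * c) else 0)
    = if C.s c = c then C.Q ^ 4 else 0 := by
  have hQ : C.Q ≠ 0 := by have := C.Qpos; omega
  have hinjF : Function.Injective (fun x : F => x * x) := by
    intro a b h
    have h1 : (a + b) * (a + b) = 0 := by
      have := C.two
      have h' : a * a = b * b := h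
      linear_combination h' + (a * b + b * b) * this
    exact C.eq_of_add _ _ (mul_self_eq_zero.mp h1)
  have hbF := Finite.injective_iff_bijective.mp hinjF
  apply mul_left_cancel₀ hQ
  have h1 : C.Q * ∑ h : F, (if C.T h = 0 then C.χ (h * h * c) else 0)
      = ∑ r : K, ∑ h : F, C.χ (h * (C.i (r * r) + c)) := by
    have e1 : ∀ r : K, ∑ h : F, C.χ (h * (C.i (r * r) + c))
        = ∑ h : F, C.χ (C.i (r * C.T h)) * C.χ (h * h * c) := by
      intro r
      rw [← Equiv.sum_comp (Equiv.ofBijective _ hbF) (fun h => C.χ (h * (C.i (r * r) + c)))]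
      refine Finset.sum_congr rfl fun h _ => ?_
      simp only [Equiv.ofBijective_apply]
      rw [mul_add, C.χadd, ← C.χi, ← C.χsq (C.i r * h), map_mul]
      congr 2
      ring
    rw [Finset.sum_congr rfl fun r _ => e1 r, Finset.sum_comm, Finset.mul_sum]
    refine Finset.sum_congr rfl fun h _ => ?_
    rw [← Finset.sum_mul, C.orthK_ite]
    split_ifs <;> ring
  rw [h1]
  have h2 : ∀ r : K, ∑ h : F, C.χ (h * (C.i (r * r) + c))
      = if C.i (r * r) = c then C.Q ^ 5 else 0 := by
    intro r
    rw [C.orth_ite]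
    have : (C.i (r * r) + c = 0) ↔ (C.i (r * r) = c) := by
      constructor
      · intro h; exact C.eq_of_add _ _ h
      · intro h; rw [h, C.add_self]
    simp only [this]
  rw [Finset.sum_congr rfl fun r _ => h2 r]
  by_cases hc : C.s c = c
  · obtain ⟨d, rfl⟩ := C.fix c hc
    have hinj : Function.Injective (fun m : K => m * m) := fun a b h => C.sq_inj h
    obtain ⟨p, hp⟩ := (Finite.injective_iff_surjective.mp hinj) d
    have hp' : p * p = d := hp
    rw [if_pos hc, Finset.sum_eq_single p]
    · rw [if_pos (by rw [hp'])]; ring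
    · intro b _ hb
      rw [if_neg]
      intro h
      apply hb
      apply C.sq_inj
      rw [hp']
      exact C.inj h
    · intro h; exact absurd (Finset.mem_univ p) h
  · rw [if_neg hc, mul_zero]
    apply Finset.sum_eq_zero
    intro r _
    rw [if_neg]
    rintro rfl
    exact hc (C.si _)

/-- No element of trace zero satisfies the cubic equation. -/
lemma no_cubic (t : K) (v : F) (hv : C.T v = 0) : 1 + v * v * v + C.i t * v ≠ 0 := by
  intro h0
  have hne : C.s v ≠ v := by
    intro h
    have h1 := C.fixT h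
    rw [hv, map_zero] at h1
    rw [← h1] at h0
    simp at h0
  have h1 : 1 + C.s v * C.s v * C.s v + C.i t * C.s v = 0 := by
    have := congrArg C.s h0
    simpa only [map_add, map_mul, map_one, C.si, map_zero] using this
  have h2 : 1 + C.s (C.s v) * C.s (C.s v) * C.s (C.s v) + C.i t * C.s (C.s v) = 0 := by
    have := congrArg C.s h1
    simpa only [map_add, map_mul, map_one, C.si, map_zero] using this
  have htwo := C.two
  have e1 : (v + C.s v) * (v * v + v * C.s v + C.s v * C.s v + C.i t) = 0 := by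
    linear_combination h0 - h1 + (v * v * C.s v + v * C.s v * C.s v + C.s v * C.s v * C.s v
      + C.i t * C.s v) * htwo
  have n1 : v + C.s v ≠ 0 := fun h => hne (C.eq_of_add _ _ h).symm
  have e2 := (mul_eq_zero.mp e1).resolve_left n1
  have e3 : C.s v * C.s v + C.s v * C.s (C.s v) + C.s (C.s v) * C.s (C.s v) + C.i t = 0 := by
    have := congrArg C.s e2
    simpa only [map_add, map_mul, map_one, C.si, map_zero] using this
  have e4 : (v + C.s (C.s v)) * (v + C.s v + C.s (C.s v)) = 0 := by
    linear_combination e2 - e3 + (v * C.s (C.s v) + C.s v * C.s (C.s v) +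
      C.s (C.s v) * C.s (C.s v)) * htwo
  rcases mul_eq_zero.mp e4 with h | h
  · exact hne (C.two_fix (C.eq_of_add _ _ h).symm)
  · have h5 : C.s v + C.s (C.s v) + C.s (C.s (C.s v)) = 0 := by
      have := congrArg C.s h
      simpa only [map_add, map_zero] using this
    have h6 : C.s (C.s (C.s v)) = v := by linear_combination h5 - h
    have h7 : C.s (C.s (C.s (C.s (C.s v)))) = C.s (C.s v) := by rw [h6]
    rw [C.s5] at h7
    exact hne (C.two_fix h7.symm)

end Ctx

end MC
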