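import Pool.Agent.MC.PartC

/-!
Evaluation of `∑ y, χ (κ y + b y y₂ + a y)` with `a, b` in the small field.
-/

set_option autoImplicit false

open Finset

namespace MC

variable {F K : Type} [Field F] [Field K] [Fintype F] [Fintype K] (C : Ctx F K)

namespace Ctx

open Classical in
/-- `∑_{h : T h = 0} χ (Θ_t h)`. -/
noncomputable def G (t : K) : ℤ := ∑ h : F, if C.T h = 0 then C.χ (C.Th t h) else 0

include C

lemma split_term (a b t : K) {h : F} (hh : C.T h = 0) :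
    C.χ (C.kap (h + C.i t) + C.i b * ((h + C.i t) * C.s (C.s (h + C.i t))) + C.i a * (h + C.i t))
      = C.χ (C.i (t * t * t + b * (t * t) + a * t)) * C.χ (C.Th (t + b) h) := by
  rw [← C.χadd]
  apply C.χcongr
  rw [C.iT, C.iT]
  have hT := C.iT h
  rw [hh, map_zero] at hT
  simp only [kap, Th, map_add, map_mul, C.s5, C.si]
  have h2 := C.two
  have h4 : C.s (C.s (C.s (C.s h))) = - h - C.s h - C.s (C.s h) - C.s (C.s (C.s h)) := by
    linear_combination -hT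
  rw [h4]
  generalize C.s (C.s (C.s h)) = g3
  generalize C.s (C.s h) = g2
  generalize C.s h = g1
  generalize C.i t = c
  linear_combination (c * g1 * g2 - c * g1 * g3 - c * g2 * h - 2 * c * g3 * h - c * g3 ^ 2 - c * h ^ 2 - 2 
      * g1 * g2 * g3 - 2 * g1 * g2 * h - g1 * g2 ^ 2 - 2 * g1 * g3 * h - g1 * g3 ^ 2 - g1 * 
      h ^ 2 - g1 ^ 2 * g2 - g1 ^ 2 * g3 - g1 ^ 2 * h - 2 * g2 * g3 * h - g2 * g3 ^ 2 - g2 * 
      h ^ 2 - g2 ^ 2 * g3 - g2 ^ 2 * h - g3 * h ^ 2 - g3 ^ 2 * h) * h2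

lemma Th_pair (t : K) (g h : F) :
    C.χ (C.Th t h) * C.χ (C.Th t (h + g)) = C.χ (C.Th t g) *
      C.χ (h * h * ((C.s (C.s g) + C.s (C.s (C.s g))) +
        (C.s (C.s g) + C.s (C.s (C.s g))) * (C.s (C.s g) + C.s (C.s (C.s g))) *
        ((C.s (C.s g) + C.s (C.s (C.s g))) * (C.s (C.s g) + C.s (C.s (C.s g)))) +
        C.i (t * t) * ((C.s (C.s g) + C.s (C.s (C.s g))) * (C.s (C.s g) + C.s (C.s (C.s g)))))) := by
  have e1 : C.χ (h * h * ((C.s (C.s g) + C.s (C.s (C.s g))) +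
        (C.s (C.s g) + C.s (C.s (C.s g))) * (C.s (C.s g) + C.s (C.s (C.s g))) *
        ((C.s (C.s g) + C.s (C.s (C.s g))) * (C.s (C.s g) + C.s (C.s (C.s g)))) +
        C.i (t * t) * ((C.s (C.s g) + C.s (C.s (C.s g))) * (C.s (C.s g) + C.s (C.s (C.s g))))))
      = C.χ (h * h * (C.s (C.s g) + C.s (C.s (C.s g)))) *
        C.χ (h * ((C.s (C.s g) + C.s (C.s (C.s g))) * (C.s (C.s g) + C.s (C.s (C.s g))))) *
        C.χ (C.i t * (h * (C.s (C.s g) + C.s (C.s (C.s g))))) := by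
    rw [← C.χsq (h * ((C.s (C.s g) + C.s (C.s (C.s g))) * (C.s (C.s g) + C.s (C.s (C.s g))))),
      ← C.χsq (C.i t * (h * (C.s (C.s g) + C.s (C.s (C.s g))))), ← C.χadd, ← C.χadd, map_mul]
    congr 1
    ring
  rw [e1, ← C.χadd, ← C.χadd, ← C.χadd, ← C.χadd]
  apply C.χcongr
  rw [C.iT, C.iT]
  simp only [Th, map_add, map_mul, C.s5, C.si]
  have h2 := C.two
  generalize C.s (C.s (C.s (C.s h))) = h4
  generalize C.s (C.s (C.s h)) = h3
  generalize C.s (C.s h) = h2'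
  generalize C.s h = h1
  generalize C.s (C.s (C.s (C.s g))) = g4
  generalize C.s (C.s (C.s g)) = g3
  generalize C.s (C.s g) = g2
  generalize C.s g = g1
  generalize C.i t = c
  linear_combination (c * h * h2' + c * h * h3 + c * h1 * h3 + c * h1 * h4 + c * h2' * h4 - g * g1 * h3 + g 
      * g2 * h + g * g2 * h2' + g * g3 * h + g * g3 * h3 - g * g4 * h2' + g * h * h2' + g * 
      h * h3 - g1 * g2 * h4 + g1 * g3 * h1 + g1 * g3 * h3 + g1 * g4 * h1 + g1 * g4 * h4 + 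
      g1 * h1 * h3 + g1 * h1 * h4 - g2 * g3 * h + g2 * g4 * h2' + g2 * g4 * h4 + g2 * h * 
      h2' + g2 * h2' * h4 - g3 * g4 * h1 + g3 * h * h3 + g3 * h1 * h3 + g4 * h1 * h4 + g4 * 
      h2' * h4 + h * h2' ^ 2 + h * h3 ^ 2 + h ^ 2 * h2' + h ^ 2 * h3 + h1 * h3 ^ 2 + h1 * 
      h4 ^ 2 + h1 ^ 2 * h3 + h1 ^ 2 * h4 + h2' * h4 ^ 2 + h2' ^ 2 * h4) * h2

end Ctx

end MC
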