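import Pool.Agent.MC.PartD

/-!
Evaluation of `G t = ∑_{h : T h = 0} χ (Θ_t h)`.
-/

set_option autoImplicit false

open Finset

namespace MC

variable {F K : Type} [Field F] [Field K] [Fintype F] [Fintype K] (C : Ctx F K)

namespace Ctx

include C

lemma Th_zero (t : K) : C.Th t 0 = 0 := by
  simp [Th]

open Classical in
lemma G_sq (t : K) : C.G t * C.G t = C.Q ^ 4 := by
  -- pair sums
  have h1 : C.G t * C.G t = ∑ h : F, ∑ g : F, (if C.T h = 0 then C.χ (C.Th t h) else 0) *
      (if C.T g = 0 then C.χ (C.Th t (h + g)) else 0) := by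
    unfold G
    rw [Finset.sum_mul]
    refine Finset.sum_congr rfl fun h _ => ?_
    by_cases hh : C.T h = 0
    · rw [if_pos hh, Finset.mul_sum]
      rw [← Equiv.sum_comp (Equiv.addLeft h)
        (fun g => C.χ (C.Th t h) * (if C.T g = 0 then C.χ (C.Th t g) else 0))]
      refine Finset.sum_congr rfl fun g _ => ?_
      simp only [Equiv.coe_addLeft, C.Tadd, hh, zero_add]
    · rw [if_neg hh]
      simp
  rw [h1, Finset.sum_comm]
  have h2 : ∀ g : F, g ∈ Finset.univ → g ≠ 0 →
      ∑ h : F, (if C.T h = 0 then C.χ (C.Th t h) else 0) *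
      (if C.T g = 0 then C.χ (C.Th t (h + g)) else 0) = 0 := by
    intro g _ hg
    by_cases hT : C.T g = 0
    · simp only [if_pos hT]
      set v := C.s (C.s g) + C.s (C.s (C.s g)) with hv
      set c := v + v * v * (v * v) + C.i (t * t) * (v * v) with hc
      have e1 : ∀ h : F, (if C.T h = 0 then C.χ (C.Th t h) else 0) * C.χ (C.Th t (h + g))
          = C.χ (C.Th t g) * (if C.T h = 0 then C.χ (h * h * c) else 0) := by
        intro h
        split_ifs
        · rw [C.Th_pair]
        · simp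
      rw [Finset.sum_congr rfl fun h _ => e1 h, ← Finset.mul_sum, C.orthH, if_neg, mul_zero]
      intro hs
      have hTv : C.T v = 0 := by
        rw [hv, C.Tadd, C.Ts, C.Ts, C.Ts, C.Ts, C.Ts, C.addK]
      have hTc : C.T c = 0 := by
        rw [hc, C.Tadd, C.Tadd, C.Tsq, C.Tmul, C.Tsq, hTv]
        simp
      have hc0 : c = 0 := by
        have := C.fixT hs
        rw [hTc, map_zero] at this
        exact this.symm
      have hv0 : v = 0 := by
        by_contra hne
        have h3 : v * (1 + v * v * v + C.i (t * t) * v) = 0 := by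
          rw [hc] at hc0
          linear_combination hc0
        rcases mul_eq_zero.mp h3 with h | h
        · exact hne h
        · exact C.no_cubic (t * t) v hTv h
      have h4 : C.s (C.s g) = C.s (C.s (C.s g)) := C.eq_of_add _ _ hv0
      have h5 : g = C.s g := by
        have := congrArg (fun x => C.s (C.s (C.s x))) h4
        simpa only [C.s5] using this
      have h6 := C.fixT h5.symm
      rw [hT, map_zero] at h6
      exact hg h6.symm
    · simp only [if_neg hT]
      simp
  rw [Finset.sum_eq_single 0 h2 (fun h => absurd (Finset.mem_univ _) h)]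
  have h3 : ∀ h : F, (if C.T h = 0 then C.χ (C.Th t h) else 0) *
      (if C.T (0 : F) = 0 then C.χ (C.Th t (h + 0)) else 0) = if C.T h = 0 then (1 : ℤ) else 0 := by
    intro h
    rw [if_pos C.Tzero, add_zero]
    split_ifs
    · exact C.χmul _
    · simp
  rw [Finset.sum_congr rfl fun h _ => h3 h]
  exact C.count_T 0

lemma Th_s (t : K) (h : F) : C.Th t (C.s h) = C.s (C.Th t h) := by
  simp only [Th, map_add, map_mul, C.si]

open Classical in
lemma five_dvd (t : K) :
    5 ∣ Fintype.card {h : F // C.T h = 0 ∧ C.χ (C.Th t h) = -1} := by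
  by_contra hn
  haveI : Fact (Nat.Prime 5) := ⟨by norm_num⟩
  have hs : ∀ h : F, (C.T h = 0 ∧ C.χ (C.Th t h) = -1) →
      (C.T (C.s h) = 0 ∧ C.χ (C.Th t (C.s h)) = -1) := by
    intro h hh
    rw [C.Ts, C.Th_s, C.χs]
    exact hh
  let f : {h : F // C.T h = 0 ∧ C.χ (C.Th t h) = -1} → {h : F // C.T h = 0 ∧ C.χ (C.Th t h) = -1} :=
    fun h => ⟨C.s h.1, hs _ h.2⟩
  let σ : Equiv.Perm {h : F // C.T h = 0 ∧ C.χ (C.Th t h) = -1} :=
    { toFun := f
      invFun := fun h => f (f (f (f h)))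
      left_inv := by
        intro h
        apply Subtype.ext
        exact C.s5 h.1
      right_inv := by
        intro h
        apply Subtype.ext
        exact C.s5 h.1 }
  have hσ : σ ^ 5 ^ 1 = 1 := by
    ext h
    rw [pow_one]
    have : (σ ^ 5) h = σ (σ (σ (σ (σ h)))) := rfl
    rw [this]
    exact C.s5 h.1
  obtain ⟨a, ha⟩ := Equiv.Perm.exists_fixed_point_of_prime hn hσ
  have h1 : C.s a.1 = a.1 := congrArg Subtype.val ha
  have h2 := C.fixT h1
  rw [a.2.1, map_zero] at h2
  have h3 := a.2.2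
  rw [← h2, C.Th_zero, C.χzero] at h3
  norm_num at h3

/-- Values of `χ`. -/
lemma χval (x : F) : C.χ x = 1 ∨ C.χ x = -1 := by
  have h : (C.χ x - 1) * (C.χ x + 1) = 0 := by
    linear_combination C.χmul x
  rcases mul_eq_zero.mp h with h | h
  · left; linarith
  · right; linarith

open Classical in
lemma G_eq_count (t : K) : C.G t = C.Q ^ 4 -
    2 * (Fintype.card {h : F // C.T h = 0 ∧ C.χ (C.Th t h) = -1} : ℤ) := by
  have h1 : (Fintype.card {h : F // C.T h = 0 ∧ C.χ (C.Th t h) = -1} : ℤ)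
      = ∑ h : F, if C.T h = 0 ∧ C.χ (C.Th t h) = -1 then (1 : ℤ) else 0 := by
    rw [Fintype.card_subtype, Finset.card_filter]
    push_cast
    rfl
  rw [h1, ← C.count_T 0, Finset.mul_sum, ← Finset.sum_sub_distrib]
  unfold G
  refine Finset.sum_congr rfl fun h _ => ?_
  by_cases hh : C.T h = 0
  · rcases C.χval (C.Th t h) with h2 | h2
    · simp [hh, h2]
    · simp [hh, h2]
  · simp [hh]

lemma G_eq (hQ : C.Q ^ 2 % 5 = 4) (t : K) : C.G t = - C.Q ^ 2 := by
  have h1 := C.G_sq t
  have h2 := C.G_eq_count t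
  obtain ⟨m, hm⟩ := C.five_dvd t
  rw [hm] at h2
  push_cast at h2
  have h3 : (C.G t - C.Q ^ 2) * (C.G t + C.Q ^ 2) = 0 := by linear_combination h1
  rcases mul_eq_zero.mp h3 with h | h
  · exfalso
    have h4 : C.G t = C.Q ^ 2 := by linarith
    rw [h4] at h2
    have h5 : C.Q ^ 4 % 5 = 1 := by
      have : C.Q ^ 4 = C.Q ^ 2 * C.Q ^ 2 := by ring
      rw [this, Int.mul_emod, hQ]
      norm_num
    omega
  · linarith

theorem sum_eval (hQ : C.Q ^ 2 % 5 = 4) (a b : K) :
    ∑ y : F, C.χ (C.kap y + C.i b * (y * C.s (C.s y)) + C.i a * y)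
      = - C.Q ^ 2 * ∑ t : K, C.χ (C.i (t * t * t + b * (t * t) + a * t)) := by
  classical
  rw [C.sum_split, Finset.mul_sum]
  refine Finset.sum_congr rfl fun t _ => ?_
  have h1 : ∀ h : F, (if C.T h = 0 then C.χ (C.kap (h + C.i t) + C.i b * ((h + C.i t) *
      C.s (C.s (h + C.i t))) + C.i a * (h + C.i t)) else 0)
      = C.χ (C.i (t * t * t + b * (t * t) + a * t)) *
        (if C.T h = 0 then C.χ (C.Th (t + b) h) else 0) := by
    intro h
    split_ifs with hh
    · rw [C.split_term a b t hh]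
    · simp
  rw [Finset.sum_congr rfl fun h _ => h1 h, ← Finset.mul_sum]
  change _ * C.G (t + b) = _
  rw [C.G_eq hQ]
  ring

lemma cubic_zero (a b : K) (h : C.χ (C.i (a + b)) = 1) :
    ∑ t : K, C.χ (C.i (t * t * t + b * (t * t) + a * t)) = 0 := by
  have h2 : ∑ t : K, C.χ (C.i (t * t * t + b * (t * t) + a * t))
      = ∑ t : K, C.χ (C.i ((t + 1) * (t + 1) * (t + 1) + b * ((t + 1) * (t + 1)) + a * (t + 1))) :=
    (Equiv.sum_comp (Equiv.addRight (1 : K))
      (fun t => C.χ (C.i (t * t * t + b * (t * t) + a * t)))).symm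
  have h3 : ∑ t : K, C.χ (C.i ((t + 1) * (t + 1) * (t + 1) + b * ((t + 1) * (t + 1)) + a * (t + 1)))
      = - ∑ t : K, C.χ (C.i (t * t * t + b * (t * t) + a * t)) := by
    rw [← Finset.sum_neg_distrib]
    refine Finset.sum_congr rfl fun t _ => ?_
    have e1 : (t + 1) * (t + 1) * (t + 1) + b * ((t + 1) * (t + 1)) + a * (t + 1)
        = (t * t * t + b * (t * t) + a * t) + (t * t) + t + 1 + (a + b) := by
      have := C.twoK
      linear_combination (t * t + t + b * t) * this
    rw [e1, map_add, map_add, map_add, map_add, C.χadd, C.χadd, C.χadd, C.χadd, h, map_one,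
      C.χone, map_mul C.i t t, C.χsq]
    linear_combination (-C.χ (C.i (t * t * t + b * (t * t) + a * t))) * C.χmul (C.i t)
  linarith [h2.trans h3]

/-- If the small field has more than two elements, it has a nonzero element `c` with
`χ c = 1`. -/
lemma exists_c (hQ : 4 ≤ C.Q) : ∃ c : K, c ≠ 0 ∧ C.χ (C.i c) = 1 := by
  classical
  by_contra hcon
  push Not at hcon
  have h1 : ∑ t : K, C.χ (C.i (t * 1)) = 0 := C.orthK 1 one_ne_zero
  have h2 : ∀ t : K, C.χ (C.i (t * 1)) = (if t = 0 then 2 else 0) - 1 := by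
    intro t
    rw [mul_one]
    split_ifs with h
    · rw [h, map_zero, C.χzero]; norm_num
    · rcases C.χval (C.i t) with h3 | h3
      · exact absurd h3 (hcon t h)
      · rw [h3]; norm_num
  rw [Finset.sum_congr rfl fun t _ => h2 t, Finset.sum_sub_distrib, Finset.sum_ite_eq'] at h1
  simp only [Finset.mem_univ, if_true, Finset.sum_const, Finset.card_univ, nsmul_eq_mul,
    mul_one] at h1
  change 2 - C.Q = 0 at h1
  linarith

theorem exists_zero_a (hQ : C.Q ^ 2 % 5 = 4) (hQ4 : 4 ≤ C.Q) :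
    ∃ a : K, a ≠ 0 ∧ ∑ y : F, C.χ (C.kap y + C.i a * y) = 0 := by
  obtain ⟨c, hc, hχ⟩ := C.exists_c hQ4
  refine ⟨c, hc, ?_⟩
  have h := C.sum_eval hQ c 0
  rw [C.cubic_zero c 0 (by rw [add_zero]; exact hχ), mul_zero] at h
  simpa using h

theorem exists_zero_b (hQ : C.Q ^ 2 % 5 = 4) (hQ4 : 4 ≤ C.Q) :
    ∃ b : K, b ≠ 0 ∧ ∑ y : F, C.χ (C.kap y + C.i b * (y * C.s (C.s y))) = 0 := by
  obtain ⟨c, hc, hχ⟩ := C.exists_c hQ4
  refine ⟨c, hc, ?_⟩
  have h := C.sum_eval hQ 0 c
  rw [C.cubic_zero 0 c (by rw [zero_add]; exact hχ), mul_zero] at h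
  simpa using h

end Ctx

end MC
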