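import Mathlib

/-!
Abstract setting for exponential sums over a cubic extension `F / K` of finite fields of
characteristic two.
-/

set_option autoImplicit false

open Finset

namespace MC

/-- The data and the facts used. -/
structure Tri (F K : Type) [Field F] [Field K] [Fintype F] [Fintype K] where
  k : ℕ
  i : K →+* F
  s : F →+* F
  T : F → K
  χ : F → ℤ
  η : F
  two : (2 : F) = 0
  s3 : ∀ x, s (s (s x)) = x
  si : ∀ t, s (i t) = i t
  fix : ∀ x, s x = x → ∃ t, i t = x
  iT : ∀ x, i (T x) = x + s x + s (s x)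
  χadd : ∀ x y, χ (x + y) = χ x * χ y
  χs : ∀ x, χ (s x) = χ x
  χsq : ∀ x, χ (x ^ 2) = χ x
  χone : χ 1 = (-1) ^ k
  χzero : χ 0 = 1
  orth : ∀ c : F, c ≠ 0 → ∑ x : F, χ (x * c) = 0
  cardK : Fintype.card K = 2 ^ k
  card : Fintype.card F = Fintype.card K ^ 3
  hη : η ^ 3 = η + 1
  sη : s η = η ∨ s η = η ^ 2

variable {F K : Type} [Field F] [Field K] [Fintype F] [Fintype K] (C : Tri F K)

namespace Tri

include C

lemma add_self (x : F) : x + x = 0 := by
  have : x + x = 2 * x := by ring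
  rw [this, C.two, zero_mul]

lemma eq_of_add {x y : F} (h : x + y = 0) : x = y := by
  calc x = x + (y + y) := by rw [C.add_self, add_zero]
    _ = (x + y) + y := by ring
    _ = y := by rw [h, zero_add]

lemma add_eq_zero {x y : F} (h : x = y) : x + y = 0 := by rw [h, C.add_self]

lemma χmul (x : F) : C.χ x * C.χ x = 1 := by
  rw [← C.χadd, C.add_self, C.χzero]

lemma χpm (x : F) : C.χ x = 1 ∨ C.χ x = -1 := by
  have h := C.χmul x
  have h2 : (C.χ x - 1) * (C.χ x + 1) = 0 := by linarith [h, (by ring : (C.χ x - 1) * (C.χ x + 1) = C.χ x * C.χ x - 1)]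
  rcases mul_eq_zero.mp h2 with h3 | h3
  · left; linarith
  · right; linarith

lemma inj : Function.Injective C.i := C.i.injective

lemma twoK : (2 : K) = 0 := by
  apply C.inj
  rw [map_zero, map_ofNat, C.two]

lemma addK (x : K) : x + x = 0 := by
  have : x + x = 2 * x := by ring
  rw [this, C.twoK, zero_mul]

lemma eq_of_addK {x y : K} (h : x + y = 0) : x = y := by
  calc x = x + (y + y) := by rw [C.addK, add_zero]
    _ = (x + y) + y := by ring
    _ = y := by rw [h, zero_add]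

lemma χT (x : F) : C.χ (C.i (C.T x)) = C.χ x := by
  rw [C.iT, C.χadd, C.χadd, C.χs, C.χs, mul_assoc, C.χs, C.χmul, mul_one]

lemma Tadd (x y : F) : C.T (x + y) = C.T x + C.T y := by
  apply C.inj
  rw [map_add, C.iT, C.iT, C.iT]
  simp only [map_add]
  ring

lemma Ti (t : K) : C.T (C.i t) = t := by
  apply C.inj
  rw [C.iT, C.si, C.si]
  linear_combination (C.i t) * C.two

lemma Tmul (t : K) (x : F) : C.T (C.i t * x) = t * C.T x := by
  apply C.inj
  rw [map_mul, C.iT, C.iT]
  simp only [map_mul, C.si]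
  ring

lemma Ts (x : F) : C.T (C.s x) = C.T x := by
  apply C.inj
  rw [C.iT, C.iT, C.s3]
  ring

lemma Tzero : C.T 0 = 0 := by
  have := C.Ti 0
  rwa [map_zero] at this

lemma Tsq (x : F) : C.T (x ^ 2) = C.T x ^ 2 := by
  apply C.inj
  rw [map_pow, C.iT, C.iT]
  simp only [map_pow]
  linear_combination (-(x * C.s x + x * C.s (C.s x) + C.s x * C.s (C.s x))) * C.two

/-- The order of `K`, as an integer. -/
def Q (_ : Tri F K) : ℤ := Fintype.card K

lemma Q_eq : C.Q = 2 ^ C.k := by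
  unfold Q
  rw [C.cardK]
  push_cast
  rfl

lemma Qpos : 0 < C.Q := by
  rw [C.Q_eq]
  positivity

open Classical in
/-- The elements of trace zero. -/
noncomputable def H : Finset F := Finset.univ.filter (fun x => C.T x = 0)

lemma mem_H {x : F} : x ∈ C.H ↔ C.T x = 0 := by
  unfold H
  simp

lemma H_add {x y : F} (hx : x ∈ C.H) (hy : y ∈ C.H) : x + y ∈ C.H := by
  rw [C.mem_H] at *
  rw [C.Tadd, hx, hy, add_zero]

lemma H_s {x : F} (hx : x ∈ C.H) : C.s x ∈ C.H := by
  rw [C.mem_H] at *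
  rw [C.Ts, hx]

lemma H_sq {x : F} (hx : x ∈ C.H) : x ^ 2 ∈ C.H := by
  rw [C.mem_H] at *
  rw [C.Tsq, hx]
  ring

lemma H_zero : (0 : F) ∈ C.H := by
  rw [C.mem_H, C.Tzero]

lemma H_imul {x : F} (t : K) (hx : x ∈ C.H) : C.i t * x ∈ C.H := by
  rw [C.mem_H] at *
  rw [C.Tmul, hx, mul_zero]

/-- For elements of trace zero the third conjugate is the sum of the others. -/
lemma ss_eq {x : F} (hx : x ∈ C.H) : C.s (C.s x) = x + C.s x := by
  rw [C.mem_H] at hx
  have h := C.iT x
  rw [hx, map_zero] at h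
  linear_combination -h - (x + C.s x) * C.two

/-- An element of trace zero fixed by `s` is zero. -/
lemma fixed_zero {x : F} (hx : x ∈ C.H) (h : C.s x = x) : x = 0 := by
  obtain ⟨t, rfl⟩ := C.fix x h
  rw [C.mem_H, C.Ti] at hx
  rw [hx, map_zero]

/-- Sums over `F` as double sums over `K` and `H`. -/
lemma sum_split (f : F → ℤ) : ∑ x : F, f x = ∑ t : K, ∑ h ∈ C.H, f (C.i t + h) := by
  classical
  rw [← Finset.sum_fiberwise (s := Finset.univ) (g := C.T) (f := f)]
  refine Finset.sum_congr rfl fun t _ => ?_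
  symm
  refine Finset.sum_bij (fun h _ => C.i t + h) ?_ ?_ ?_ ?_
  · intro h hh
    rw [C.mem_H] at hh
    simp [C.Tadd, C.Ti, hh]
  · intro a _ b _ hab
    exact add_left_cancel hab
  · intro b hb
    have hb2 : C.T b = t := (Finset.mem_filter.mp hb).2
    refine ⟨C.i t + b, ?_, ?_⟩
    · rw [C.mem_H, C.Tadd, C.Ti, hb2, C.addK]
    · rw [← add_assoc, C.add_self, zero_add]
  · intro h _
    rfl

lemma card_H : (C.H.card : ℤ) = C.Q ^ 2 := by
  have h1 := C.sum_split (fun _ => 1)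
  simp only [Finset.sum_const, Finset.card_univ, nsmul_eq_mul, mul_one] at h1
  rw [C.card] at h1
  push_cast at h1
  have h2 : C.Q ^ 3 = C.Q * (C.H.card : ℤ) := h1
  have h3 := C.Qpos
  have h4 : C.Q * (C.Q ^ 2) = C.Q * (C.H.card : ℤ) := by rw [← h2]; ring
  exact (mul_left_cancel₀ h3.ne' h4).symm

/-- Orthogonality on `K`. -/
lemma orthK {c : K} (hc : c ≠ 0) : ∑ t : K, C.χ (C.i (t * c)) = 0 := by
  have h1 : ∑ x : F, C.χ (x * C.i c) = 0 :=
    C.orth _ (fun h => hc (C.inj (by rw [h, map_zero])))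
  rw [C.sum_split] at h1
  have h2 : ∀ t : K, ∀ h ∈ C.H, C.χ ((C.i t + h) * C.i c) = C.χ (C.i (t * c)) := by
    intro t h hh
    rw [C.mem_H] at hh
    rw [← C.χT, mul_comm, C.Tmul, C.Tadd, C.Ti, hh, add_zero, mul_comm]
  rw [Finset.sum_congr rfl fun t _ => Finset.sum_congr rfl (h2 t)] at h1
  simp only [Finset.sum_const, nsmul_eq_mul] at h1
  rw [← Finset.mul_sum] at h1
  rcases mul_eq_zero.mp h1 with h3 | h3
  · exfalso
    rw [C.card_H] at h3
    exact pow_ne_zero 2 C.Qpos.ne' h3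
  · exact h3

/-- Orthogonality on `H`. -/
lemma orthH {y : F} (hy : y ∈ C.H) (hy0 : y ≠ 0) : ∑ h ∈ C.H, C.χ (h * y) = 0 := by
  have h1 := C.orth y hy0
  rw [C.sum_split] at h1
  have h2 : ∀ t : K, ∀ h ∈ C.H, C.χ ((C.i t + h) * y) = C.χ (h * y) := by
    intro t h _
    rw [C.mem_H] at hy
    rw [add_mul, C.χadd, ← C.χT (C.i t * y), C.Tmul, hy, mul_zero, map_zero, C.χzero, one_mul]
  rw [Finset.sum_congr rfl fun t _ => Finset.sum_congr rfl (h2 t)] at h1
  simp only [Finset.sum_const, nsmul_eq_mul, Finset.card_univ] at h1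
  rcases mul_eq_zero.mp h1 with h3 | h3
  · exfalso
    exact C.Qpos.ne' h3
  · exact h3

lemma sq_inj {x y : F} (h : x ^ 2 = y ^ 2) : x = y := by
  apply C.eq_of_add
  have h1 : (x + y) ^ 2 = 0 := by
    linear_combination h + (x * y + y ^ 2) * C.two
  exact pow_eq_zero_iff (by norm_num) |>.mp h1

/-- Squaring permutes `H`. -/
lemma sum_H_sq (f : F → ℤ) : ∑ h ∈ C.H, f (h ^ 2) = ∑ h ∈ C.H, f h := by
  classical
  have h1 : C.H.image (fun h => h ^ 2) = C.H := by
    apply Finset.eq_of_subset_of_card_le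
    · intro y hy
      obtain ⟨x, hx, rfl⟩ := Finset.mem_image.mp hy
      exact C.H_sq hx
    · rw [Finset.card_image_of_injective _ (fun x y h => C.sq_inj h)]
  conv_rhs => rw [← h1]
  rw [Finset.sum_image (fun x _ y _ h => C.sq_inj h)]

end Tri

end MC
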