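import Pool.Agent.MC.Tri

/-!
The sums of the cubic forms on the elements of trace zero.
-/

set_option autoImplicit false

open Finset

namespace MC

variable {F K : Type} [Field F] [Field K] [Fintype F] [Fintype K] (C : Tri F K)

namespace Tri

/-- The quadratic form. -/
def q (h : F) : K := C.T (h * C.s h)

/-- The cubic form. -/
def N (h : F) : K := C.T (h ^ 3)

/-- The twisted cubic form. -/
def r (h : F) : K := C.T (h ^ 2 * C.s (C.s h))

include C

lemma iq {h : F} (hh : h ∈ C.H) : C.i (C.q h) = h ^ 2 + h * C.s h + (C.s h) ^ 2 := by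
  unfold q
  rw [C.iT]
  simp only [map_mul, C.s3]
  rw [C.ss_eq hh]
  linear_combination (h * C.s h) * C.two

lemma iN {h : F} (hh : h ∈ C.H) : C.i (C.N h) = h ^ 2 * C.s h + h * (C.s h) ^ 2 := by
  unfold N
  rw [C.iT]
  simp only [map_pow]
  rw [C.ss_eq hh]
  linear_combination (h ^ 3 + (C.s h) ^ 3 + h ^ 2 * C.s h + h * (C.s h) ^ 2) * C.two

lemma ir {h : F} (hh : h ∈ C.H) : C.i (C.r h) = h ^ 3 + h * (C.s h) ^ 2 + (C.s h) ^ 3 := by
  unfold r
  rw [C.iT]
  simp only [map_mul, map_pow, C.s3]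
  rw [C.ss_eq hh]
  linear_combination (h ^ 2 * C.s h + h * (C.s h) ^ 2) * C.two

lemma cubic {x : F} (hx : x ∈ C.H) : x ^ 3 + C.i (C.q x) * x + C.i (C.N x) = 0 := by
  rw [C.iq hx, C.iN hx]
  linear_combination (x ^ 3 + x ^ 2 * C.s x + x * (C.s x) ^ 2) * C.two

lemma q_s (x : F) : C.q (C.s x) = C.q x := by
  unfold q
  rw [← map_mul, C.Ts]

lemma N_s (x : F) : C.N (C.s x) = C.N x := by
  unfold N
  rw [← map_pow, C.Ts]

lemma s_zero {x : F} (h : C.s x = 0) : x = 0 := by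
  apply C.s.injective
  rw [h, map_zero]

lemma N_ne {x : F} (hx : x ∈ C.H) (h : C.N x = 0) : x = 0 := by
  have h1 : x * C.s x * C.s (C.s x) = 0 := by
    rw [C.ss_eq hx]
    have h2 := C.iN hx
    rw [h, map_zero] at h2
    linear_combination -h2
  rcases mul_eq_zero.mp h1 with h2 | h2
  · rcases mul_eq_zero.mp h2 with h3 | h3
    · exact h3
    · exact C.s_zero h3
  · exact C.s_zero (C.s_zero h2)

lemma q_zero : C.q 0 = 0 := by
  unfold q
  rw [zero_mul, C.Tzero]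

lemma N_zero : C.N 0 = 0 := by
  unfold N
  rw [zero_pow (by norm_num), C.Tzero]

end Tri

namespace Tri

/-- The phase. -/
def ph (A t : K) (h : F) : ℤ := C.χ (C.i (A * C.q h + t * C.N h))

/-- The sum over the elements of trace zero. -/
noncomputable def G (A t : K) : ℤ := ∑ h ∈ C.H, C.ph A t h

/-- The linearized polynomial of the polar form. -/
def L (A t : K) (g : F) : F := (C.i A) ^ 2 * g ^ 2 + C.i t * g + (C.i t) ^ 2 * g ^ 4

include C

lemma ph_add (A t : K) {h g : F} (hh : h ∈ C.H) (hg : g ∈ C.H) :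
    C.ph A t (h + g) = C.ph A t h * C.ph A t g * C.χ (h ^ 2 * C.L A t g) := by
  have e1 : A * C.q (h + g) + t * C.N (h + g) =
      (A * C.q h + t * C.N h) + (A * C.q g + t * C.N g)
      + C.T (C.i A * (h * C.s g) + C.i A * (g * C.s h) + C.i t * (h ^ 2 * g)
        + C.i t * (h * g ^ 2)) := by
    unfold q N
    rw [map_add, show (h + g) * (C.s h + C.s g)
      = h * C.s h + g * C.s g + h * C.s g + g * C.s h by ring,
      show (h + g) ^ 3 = h ^ 3 + g ^ 3 + h ^ 2 * g + h * g ^ 2 by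
        linear_combination (h ^ 2 * g + h * g ^ 2) * C.two]
    simp only [C.Tadd, C.Tmul]
    ring
  have a1 : C.χ (C.i A * (h * C.s g)) = C.χ (h ^ 2 * ((C.i A) ^ 2 * (C.s g) ^ 2)) := by
    rw [← C.χsq (C.i A * (h * C.s g))]
    congr 1
    ring
  have a2 : C.χ (C.i A * (g * C.s h)) = C.χ (h ^ 2 * ((C.i A) ^ 2 * (g + C.s g) ^ 2)) := by
    rw [← C.χs (C.i A * (g * C.s h)), ← C.χs (C.s (C.i A * (g * C.s h)))]
    simp only [map_mul, C.si, C.s3]
    rw [C.ss_eq hg, ← C.χsq]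
    congr 1
    ring
  have a4 : C.χ (C.i t * (h * g ^ 2)) = C.χ (h ^ 2 * ((C.i t) ^ 2 * g ^ 4)) := by
    rw [← C.χsq (C.i t * (h * g ^ 2))]
    congr 1
    ring
  unfold ph
  rw [e1, map_add, map_add, C.χadd, C.χadd, C.χT]
  congr 1
  rw [C.χadd, C.χadd, C.χadd, a1, a2, a4, ← C.χadd, ← C.χadd, ← C.χadd]
  congr 1
  unfold L
  linear_combination (h ^ 2 * (C.i A) ^ 2 * (g * C.s g + (C.s g) ^ 2)) * C.two

lemma ph_sq (A t : K) (h : F) : C.ph A t h * C.ph A t h = 1 := C.χmul _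

lemma ph_s (A t : K) (x : F) : C.ph A t (C.s x) = C.ph A t x := by
  unfold ph
  rw [C.q_s, C.N_s]

lemma ph_zero (A t : K) : C.ph A t 0 = 1 := by
  unfold ph
  rw [C.q_zero, C.N_zero, mul_zero, mul_zero, add_zero, map_zero, C.χzero]

lemma L_H (A t : K) {g : F} (hg : g ∈ C.H) : C.L A t g ∈ C.H := by
  have e : C.L A t g = C.i (A ^ 2) * g ^ 2 + C.i t * g + C.i (t ^ 2) * (g ^ 2) ^ 2 := by
    unfold L
    rw [map_pow, map_pow]
    ring
  rw [e]
  exact C.H_add (C.H_add (C.H_imul _ (C.H_sq hg)) (C.H_imul _ hg))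
    (C.H_imul _ (C.H_sq (C.H_sq hg)))

lemma ph_V {A t : K} {g : F} (hg : g ∈ C.H) (h : C.L A t g = 0) : C.ph A t g = 1 := by
  have h1 := C.ph_add A t (C.H_s hg) hg
  rw [h, mul_zero, C.χzero, mul_one, C.ph_s, C.ph_sq, add_comm, ← C.ss_eq hg, C.ph_s, C.ph_s] at h1
  exact h1

lemma sum_shift {h : F} (hh : h ∈ C.H) (f : F → ℤ) :
    ∑ g ∈ C.H, f (h + g) = ∑ g ∈ C.H, f g := by
  refine Finset.sum_bij (fun g _ => h + g) (fun g hg => C.H_add hh hg)
    (fun a _ b _ hab => add_left_cancel hab)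
    (fun b hb => ⟨h + b, C.H_add hh hb, ?_⟩) (fun _ _ => rfl)
  rw [← add_assoc, C.add_self, zero_add]

open Classical in
lemma G_sq (A t : K) :
    C.G A t ^ 2 = C.Q ^ 2 * ((C.H.filter (fun g => C.L A t g = 0)).card : ℤ) := by
  have h1 : C.G A t ^ 2 = ∑ g ∈ C.H, ∑ h ∈ C.H, C.ph A t g * C.χ (h ^ 2 * C.L A t g) := by
    rw [Finset.sum_comm, sq]
    unfold G
    rw [Finset.sum_mul]
    refine Finset.sum_congr rfl fun h hh => ?_
    rw [← C.sum_shift hh, Finset.mul_sum]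
    refine Finset.sum_congr rfl fun g hg => ?_
    rw [C.ph_add A t hh hg]
    linear_combination (C.ph A t g * C.χ (h ^ 2 * C.L A t g)) * C.ph_sq A t h
  have h2 : ∀ g ∈ C.H, ∑ h ∈ C.H, C.ph A t g * C.χ (h ^ 2 * C.L A t g)
      = if C.L A t g = 0 then C.Q ^ 2 else 0 := by
    intro g hg
    rw [← Finset.mul_sum, C.sum_H_sq (fun h => C.χ (h * C.L A t g))]
    split_ifs with h
    · rw [C.ph_V hg h, one_mul, h]
      simp only [mul_zero, C.χzero, Finset.sum_const, nsmul_eq_mul, mul_one]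
      exact C.card_H
    · rw [C.orthH (C.L_H A t hg) h, mul_zero]
  rw [h1, Finset.sum_congr rfl h2, ← Finset.sum_filter, Finset.sum_const, nsmul_eq_mul, mul_comm]

end Tri

end MC
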