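import Pool.Agent.MC.Tri2

/-!
The values of the sums over the elements of trace zero.
-/

set_option autoImplicit false

open Finset

namespace MC

variable {F K : Type} [Field F] [Field K] [Fintype F] [Fintype K] (C : Tri F K)

namespace Tri

open Classical in
/-- The elements with given values of the quadratic and the cubic form. -/
noncomputable def R (A t : K) : Finset F := C.H.filter (fun x => C.q x = A ∧ C.N x = t)

include C

lemma mem_R {A t : K} {x : F} : x ∈ C.R A t ↔ x ∈ C.H ∧ C.q x = A ∧ C.N x = t := by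
  classical
  simp only [R, Finset.mem_filter]

/-- An element of `H` which is a root of the cubic has the right values. -/
lemma mem_R_of_cubic {A t : K} {x : F} (hx : x ∈ C.H) (hx0 : x ≠ 0)
    (h : x ^ 3 + C.i A * x + C.i t = 0) : x ∈ C.R A t := by
  have h1 := C.cubic hx
  have h2 : C.i (A + C.q x) * x = C.i (t + C.N x) := by
    rw [map_add, map_add]
    linear_combination h + h1 - (x ^ 3 + C.i t + C.i (C.N x)) * C.two
  have h3 : A + C.q x = 0 := by
    by_contra h4
    have h5 : C.s x = x := by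
      have h6 := congrArg C.s h2
      rw [map_mul, C.si, C.si, ← h2] at h6
      exact mul_left_cancel₀ (fun h7 => h4 (C.inj (by rw [h7, map_zero]))) h6
    exact hx0 (C.fixed_zero hx h5)
  rw [h3, map_zero, zero_mul] at h2
  have h4 : t + C.N x = 0 := C.inj (by rw [← h2, map_zero])
  rw [C.mem_R]
  exact ⟨hx, (C.eq_of_addK h3).symm, (C.eq_of_addK h4).symm⟩

/-- Every element of `F` is a square, and the root of an element of `H` is in `H`. -/
lemma exists_sqrt {y : F} (hy : y ∈ C.H) : ∃ x ∈ C.H, x ^ 2 = y := by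
  have h1 : Function.Injective (fun x : F => x ^ 2) := fun x y h => C.sq_inj h
  obtain ⟨x, hx⟩ := (Finite.injective_iff_surjective.mp h1) y
  have hx' : x ^ 2 = y := hx
  refine ⟨x, ?_, hx'⟩
  rw [C.mem_H] at hy ⊢
  rw [← hx', C.Tsq] at hy
  exact pow_eq_zero_iff (by norm_num) |>.mp hy

open Classical in
lemma card_V {A t : K} (h0 : A ≠ 0 ∨ t ≠ 0) :
    (C.H.filter (fun g => C.L A t g = 0)).card = 1 + (C.R A t).card := by
  by_cases ht : t = 0
  · subst ht
    have hA : A ≠ 0 := by
      rcases h0 with h | h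
      · exact h
      · exact absurd rfl h
    have hR : C.R A 0 = ∅ := by
      rw [Finset.eq_empty_iff_forall_notMem]
      intro x hx
      rw [C.mem_R] at hx
      have h1 := C.N_ne hx.1 hx.2.2
      rw [h1, C.q_zero] at hx
      exact hA hx.2.1.symm
    have hV : C.H.filter (fun g => C.L A 0 g = 0) = {0} := by
      ext g
      rw [Finset.mem_filter, Finset.mem_singleton]
      constructor
      · rintro ⟨hg, h⟩
        unfold L at h
        rw [map_zero] at h
        have h1 : (C.i A * g) ^ 2 = 0 := by linear_combination h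
        have h2 := pow_eq_zero_iff (by norm_num) |>.mp h1
        rcases mul_eq_zero.mp h2 with h3 | h3
        · exact absurd (C.inj (by rw [h3, map_zero])) hA
        · exact h3
      · rintro rfl
        refine ⟨C.H_zero, ?_⟩
        unfold L
        ring
    rw [hR, hV]
    simp
  · have hit : C.i t ≠ 0 := fun h => ht (C.inj (by rw [h, map_zero]))
    have h0V : (0 : F) ∈ C.H.filter (fun g => C.L A t g = 0) := by
      rw [Finset.mem_filter]
      refine ⟨C.H_zero, ?_⟩
      unfold L
      ring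
    rw [← Finset.card_erase_add_one h0V, add_comm]
    congr 1
    symm
    have hne : ∀ x ∈ C.R A t, x ≠ 0 := by
      rintro x hx rfl
      rw [C.mem_R, C.N_zero] at hx
      exact ht hx.2.2.symm
    refine Finset.card_bij (fun x _ => C.i t⁻¹ * x ^ 2) ?_ ?_ ?_
    · intro x hx
      have hx0 := hne x hx
      rw [C.mem_R] at hx
      rw [Finset.mem_erase, Finset.mem_filter, map_inv₀]
      refine ⟨mul_ne_zero (inv_ne_zero hit) (pow_ne_zero 2 hx0), ?_, ?_⟩
      · rw [← map_inv₀]
        exact C.H_imul _ (C.H_sq hx.1)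
      · unfold L
        have h1 := C.cubic hx.1
        rw [hx.2.1, hx.2.2] at h1
        have h2 : (C.i A) ^ 2 * ((C.i t)⁻¹ * x ^ 2) ^ 2 + C.i t * ((C.i t)⁻¹ * x ^ 2)
            + (C.i t) ^ 2 * ((C.i t)⁻¹ * x ^ 2) ^ 4
            = (C.i t)⁻¹ ^ 2 * x ^ 2 * ((C.i A) ^ 2 * x ^ 2 + (C.i t) ^ 2 + x ^ 6) := by
          field_simp
          try ring
        rw [h2]
        have h3 : (C.i A) ^ 2 * x ^ 2 + (C.i t) ^ 2 + x ^ 6 = 0 := by
          linear_combination (x ^ 3 + C.i A * x + C.i t) * h1
            - (x ^ 4 * C.i A + x ^ 3 * C.i t + C.i A * x * C.i t) * C.two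
        rw [h3, mul_zero]
    · intro x hx y hy hxy
      apply C.sq_inj
      have h1 : C.i t⁻¹ ≠ 0 := by
        rw [map_inv₀]
        exact inv_ne_zero hit
      exact mul_left_cancel₀ h1 hxy
    · intro g hg
      rw [Finset.mem_erase, Finset.mem_filter] at hg
      obtain ⟨hg0, hgH, hL⟩ := hg
      obtain ⟨x, hxH, hx⟩ := C.exists_sqrt (C.H_imul t hgH)
      have hg2 : g = C.i t⁻¹ * x ^ 2 := by
        rw [hx, map_inv₀, inv_mul_cancel_left₀ hit]
      refine ⟨x, ?_, hg2.symm⟩
      have hx0 : x ≠ 0 := by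
        rintro rfl
        apply hg0
        rw [hg2]
        ring
      apply C.mem_R_of_cubic hxH hx0
      have h1 : g * (x ^ 3 + C.i A * x + C.i t) ^ 2 = 0 := by
        have h2 : g * (x ^ 3 + C.i A * x + C.i t) ^ 2
            = C.i t * C.L A t g + g * (x ^ 2 - C.i t * g) * (x ^ 4 + x ^ 2 * (C.i t * g) + (C.i t * g) ^ 2
              + (C.i A) ^ 2) + g * (x ^ 4 * C.i A + x ^ 3 * C.i t + C.i A * x * C.i t) * 2 := by
          unfold L
          ring
        rw [h2, hL, hx, C.two]
        ring
      rcases mul_eq_zero.mp h1 with h2 | h2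
      · exact absurd h2 hg0
      · exact pow_eq_zero_iff (by norm_num) |>.mp h2

/-- There are no or three such elements. -/
lemma card_R {A t : K} (h0 : A ≠ 0 ∨ t ≠ 0) : (C.R A t).card = 0 ∨ (C.R A t).card = 3 := by
  classical
  by_cases hR : C.R A t = ∅
  · left
    rw [hR, Finset.card_empty]
  · right
    obtain ⟨x, hx⟩ := Finset.nonempty_iff_ne_empty.mpr hR
    have hx' := C.mem_R.mp hx
    have hx0 : x ≠ 0 := by
      rintro rfl
      rw [C.q_zero, C.N_zero] at hx'
      rcases h0 with h | h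
      · exact h hx'.2.1.symm
      · exact h hx'.2.2.symm
    have h1 : C.s x ≠ x := fun h => hx0 (C.fixed_zero hx'.1 h)
    have h2 : C.s (C.s x) ≠ C.s x := fun h => h1 (C.s.injective h)
    have h3 : C.s (C.s x) ≠ x := by
      intro h
      apply h1
      have h4 := C.s3 x
      rw [h] at h4
      exact h4
    have hset : C.R A t = {x, C.s x, C.s (C.s x)} := by
      ext y
      rw [Finset.mem_insert, Finset.mem_insert, Finset.mem_singleton]
      constructor
      · intro hy
        have hy' := C.mem_R.mp hy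
        have h5 := C.cubic hy'.1
        rw [hy'.2.1, hy'.2.2, ← hx'.2.1, ← hx'.2.2, C.iq hx'.1, C.iN hx'.1] at h5
        have h6 : (y + x) * ((y + C.s x) * (y + C.s (C.s x))) = 0 := by
          rw [C.ss_eq hx'.1]
          linear_combination h5 + (x * C.s x * y + x * y ^ 2 + C.s x * y ^ 2) * C.two
        rcases mul_eq_zero.mp h6 with h7 | h7
        · left
          exact C.eq_of_add h7
        · rcases mul_eq_zero.mp h7 with h8 | h8
          · right; left
            exact C.eq_of_add h8
          · right; right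
            exact C.eq_of_add h8
      · have hs : ∀ z, z ∈ C.R A t → C.s z ∈ C.R A t := by
          intro z hz
          rw [C.mem_R] at hz ⊢
          exact ⟨C.H_s hz.1, by rw [C.q_s]; exact hz.2.1, by rw [C.N_s]; exact hz.2.2⟩
        rintro (rfl | rfl | rfl)
        · exact hx
        · exact hs _ hx
        · exact hs _ (hs _ hx)
    rw [hset]
    rw [Finset.card_insert_of_notMem, Finset.card_insert_of_notMem, Finset.card_singleton]
    · rw [Finset.mem_singleton]
      exact fun h => h2 h.symm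
    · rw [Finset.mem_insert, Finset.mem_singleton]
      rintro (h | h)
      · exact h1 h.symm
      · exact h3 h.symm

lemma three_dvd_card (S : Finset F) (hS : ∀ x ∈ S, C.s x ∈ S) (hf : ∀ x ∈ S, C.s x ≠ x) :
    3 ∣ S.card := by
  classical
  haveI : Fact (Nat.Prime 3) := ⟨Nat.prime_three⟩
  let f : Function.End S := fun x => ⟨C.s x, hS x x.2⟩
  have hf3 : f ^ 3 ^ 1 = 1 := by
    funext x
    apply Subtype.ext
    change C.s (C.s (C.s (x : F))) = x
    exact C.s3 _
  have h1 := Equiv.Perm.card_fixedPoints_modEq hf3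
  have h2 : IsEmpty f.fixedPoints := by
    constructor
    rintro ⟨x, hx⟩
    have h3 : f x = x := hx
    exact hf x x.2 (congrArg Subtype.val h3)
  rw [Fintype.card_eq_zero (α := f.fixedPoints), Fintype.card_coe] at h1
  exact (Nat.modEq_zero_iff_dvd).mp h1

lemma G_mod (A t : K) : (3 : ℤ) ∣ C.G A t - 1 := by
  classical
  have h1 : C.G A t - 1 = ∑ h ∈ C.H.erase 0, C.ph A t h := by
    unfold G
    rw [← Finset.sum_erase_add _ _ C.H_zero, C.ph_zero]
    ring
  have hs : ∀ x ∈ C.H.erase 0, C.s x ∈ C.H.erase 0 := by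
    intro x hx
    rw [Finset.mem_erase] at hx ⊢
    exact ⟨fun h => hx.1 (C.s_zero h), C.H_s hx.2⟩
  have hfix : ∀ x ∈ C.H.erase 0, C.s x ≠ x := by
    intro x hx h
    rw [Finset.mem_erase] at hx
    exact hx.1 (C.fixed_zero hx.2 h)
  have key : ∀ e : ℤ, 3 ∣ ((C.H.erase 0).filter (fun x => C.ph A t x = e)).card := by
    intro e
    apply C.three_dvd_card
    · intro x hx
      rw [Finset.mem_filter] at hx ⊢
      exact ⟨hs x hx.1, by rw [C.ph_s]; exact hx.2⟩
    · intro x hx
      rw [Finset.mem_filter] at hx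
      exact hfix x hx.1
  have h2 : ∑ h ∈ C.H.erase 0, C.ph A t h =
      ((C.H.erase 0).filter (fun x => C.ph A t x = 1)).card
      - ((C.H.erase 0).filter (fun x => C.ph A t x = -1)).card := by
    have h3 : ∀ h ∈ C.H.erase 0, C.ph A t h =
        (if C.ph A t h = 1 then (1 : ℤ) else 0) - (if C.ph A t h = -1 then (1 : ℤ) else 0) := by
      intro h _
      rcases C.χpm (C.i (A * C.q h + t * C.N h)) with h4 | h4
      · have h5 : C.ph A t h = 1 := h4
        rw [h5]
        norm_num
      · have h5 : C.ph A t h = -1 := h4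
        rw [h5]
        norm_num
    rw [Finset.sum_congr rfl h3, Finset.sum_sub_distrib, Finset.sum_boole, Finset.sum_boole]
  rw [h1, h2]
  exact dvd_sub (by exact_mod_cast key 1) (by exact_mod_cast key (-1))

lemma Q_mod3 : (3 : ℤ) ∣ C.Q - (-1) ^ C.k := by
  rw [C.Q_eq]
  have h : ((2 : ℤ) - (-1)) ∣ 2 ^ C.k - (-1) ^ C.k := sub_dvd_pow_sub_pow _ _ _
  norm_num at h
  exact h

/-- The value of the sum. -/
theorem G_eq {A t : K} (h0 : A ≠ 0 ∨ t ≠ 0) :
    C.G A t = (-1) ^ C.k * C.Q * (1 - ((C.R A t).card : ℤ)) := by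
  classical
  have h1 := C.G_sq A t
  rw [C.card_V h0] at h1
  have h2 := C.G_mod A t
  have h3 := C.Q_mod3
  have h4 := C.Qpos
  have hε : ((-1 : ℤ) ^ C.k = 1 ∨ (-1 : ℤ) ^ C.k = -1) := neg_one_pow_eq_or ℤ C.k
  have key : ∀ e : ℤ, C.G A t ^ 2 = (e * C.Q) ^ 2 → C.G A t = e * C.Q ∨ C.G A t = -(e * C.Q) :=
    fun e h => sq_eq_sq_iff_eq_or_eq_neg.mp h
  rcases C.card_R h0 with hR | hR
  · rw [hR] at h1 ⊢
    have h5 := key 1 (by rw [h1]; push_cast; ring)
    rcases hε with hε | hε <;> rw [hε] at h3 ⊢ <;> rcases h5 with h5 | h5 <;> rw [h5] at h2 ⊢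
      <;> first | (exfalso; omega) | (push_cast; ring)
  · rw [hR] at h1 ⊢
    have h5 := key 2 (by rw [h1]; push_cast; ring)
    rcases hε with hε | hε <;> rw [hε] at h3 ⊢ <;> rcases h5 with h5 | h5 <;> rw [h5] at h2 ⊢
      <;> first | (exfalso; omega) | (push_cast; ring)

end Tri

end MC
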