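import Pool.Agent.MC.Tri3

/-!
The intertwining map and the functional equation.
-/

set_option autoImplicit false

open Finset

namespace MC

variable {F K : Type} [Field F] [Field K] [Fintype F] [Fintype K] (C : Tri F K)

namespace Tri

/-- The intertwining map. -/
def psi (h : F) : F := (C.η ^ 2 + C.η) * h + C.η * C.s h

include C

lemma η_ne : C.η ≠ 0 := by
  intro h
  have h1 := C.hη
  rw [h] at h1
  norm_num at h1

lemma η_ne1 : C.η + 1 ≠ 0 := by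
  intro h
  have h1 := C.hη
  rw [h] at h1
  exact C.η_ne (pow_eq_zero_iff (by norm_num) |>.mp h1)

lemma η_ne2 : C.η ^ 2 + C.η + 1 ≠ 0 := by
  intro h
  apply C.η_ne
  linear_combination (C.η - 1) * h - C.hη

lemma psi_H {h : F} (hh : h ∈ C.H) : C.psi h ∈ C.H := by
  rw [C.mem_H]
  apply C.inj
  rw [C.iT, map_zero]
  have two := C.two
  have hη := C.hη
  rcases C.sη with hs | hs
  · unfold psi
    simp only [map_add, map_mul, map_pow, C.ss_eq hh, hs]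
    linear_combination (3 * C.s h * C.η + C.s h * C.η ^ 2 + 2 * C.η * h + C.η ^ 2 * h) * two
  · unfold psi
    simp only [map_add, map_mul, map_pow, C.ss_eq hh, hs]
    generalize C.s h = a
    generalize C.η = e at *
    linear_combination (2 * a + 5 * a * e + a * e ^ 2 + a * e ^ 3 + a * e ^ 5 + 3 * e * h + e ^ 2 * h + e ^ 3 * h + e ^ 5 * h + 2 * h) * hη + (a + 4 * a * e + 4 * a * e ^ 2 + 3 * e * h + 3 * e ^ 2 * h + h) * two

lemma s_psi1 (hs : C.s C.η = C.η) {h : F} (hh : h ∈ C.H) :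
    C.s (C.psi h) = (C.η ^ 2 + C.η) * C.s h + C.η * (h + C.s h) := by
  unfold psi
  simp only [map_add, map_mul, map_pow, C.ss_eq hh, hs]

lemma s_psi2 (hs : C.s C.η = C.η ^ 2) {h : F} (hh : h ∈ C.H) :
    C.s (C.psi h) = ((C.η ^ 2) ^ 2 + C.η ^ 2) * C.s h + C.η ^ 2 * (h + C.s h) := by
  unfold psi
  simp only [map_add, map_mul, map_pow, C.ss_eq hh, hs]

lemma q_psi {h : F} (hh : h ∈ C.H) : C.q (C.psi h) = C.q h := by
  apply C.inj
  rw [C.iq (C.psi_H hh), C.iq hh]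
  have two := C.two
  have hη := C.hη
  rcases C.sη with hs | hs
  · rw [C.s_psi1 hs hh]
    unfold psi
    generalize C.s h = a
    generalize C.η = e at *
    linear_combination (a * e * h + 7 * a * h + 5 * a ^ 2 + a ^ 2 * e + e * h ^ 2 + 3 * h ^ 2) * hη + (4 * a * e * h + 5 * a * e ^ 2 * h + 3 * a * h + 2 * a ^ 2 + 3 * a ^ 2 * e + 4 * a ^ 2 * e ^ 2 + 2 * e * h ^ 2 + 2 * e ^ 2 * h ^ 2 + h ^ 2) * two
  · rw [C.s_psi2 hs hh]
    unfold psi
    generalize C.s h = a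
    generalize C.η = e at *
    linear_combination (9 * a * e * h + a * e ^ 2 * h + 3 * a * e ^ 3 * h + 9 * a * h + 9 * a ^ 2 + 9 * a ^ 2 * e + 2 * a ^ 2 * e ^ 2 + 5 * a ^ 2 * e ^ 3 + a ^ 2 * e ^ 5 + 3 * e * h ^ 2 + 3 * h ^ 2) * hη + (9 * a * e * h + 6 * a * e ^ 2 * h + 4 * a * h + 4 * a ^ 2 + 9 * a ^ 2 * e + 6 * a ^ 2 * e ^ 2 + 3 * e * h ^ 2 + 2 * e ^ 2 * h ^ 2 + h ^ 2) * two

lemma N_psi {h : F} (hh : h ∈ C.H) : C.N (C.psi h) = C.r h := by
  apply C.inj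
  rw [C.iN (C.psi_H hh), C.ir hh]
  have two := C.two
  have hη := C.hη
  rcases C.sη with hs | hs
  · rw [C.s_psi1 hs hh]
    unfold psi
    generalize C.s h = a
    generalize C.η = e at *
    linear_combination (14 * a * e * h ^ 2 + 6 * a * e ^ 2 * h ^ 2 + a * e ^ 3 * h ^ 2 + 16 * a * h ^ 2 + 17 * a ^ 2 * e * h + 7 * a ^ 2 * e ^ 2 * h + a ^ 2 * e ^ 3 * h + 21 * a ^ 2 * h + 7 * a ^ 3 + 5 * a ^ 3 * e + a ^ 3 * e ^ 2 + 3 * e * h ^ 3 + e ^ 2 * h ^ 3 + 3 * h ^ 3) * hη + (15 * a * e * h ^ 2 + 10 * a * e ^ 2 * h ^ 2 + 8 * a * h ^ 2 + 19 * a ^ 2 * e * h + 12 * a ^ 2 * e ^ 2 * h + 10 * a ^ 2 * h + 3 * a ^ 3 + 6 * a ^ 3 * e + 3 * a ^ 3 * e ^ 2 + 3 * e * h ^ 3 + 2 * e ^ 2 * h ^ 3 + h ^ 3) * two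
  · rw [C.s_psi2 hs hh]
    unfold psi
    generalize C.s h = a
    generalize C.η = e at *
    linear_combination (18 * a * e * h ^ 2 + 18 * a * e ^ 2 * h ^ 2 + 10 * a * e ^ 3 * h ^ 2 + 4 * a * e ^ 4 * h ^ 2 + 3 * a * e ^ 5 * h ^ 2 + 28 * a * h ^ 2 + 27 * a ^ 2 * e * h + 27 * a ^ 2 * e ^ 2 * h + 12 * a ^ 2 * e ^ 3 * h + 10 * a ^ 2 * e ^ 4 * h + 5 * a ^ 2 * e ^ 5 * h + a ^ 2 * e ^ 6 * h + a ^ 2 * e ^ 7 * h + 39 * a ^ 2 * h + 11 * a ^ 3 + 9 * a ^ 3 * e + 9 * a ^ 3 * e ^ 2 + 2 * a ^ 3 * e ^ 3 + 5 * a ^ 3 * e ^ 4 + a ^ 3 * e ^ 6 + 3 * e * h ^ 3 + 3 * e ^ 2 * h ^ 3 + 2 * e ^ 3 * h ^ 3 + 5 * h ^ 3) * hη + (23 * a * e * h ^ 2 + 18 * a * e ^ 2 * h ^ 2 + 14 * a * h ^ 2 + 33 * a ^ 2 * e * h + 27 * a ^ 2 * e ^ 2 * h + 19 * a ^ 2 * h + 5 * a ^ 3 + 10 * a ^ 3 * e + 9 * a ^ 3 * e ^ 2 + 4 * e * h ^ 3 + 3 * e ^ 2 * h ^ 3 + 2 * h ^ 3) * two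

lemma psi_add (x y : F) : C.psi (x + y) = C.psi x + C.psi y := by
  unfold psi
  rw [map_add]
  ring

lemma psi_ker {h : F} (hh : h ∈ C.H) (h0 : C.psi h = 0) : h = 0 := by
  have two := C.two
  have hη := C.hη
  have h1 : C.s h = (C.η + 1) * h := by
    unfold psi at h0
    have h2 : C.η * ((C.η + 1) * h + C.s h) = 0 := by linear_combination h0
    rcases mul_eq_zero.mp h2 with h3 | h3
    · exact absurd h3 C.η_ne
    · exact (C.eq_of_add h3).symm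
  have h2 := congrArg C.s h1
  rw [C.ss_eq hh, map_mul, map_add, map_one, h1] at h2
  rcases C.sη with hs | hs
  · rw [hs] at h2
    have h3 : (C.η ^ 2 + C.η + 1) * h = 0 := by
      linear_combination -h2 + h * two
    rcases mul_eq_zero.mp h3 with h4 | h4
    · exact absurd h4 C.η_ne2
    · exact h4
  · rw [hs] at h2
    have h3 : C.η * ((C.η + 1) * h) = 0 := by
      linear_combination -h2 - h * hη
    rcases mul_eq_zero.mp h3 with h4 | h4
    · exact absurd h4 C.η_ne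
    · rcases mul_eq_zero.mp h4 with h5 | h5
      · exact absurd h5 C.η_ne1
      · exact h5

lemma sum_psi (f : F → ℤ) : ∑ h ∈ C.H, f (C.psi h) = ∑ h ∈ C.H, f h := by
  classical
  have hinj : ∀ x ∈ C.H, ∀ y ∈ C.H, C.psi x = C.psi y → x = y := by
    intro x hx y hy h
    apply C.eq_of_add
    apply C.psi_ker (C.H_add hx hy)
    rw [C.psi_add, h, C.add_self]
  have h1 : C.H.image C.psi = C.H := by
    apply Finset.eq_of_subset_of_card_le
    · intro y hy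
      obtain ⟨x, hx, rfl⟩ := Finset.mem_image.mp hy
      exact C.psi_H hx
    · rw [Finset.card_image_of_injOn (fun x hx y hy h => hinj x hx y hy h)]
  conv_rhs => rw [← h1]
  rw [Finset.sum_image hinj]

/-- The twisted sums. -/
lemma G_r (A t : K) : ∑ h ∈ C.H, C.χ (C.i (A * C.q h + t * C.r h)) = C.G A t := by
  unfold G
  rw [← C.sum_psi (fun h => C.ph A t h)]
  refine Finset.sum_congr rfl fun h hh => ?_
  unfold ph
  rw [C.q_psi hh, C.N_psi hh]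

end Tri

namespace Tri

/-- The sum. -/
noncomputable def W (a : K) : ℤ := ∑ x : F, C.χ (C.i a * (x * C.s x) + x ^ 3 * C.s x)

include C

lemma T1 (t : K) {h : F} (hh : h ∈ C.H) :
    C.T ((C.i t + h) * C.s (C.i t + h)) = t ^ 2 + C.q h := by
  apply C.inj
  rw [C.iT]
  simp only [map_add, map_mul, map_pow, C.iq hh, C.si, C.ss_eq hh, C.s3]
  have two := C.two
  generalize C.s h = a
  generalize C.i t = t
  linear_combination (2 * a * h + 3 * a * t + a ^ 2 + 2 * h * t + t ^ 2) * two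

lemma T2 (t : K) {h : F} (hh : h ∈ C.H) :
    C.T ((C.i t + h) ^ 3 * C.s (C.i t + h))
      = t ^ 4 + t ^ 2 * C.q h + t * C.r h + (C.q h) ^ 2 := by
  apply C.inj
  rw [C.iT]
  simp only [map_add, map_mul, map_pow, C.iq hh, C.ir hh, C.si, C.ss_eq hh, C.s3]
  have two := C.two
  generalize C.s h = a
  generalize C.i t = t
  linear_combination (10 * a * h * t ^ 2 + 9 * a * h ^ 2 * t + 2 * a * h ^ 3 + 5 * a * t ^ 3 + 10 * a ^ 2 * h * t + 3 * a ^ 2 * h ^ 2 + 7 * a ^ 2 * t ^ 2 + 3 * a ^ 3 * h + 5 * a ^ 3 * t + a ^ 4 + 4 * h * t ^ 3 + 4 * h ^ 2 * t ^ 2 + 2 * h ^ 3 * t + t ^ 4) * two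

/-- The character of `K`. -/
lemma χi_sq (x : K) : C.χ (C.i (x ^ 2)) = C.χ (C.i x) := by
  rw [map_pow, C.χsq]

lemma χi_add (x y : K) : C.χ (C.i (x + y)) = C.χ (C.i x) * C.χ (C.i y) := by
  rw [map_add, C.χadd]

lemma W_eq (α : K) : C.W (α ^ 2) =
    ∑ t : K, C.χ (C.i ((1 + α) * t)) * C.G (t ^ 2 + (1 + α) ^ 2) t := by
  unfold W
  rw [C.sum_split]
  refine Finset.sum_congr rfl fun t _ => ?_
  rw [← C.G_r, Finset.mul_sum]
  refine Finset.sum_congr rfl fun h hh => ?_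
  rw [← C.χT, C.Tadd, C.Tmul, C.T1 t hh, C.T2 t hh]
  have e1 : α ^ 2 * (t ^ 2 + C.q h) + (t ^ 4 + t ^ 2 * C.q h + t * C.r h + C.q h ^ 2)
      = (α * t) ^ 2 + ((t ^ 2) ^ 2 + ((C.q h) ^ 2 + (α ^ 2 * C.q h + t ^ 2 * C.q h
        + t * C.r h))) := by ring
  have e2 : (t ^ 2 + (1 + α) ^ 2) * C.q h + t * C.r h
      = C.q h + (α ^ 2 * C.q h + t ^ 2 * C.q h + t * C.r h) := by
    linear_combination (α * C.q h) * C.twoK
  rw [e1, e2, show (1 + α) * t = α * t + t by ring]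
  simp only [C.χi_add, C.χi_sq]
  ring

/-- The dual sum. -/
noncomputable def Y (c : K) : ℤ := by
  classical
  exact ∑ z ∈ C.H, if C.q z = (C.N z) ^ 2 + c ^ 2 then C.χ (C.i (c * C.N z)) else 0

open Classical in
lemma Y_def (c : K) :
    C.Y c = ∑ z ∈ C.H, if C.q z = (C.N z) ^ 2 + c ^ 2 then C.χ (C.i (c * C.N z)) else 0 := rfl

lemma sumK_sq (f : K → ℤ) : ∑ t : K, f (t ^ 2) = ∑ t : K, f t := by
  have h1 : Function.Injective (fun x : K => x ^ 2) := by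
    intro x y h
    apply C.inj
    apply C.sq_inj
    rw [← map_pow, ← map_pow]
    exact congrArg C.i h
  exact Equiv.sum_comp (Equiv.ofBijective _ (Finite.injective_iff_bijective.mp h1)) f

lemma dual1 (c : K) :
    ∑ t : K, C.χ (C.i (c * t)) * C.G (t ^ 2 + c ^ 2) t = C.Q * C.χ (C.i c) * C.Y c := by
  classical
  have h1 : ∑ t : K, C.χ (C.i (c * t)) * C.G (t ^ 2 + c ^ 2) t
      = ∑ h ∈ C.H, ∑ t : K, C.χ (C.i (c ^ 2 * C.q h))
        * C.χ (C.i (t ^ 2 * (C.q h + ((C.N h) ^ 2 + c ^ 2)))) := by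
    rw [Finset.sum_comm]
    refine Finset.sum_congr rfl fun t _ => ?_
    unfold G
    rw [Finset.mul_sum]
    refine Finset.sum_congr rfl fun h _ => ?_
    unfold ph
    rw [← C.χi_sq (c * t), show (t ^ 2 + c ^ 2) * C.q h + t * C.N h
      = c ^ 2 * C.q h + (t ^ 2 * C.q h + t * C.N h) by ring, C.χi_add, C.χi_add,
      ← C.χi_sq (t * C.N h), show t ^ 2 * (C.q h + ((C.N h) ^ 2 + c ^ 2))
      = (c * t) ^ 2 + (t ^ 2 * C.q h + (t * C.N h) ^ 2) by ring, C.χi_add ((c * t) ^ 2),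
      C.χi_add]
    ring
  rw [h1, C.Y_def, Finset.mul_sum]
  refine Finset.sum_congr rfl fun h _ => ?_
  rw [← Finset.mul_sum, C.sumK_sq (fun t => C.χ (C.i (t * (C.q h + ((C.N h) ^ 2 + c ^ 2)))))]
  split_ifs with h2
  · rw [h2, C.addK]
    simp only [mul_zero, map_zero, C.χzero, Finset.sum_const, Finset.card_univ, nsmul_eq_mul,
      mul_one]
    rw [show c ^ 2 * ((C.N h) ^ 2 + c ^ 2) = (c * C.N h) ^ 2 + (c ^ 2) ^ 2 by ring, C.χi_add,
      C.χi_sq, C.χi_sq, C.χi_sq]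
    unfold Q
    ring
  · rw [C.orthK (fun h3 => h2 (C.eq_of_addK h3)), mul_zero, mul_zero]

lemma dual2 {c : K} (hc : c ≠ 0) :
    ∑ t : K, C.χ (C.i (c * t)) * C.G (t ^ 2 + c ^ 2) t = -((-1) ^ C.k * C.Q * C.Y c) := by
  classical
  have h1 : ∀ t : K, C.χ (C.i (c * t)) * C.G (t ^ 2 + c ^ 2) t
      = (-1) ^ C.k * C.Q * C.χ (C.i (t * c))
        - (-1) ^ C.k * C.Q * (∑ x ∈ C.H, if C.q x = t ^ 2 + c ^ 2 ∧ C.N x = t
          then C.χ (C.i (c * t)) else 0) := by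
    intro t
    have h0 : t ^ 2 + c ^ 2 ≠ 0 ∨ t ≠ 0 := by
      by_cases ht : t = 0
      · left
        rw [ht]
        simpa using hc
      · exact Or.inr ht
    have h2 : (∑ x ∈ C.H, if C.q x = t ^ 2 + c ^ 2 ∧ C.N x = t
          then C.χ (C.i (c * t)) else 0) = ((C.R (t ^ 2 + c ^ 2) t).card : ℤ)
            * C.χ (C.i (c * t)) := by
      rw [← Finset.sum_filter, Finset.sum_const, nsmul_eq_mul]
      rfl
    rw [C.G_eq h0, h2, mul_comm t c]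
    ring
  rw [Finset.sum_congr rfl (fun t _ => h1 t), Finset.sum_sub_distrib, ← Finset.mul_sum,
    ← Finset.mul_sum, C.orthK hc, Finset.sum_comm]
  have h3 : ∀ x ∈ C.H, (∑ t : K, if C.q x = t ^ 2 + c ^ 2 ∧ C.N x = t
          then C.χ (C.i (c * t)) else 0)
      = if C.q x = (C.N x) ^ 2 + c ^ 2 then C.χ (C.i (c * C.N x)) else 0 := by
    intro x _
    rw [Finset.sum_eq_single (C.N x)]
    · simp
    · intro t _ ht
      rw [if_neg]
      rintro ⟨-, h⟩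
      exact ht h.symm
    · intro h
      exact absurd (Finset.mem_univ _) h
  rw [Finset.sum_congr rfl h3, ← C.Y_def]
  ring

/-- The zeros of the sum. -/
theorem W_zero {α : K} (h1 : 1 + α ≠ 0) (h2 : C.χ (C.i α) = 1) : C.W (α ^ 2) = 0 := by
  have h3 := C.dual1 (1 + α)
  have h4 := C.dual2 h1
  have h5 : C.χ (C.i (1 + α)) = (-1) ^ C.k := by
    rw [C.χi_add, h2, mul_one, map_one, C.χone]
  rw [C.W_eq]
  rw [h5] at h3
  linarith [h3, h4]

end Tri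

end MC
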