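import Pool.Agent.MC.Tri4
import Pool.Agent.MC.Cub4

/-!
The decimations `(2 ^ m + 3) / (2 ^ m + 1)` over the field with `2 ^ (3 k)` elements, `m = k` or
`m = 2 k`.
-/

set_option autoImplicit false

open Finset

namespace MC

section

variable {F : Type} [Field F] [Fintype F] [Algebra (ZMod 2) F]

omit [Algebra (ZMod 2) F] in
/-- An element of the field with eight elements. -/
lemma exists_eta (h2 : (2 : F) = 0) {k : ℕ} (hF : Fintype.card F = 2 ^ (3 * k)) :
    ∃ e : F, e ^ 3 = e + 1 := by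
  classical
  haveI : Fact (Nat.Prime 7) := ⟨by norm_num⟩
  have h7 : 7 ∣ Fintype.card Fˣ := by
    rw [Fintype.card_units, hF]
    have h3 : (2 ^ (3 * k)) % 7 = 1 := by
      rw [pow_mul, Nat.pow_mod]
      norm_num
    omega
  obtain ⟨g, hg⟩ := exists_prime_orderOf_dvd_card 7 h7
  have hg7 : (g : F) ^ 7 = 1 := by
    rw [← Units.val_pow_eq_pow_val, ← hg, pow_orderOf_eq_one, Units.val_one]
  have hg1 : (g : F) + 1 ≠ 0 := by
    intro h
    have h4 : (g : F) = 1 := by
      linear_combination h - h2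
    have h5 : g = 1 := Units.ext h4
    rw [h5, orderOf_one] at hg
    norm_num at hg
  have hg0 : (g : F) ≠ 0 := g.ne_zero
  generalize (g : F) = y at *
  have h6 : (y + 1) * ((y ^ 3 + y + 1) * (y ^ 3 + y ^ 2 + 1)) = 0 := by
    linear_combination hg7 + (1 + y + y ^ 2 + 2 * y ^ 3 + 2 * y ^ 4 + y ^ 5 + y ^ 6) * h2
  rcases mul_eq_zero.mp h6 with h | h
  · exact absurd h hg1
  · rcases mul_eq_zero.mp h with h | h
    · exact ⟨y, by linear_combination h - (y + 1) * h2⟩
    · refine ⟨y⁻¹, ?_⟩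
      field_simp
      linear_combination -h + h2

/-- The setting exists. -/
theorem exists_tri {k m : ℕ} (hk : 0 < k) (hkm : m = k ∨ m = 2 * k) (hm : m % 3 ≠ 2)
    (hF : Fintype.card F = 2 ^ (3 * k)) :
    ∃ (K : Type) (_ : Field K) (_ : Fintype K) (C : Tri F K),
      (∀ x, C.s x = x ^ (2 ^ m)) ∧ (∀ x, C.χ x = chi x) ∧
      (∀ x : F, x ^ (2 ^ k) = x → ∃ t, C.i t = x) := by
  obtain ⟨s, hs, s3⟩ := exists_order3 hkm hF
  obtain ⟨φ⟩ : Nonempty (GaloisField 2 k →ₐ[ZMod 2] F) :=
    FiniteField.nonempty_algHom_of_finrank_dvd (by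
      rw [GaloisField.finrank 2 hk.ne', finrank_eq hF]
      exact dvd_mul_left _ _)
  letI : Fintype (GaloisField 2 k) := Fintype.ofFinite _
  have hK : Fintype.card (GaloisField 2 k) = 2 ^ k := by
    rw [Fintype.card_eq_nat_card, GaloisField.card 2 k hk.ne']
  have hpow : ∀ x : F, x ^ (2 ^ (3 * k)) = x := by
    intro x
    rw [← hF, FiniteField.pow_card]
  have hrange0 : ∀ x : F, x ^ (2 ^ k) = x → ∃ t : GaloisField 2 k, φ t = x :=
    fun x hx => range_of_fixed φ.toRingHom hk hK x hx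
  have hfixK : ∀ t : GaloisField 2 k, s (φ t) = φ t := by
    intro t
    have h1 : t ^ (2 ^ k) = t := by rw [← hK, FiniteField.pow_card]
    rw [hs, ← map_pow]
    rcases hkm with rfl | rfl
    · rw [h1]
    · rw [two_mul, pow_add, pow_mul, h1, h1]
  have hrange : ∀ x : F, s x = x → ∃ t : GaloisField 2 k, φ t = x := by
    intro x hx
    apply hrange0
    rw [hs] at hx
    rcases hkm with rfl | rfl
    · exact hx
    · have h5 := hpow x
      rw [show 3 * k = 2 * k + k by ring, pow_add, pow_mul, hx] at h5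
      exact h5
  have hT : ∀ x : F, ∃ t : GaloisField 2 k, φ t = x + s x + s (s x) := by
    intro x
    apply hrange
    simp only [map_add, s3]
    ring
  choose T hTe using hT
  obtain ⟨e, he⟩ := exists_eta (two_eq_zero (F := F)) hF
  have he8 : e ^ 8 = e := by
    linear_combination (e ^ 5 + e ^ 3 + e ^ 2 + e + 2) * he + (e ^ 2 + e + 1) * (two_eq_zero (F := F))
  have hse : s e = e ∨ s e = e ^ 2 := by
    rw [hs]
    have hdiv := Nat.div_add_mod m 3
    have hlt : m % 3 < 3 := Nat.mod_lt _ (by norm_num)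
    rcases (by omega : m % 3 = 0 ∨ m % 3 = 1) with h0 | h0
    · left
      rw [h0, add_zero] at hdiv
      rw [← hdiv, pow_eight he8]
    · right
      rw [h0] at hdiv
      rw [← hdiv, pow_add, pow_mul, pow_eight he8, pow_one]
  refine ⟨GaloisField 2 k, inferInstance, inferInstance,
    { k := k
      i := φ.toRingHom
      s := s
      T := T
      χ := chi
      η := e
      two := two_eq_zero
      s3 := s3
      si := hfixK
      fix := hrange
      iT := hTe
      χadd := chi_add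
      χs := ?_
      χsq := chi_sq
      χone := ?_
      χzero := ?_
      orth := ?_
      cardK := hK
      card := ?_
      hη := he
      sη := hse }, hs, fun _ => rfl, hrange0⟩
  · intro x
    rw [hs, chi_pow]
  · unfold chi
    have h1 := Algebra.trace_algebraMap (R := ZMod 2) (S := F) (1 : ZMod 2)
    rw [map_one, finrank_eq hF] at h1
    rw [h1]
    rcases Nat.even_or_odd k with hk2 | hk2
    · rw [hk2.neg_one_pow]
      obtain ⟨j, rfl⟩ := hk2
      have h2 : (3 * (j + j)) • (1 : ZMod 2) = 0 := by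
        simp only [nsmul_eq_mul, mul_one]
        push_cast
        have two2 : (2 : ZMod 2) = 0 := rfl
        linear_combination (3 * (j : ZMod 2)) * two2
      rw [h2]
      rfl
    · rw [hk2.neg_one_pow]
      obtain ⟨j, rfl⟩ := hk2
      have h2 : (3 * (2 * j + 1)) • (1 : ZMod 2) = 1 := by
        simp only [nsmul_eq_mul, mul_one]
        push_cast
        have two2 : (2 : ZMod 2) = 0 := rfl
        linear_combination (3 * (j : ZMod 2) + 1) * two2
      rw [h2]
      rfl
  · unfold chi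
    rw [map_zero]
    rfl
  · intro c hc
    obtain ⟨y, hy⟩ := Algebra.trace_surjective (ZMod 2) F 1
    have hone : chi y = -1 := by
      unfold chi
      rw [hy]
      rfl
    have h1 : ∑ x : F, chi (x * c) = ∑ x : F, chi x :=
      Equiv.sum_comp (Equiv.mulRight₀ c hc) (fun x => chi x)
    have h2 : ∑ x : F, chi x = ∑ x : F, chi (x + y) :=
      (Equiv.sum_comp (Equiv.addRight y) (fun x => chi x)).symm
    have h3 : ∑ x : F, chi (x + y) = - ∑ x : F, chi x := by
      rw [← Finset.sum_neg_distrib]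
      refine Finset.sum_congr rfl fun x _ => ?_
      rw [chi_add, hone]
      ring
    rw [h1]
    linarith [h2.trans h3]
  · rw [hF, hK, ← pow_mul]
    ring_nf

lemma coprime_tri {k m : ℕ} (hk : 0 < k) (hkm : m = k ∨ m = 2 * k) :
    Nat.Coprime (2 ^ m + 1) (2 ^ (3 * k) - 1) := by
  by_contra hcon
  obtain ⟨p, hp, h1, h2⟩ := Nat.Prime.not_coprime_iff_dvd.mp hcon
  have h1' : (p : ℤ) ∣ (2 : ℤ) ^ m + 1 := by exact_mod_cast h1
  have hone : 1 ≤ 2 ^ (3 * k) := Nat.one_le_two_pow
  have h2' : (p : ℤ) ∣ (2 : ℤ) ^ (3 * k) - 1 := by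
    have := Int.natCast_dvd_natCast.mpr h2
    rw [Nat.cast_sub hone] at this
    push_cast at this
    exact this
  have h3 : (p : ℤ) ∣ ((2 : ℤ) ^ m) ^ 3 - 1 := by
    rcases hkm with rfl | rfl
    · rw [← pow_mul, mul_comm]
      exact h2'
    · refine h2'.trans ?_
      have hX : ((2 : ℤ) ^ (2 * k)) ^ 3 = ((2 : ℤ) ^ (3 * k)) ^ 2 := by
        rw [← pow_mul, ← pow_mul]
        congr 1
        ring
      rw [hX]
      generalize (2 : ℤ) ^ (3 * k) = X
      exact ⟨X + 1, by ring⟩
  have h4 : (p : ℤ) ∣ 2 := by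
    have h5 : (2 : ℤ) = ((2 : ℤ) ^ m + 1) * (((2 : ℤ) ^ m) ^ 2 - 2 ^ m + 1)
      - (((2 : ℤ) ^ m) ^ 3 - 1) := by ring
    rw [h5]
    exact dvd_sub (dvd_mul_of_dvd_left h1' _) h3
  have h6 : p ∣ 2 := by exact_mod_cast h4
  have h9 := (Nat.prime_dvd_prime_iff_eq hp Nat.prime_two).mp h6
  subst h9
  have h10 : 2 ∣ 2 ^ (3 * k) := dvd_pow_self 2 (by omega)
  omega

/-- The substitution. -/
lemma tri_pow {k m d : ℕ} (hk : 2 ≤ k) (hkm : m = k ∨ m = 2 * k) (hm : m % 3 ≠ 2)
    (hF : Fintype.card F = 2 ^ (3 * k))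
    (hd : d * (2 ^ m + 1) ≡ 2 ^ m + 3 [MOD (Fintype.card F - 1)]) {s : F →+* F}
    (hs : ∀ x, s x = x ^ (2 ^ m)) (y : F) : (y * s y) ^ d = y ^ 3 * s y := by
  have hN : 1 < Fintype.card F - 1 := by
    rw [hF]
    have : 2 ^ 2 ≤ 2 ^ (3 * k) := Nat.pow_le_pow_right (by norm_num) (by omega)
    omega
  have hd0 : d ≠ 0 := by
    rintro rfl
    rw [zero_mul] at hd
    have h1 := coprime_cub (by omega) hkm hm
    have h2 := hd.gcd_eq
    rw [Nat.gcd_zero_left] at h2
    rw [← hF] at h1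
    have h3 : Nat.gcd (2 ^ m + 3) (Fintype.card F - 1) = 1 := h1
    omega
  have e1 : y * s y = y ^ (2 ^ m + 1) := by
    rw [hs, pow_succ, mul_comm]
  have e2 : y ^ 3 * s y = y ^ (2 ^ m + 3) := by
    rw [hs, pow_add, mul_comm]
  rw [e1, e2, ← pow_mul, mul_comm]
  exact pow_modEq (mul_ne_zero hd0 (by positivity)) (by positivity) hd y

lemma tri_inj {k m : ℕ} (hk : 2 ≤ k) (hkm : m = k ∨ m = 2 * k)
    (hF : Fintype.card F = 2 ^ (3 * k)) {s : F →+* F} (hs : ∀ x, s x = x ^ (2 ^ m)) :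
    Function.Injective (fun y : F => y * s y) := by
  have hN : 1 < Fintype.card F - 1 := by
    rw [hF]
    have : 2 ^ 2 ≤ 2 ^ (3 * k) := Nat.pow_le_pow_right (by norm_num) (by omega)
    omega
  have h := inj_of_coprime (F := F) hN (d := 2 ^ m + 1) (by
    rw [hF]
    exact coprime_tri (by omega) hkm)
  intro y z hyz
  apply h
  have h1 : y * s y = z * s z := hyz
  have e1 : ∀ y : F, y ^ (2 ^ m + 1) = y * s y := by
    intro y
    rw [hs, pow_succ, mul_comm]
  simp only [e1]
  exact h1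

/-- The zeros of the sum on the subfield. -/
theorem tri_zero {k m d : ℕ} (hk : 2 ≤ k) (hkm : m = k ∨ m = 2 * k) (hm : m % 3 ≠ 2)
    (hF : Fintype.card F = 2 ^ (3 * k))
    (hd : d * (2 ^ m + 1) ≡ 2 ^ m + 3 [MOD (Fintype.card F - 1)])
    {b : F} (hb : b ^ (2 ^ k) = b) (hb1 : b ^ 2 + b ≠ 1) : WS d (b ^ 2 + b) = 0 := by
  obtain ⟨K, _, _, C, hs, hχ, hr⟩ := exists_tri (by omega) hkm hm hF
  obtain ⟨t, ht⟩ := hr b hb
  obtain ⟨u, hu⟩ : ∃ u : K, u ^ 2 = t := by
    have h1 : Function.Injective (fun x : K => x ^ 2) := by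
      intro x y h
      apply C.inj
      apply C.sq_inj
      rw [← map_pow, ← map_pow]
      exact congrArg C.i h
    exact (Finite.injective_iff_surjective.mp h1) t
  have hα : C.i ((t + u) ^ 2) = b ^ 2 + b := by
    rw [← hu, map_pow, map_add, map_pow]
    rw [← ht, ← hu, map_pow]
    linear_combination (C.i u ^ 3) * C.two
  have h0 : 1 + (t + u) ≠ 0 := by
    intro h
    apply hb1
    have h1 : t + u = 1 := (C.eq_of_addK h).symm
    rw [← hα, h1, one_pow, map_one]
  have hc : C.χ (C.i (t + u)) = 1 := by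
    rw [C.χi_add, ← hu, C.χi_sq, C.χmul]
  have hW := C.W_zero h0 hc
  rw [WS_eq (φ := fun y => y * C.s y) (ψ := fun y => y ^ 3 * C.s y) (tri_inj hk hkm hF hs)
    (fun y => tri_pow hk hkm hm hF hd hs y), ← hα, ← hW]
  unfold Tri.W
  refine Finset.sum_congr rfl fun y _ => ?_
  rw [hχ]

/-- An element `b` of the subfield with `b ^ 2 + b` not zero and not one. -/
lemma exists_sub2 {k : ℕ} (hk : 3 ≤ k) (hF : Fintype.card F = 2 ^ (3 * k)) :
    ∃ b : F, b ^ (2 ^ k) = b ∧ b ^ 2 + b ≠ 0 ∧ b ^ 2 + b ≠ 1 := by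
  obtain ⟨φ⟩ : Nonempty (GaloisField 2 k →ₐ[ZMod 2] F) :=
    FiniteField.nonempty_algHom_of_finrank_dvd (by
      rw [GaloisField.finrank 2 (by omega), finrank_eq hF]
      exact dvd_mul_left _ _)
  letI : Fintype (GaloisField 2 k) := Fintype.ofFinite _
  have hK : Fintype.card (GaloisField 2 k) = 2 ^ k := by
    rw [Fintype.card_eq_nat_card, GaloisField.card 2 k (by omega)]
  classical
  have hinj : Function.Injective φ := φ.toRingHom.injective
  set P : Polynomial F := (Polynomial.X ^ 2 + Polynomial.X) *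
    (Polynomial.X ^ 2 + Polynomial.X - 1) with hP
  have hdeg1 : (Polynomial.X ^ 2 + Polynomial.X : Polynomial F).natDegree = 2 := by
    compute_degree!
  have hdeg2 : (Polynomial.X ^ 2 + Polynomial.X - 1 : Polynomial F).natDegree = 2 := by
    compute_degree!
  have hne1 : (Polynomial.X ^ 2 + Polynomial.X : Polynomial F) ≠ 0 := by
    intro h
    rw [h] at hdeg1
    simp at hdeg1
  have hne2 : (Polynomial.X ^ 2 + Polynomial.X - 1 : Polynomial F) ≠ 0 := by
    intro h
    rw [h] at hdeg2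
    simp at hdeg2
  have hPne : P ≠ 0 := mul_ne_zero hne1 hne2
  have hPdeg : P.natDegree = 4 := by
    rw [hP, Polynomial.natDegree_mul hne1 hne2, hdeg1, hdeg2]
  have hcard : P.roots.toFinset.card < (Finset.univ.image φ : Finset F).card := by
    rw [Finset.card_image_of_injective _ hinj, Finset.card_univ, hK]
    calc P.roots.toFinset.card ≤ Multiset.card P.roots := Multiset.toFinset_card_le _
      _ ≤ P.natDegree := Polynomial.card_roots' _
      _ = 4 := hPdeg
      _ < 2 ^ 3 := by norm_num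
      _ ≤ 2 ^ k := Nat.pow_le_pow_right (by norm_num) hk
  obtain ⟨b, hb, hbP⟩ := Finset.exists_mem_notMem_of_card_lt_card hcard
  obtain ⟨t, -, rfl⟩ := Finset.mem_image.mp hb
  rw [Multiset.mem_toFinset, Polynomial.mem_roots hPne, Polynomial.IsRoot.def, hP,
    Polynomial.eval_mul] at hbP
  simp only [Polynomial.eval_add, Polynomial.eval_pow, Polynomial.eval_X, Polynomial.eval_sub,
    Polynomial.eval_one, mul_eq_zero, not_or] at hbP
  refine ⟨φ t, ?_, hbP.1, fun h => hbP.2 (by rw [h, sub_self])⟩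
  rw [← map_pow, ← hK, FiniteField.pow_card]

/-- The conjecture for the quotients. -/
theorem tri_good {k m d : ℕ} (hk : 3 ≤ k) (hkm : m = k ∨ m = 2 * k) (hm : m % 3 ≠ 2)
    (hF : Fintype.card F = 2 ^ (3 * k))
    (hd : d * (2 ^ m + 1) ≡ 2 ^ m + 3 [MOD (Fintype.card F - 1)]) : Good F d := by
  obtain ⟨b, hb, hb0, hb1⟩ := exists_sub2 (F := F) hk hF
  refine ⟨?_, b ^ 2 + b, hb0, tri_zero (by omega) hkm hm hF hd hb hb1⟩
  have h1 := coprime_cub (by omega) hkm hm
  rw [← hF] at h1
  have h2 : Nat.Coprime (d * (2 ^ m + 1)) (Fintype.card F - 1) := hd.gcd_eq.trans h1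
  exact Nat.Coprime.coprime_mul_right h2

/-- All the classes of exponents given by a quotient. -/
theorem quot_good {n u v d j : ℕ} (hn : 2 ≤ n) (hF : Fintype.card F = 2 ^ n)
    (hu : Nat.Coprime u (Fintype.card F - 1))
    (h : ∀ d₀, d₀ * u ≡ v [MOD (Fintype.card F - 1)] → Good F d₀)
    (hd : d * u ≡ 2 ^ j * v [MOD (Fintype.card F - 1)] ∨
      d * v ≡ 2 ^ j * u [MOD (Fintype.card F - 1)]) : Good F d := by
  set N := Fintype.card F - 1 with hNdef
  have hN : 1 < N := by
    rw [hNdef, hF]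
    have : 2 ^ 2 ≤ 2 ^ n := Nat.pow_le_pow_right (by norm_num) hn
    omega
  obtain ⟨w, hw⟩ := Nat.exists_mul_mod_eq_one_of_coprime hu hN
  have hw' : w * u ≡ 1 [MOD N] := by
    unfold Nat.ModEq
    rw [mul_comm, hw.2, Nat.mod_eq_of_lt hN]
  have hd₀ : (w * v) * u ≡ v [MOD N] := by
    have h2 := hw'.mul_right v
    rw [one_mul] at h2
    rw [show w * v * u = w * u * v by ring]
    exact h2
  have hg := h _ hd₀
  have hcu' : Nat.gcd N u = 1 := Nat.Coprime.symm hu
  apply hg.equiv (n := n) (j := j) hn hF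
  rcases hd with hd | hd
  · left
    apply Nat.ModEq.cancel_right_of_coprime hcu'
    have h1 := hd₀.mul_left (2 ^ j)
    rw [show 2 ^ j * (w * v * u) = 2 ^ j * (w * v) * u by ring] at h1
    exact hd.trans h1.symm
  · right
    apply Nat.ModEq.cancel_right_of_coprime hcu'
    have h1 := hd₀.mul_left d
    rw [show d * (w * v * u) = d * (w * v) * u by ring] at h1
    exact h1.trans hd

end

end MC
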