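import Pool.Agent.MC.Count

/-!
The mixed moment `∑ V Γ` and the second moment `∑ V²`.
-/

set_option autoImplicit false

open Finset

namespace MC

variable {F K : Type} [Field F] [Field K] [Fintype F] [Fintype K] (C : Ctx F K)

namespace Ctx

include C

lemma kap_zero : C.kap 0 = 0 := by
  simp [kap]

open Classical in
lemma X_sum : ∑ u : F, C.V u * C.χ (C.kap u) = C.Q ^ 5 - C.Q ^ 4 * C.E 1 := by
  -- step 1: substitution u = g + y
  have h1 : ∑ u : F, C.V u * C.χ (C.kap u)
      = ∑ g : F, ∑ y : F, C.χ (C.kap g) * C.χ (g * (C.s (C.s (C.s (C.s y))) * C.s y)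
        + y * (C.s g * C.s (C.s g) + C.s (C.s (C.s (C.s g))) * C.s g
          + C.s (C.s (C.s g)) * C.s (C.s (C.s (C.s g))))) := by
    have e1 : ∀ u : F, C.V u * C.χ (C.kap u)
        = ∑ y : F, C.χ (C.kap y + u * C.P y) * C.χ (C.kap u) := by
      intro u
      rw [V, Finset.sum_mul]
    rw [Finset.sum_congr rfl fun u _ => e1 u, Finset.sum_comm]
    have e2 : ∀ y : F, ∑ u : F, C.χ (C.kap y + u * C.P y) * C.χ (C.kap u)
        = ∑ g : F, C.χ (C.kap y + (g + y) * C.P y) * C.χ (C.kap (g + y)) := by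
      intro y
      exact (Equiv.sum_comp (Equiv.addRight y)
        (fun u => C.χ (C.kap y + u * C.P y) * C.χ (C.kap u))).symm
    rw [Finset.sum_congr rfl fun y _ => e2 y, Finset.sum_comm]
    refine Finset.sum_congr rfl fun g _ => ?_
    refine Finset.sum_congr rfl fun y _ => ?_
    rw [← C.χadd, ← C.χadd]
    apply C.χcongr
    rw [C.iT, C.iT]
    simp only [kap, P, map_add, map_mul, C.s5]
    have h := C.two
    generalize C.s (C.s (C.s (C.s y))) = y4
    generalize C.s (C.s (C.s y)) = y3
    generalize C.s (C.s y) = y2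
    generalize C.s y = y1
    generalize C.s (C.s (C.s (C.s g))) = g4
    generalize C.s (C.s (C.s g)) = g3
    generalize C.s (C.s g) = g2
    generalize C.s g = g1
    linear_combination (g * y1 * y2 + g * y3 * y4 + g1 * y * y4 + g1 * y2 * y3 + g2 * y * y1
      + g2 * y3 * y4 + g3 * y * y4 + g3 * y1 * y2 + g4 * y * y1 + g4 * y2 * y3 + 2 * y * y1 * y2
      + 2 * y * y1 * y4 + 2 * y * y3 * y4 + 2 * y1 * y2 * y3 + 2 * y2 * y3 * y4) * h
  -- step 2: the inner sums
  have h2 : ∀ g : F, ∑ y : F, C.χ (C.kap g) * C.χ (g * (C.s (C.s (C.s (C.s y))) * C.s y)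
        + y * (C.s g * C.s (C.s g) + C.s (C.s (C.s (C.s g))) * C.s g
          + C.s (C.s (C.s g)) * C.s (C.s (C.s (C.s g)))))
      = (if g = 0 then C.Q ^ 5 else 0) + (if g ≠ 0 ∧
      C.T (C.s g * C.s (C.s g) * C.s (C.s (C.s g)) * C.s (C.s (C.s (C.s g)))) *
      C.T (C.s g * C.s (C.s g) * C.s (C.s (C.s g)) * C.s (C.s (C.s (C.s g)))) = C.Nm g
      then (1 : ℤ) else 0) * (- C.E 1) := by
    intro g
    by_cases hg : g = 0
    · subst hg
      simp only [kap, map_zero, mul_zero, zero_mul, add_zero, C.χzero, mul_one, Finset.sum_const,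
        Finset.card_univ, nsmul_eq_mul, if_true, ne_eq, not_true_eq_false, false_and, if_false]
      exact C.cardF
    · have hg1 := C.s_ne hg
      have hg2 := C.s_ne hg1
      have hg3 := C.s_ne hg2
      set R : F := C.s (C.s g) * C.s (C.s (C.s g)) with hR
      have hR0 : R ≠ 0 := mul_ne_zero hg2 hg3
      set n : F := C.s g * C.s (C.s g) * C.s (C.s g) * C.s (C.s (C.s g))
        + C.s (C.s g) * C.s (C.s (C.s g)) * C.s (C.s (C.s g)) * C.s (C.s (C.s (C.s g)))
        + C.s g * C.s (C.s g) * C.s (C.s (C.s g)) * C.s (C.s (C.s (C.s g))) with hn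
      have hTn : C.T n = C.T (C.s g * C.s (C.s g) * C.s (C.s (C.s g)) *
          C.s (C.s (C.s (C.s g)))) := by
        apply C.inj
        rw [C.iT, C.iT, hn]
        simp only [map_add, map_mul, C.s5]
        have h := C.two
        generalize C.s (C.s (C.s (C.s g))) = g4
        generalize C.s (C.s (C.s g)) = g3
        generalize C.s (C.s g) = g2
        generalize C.s g = g1
        linear_combination (g * g1 ^ 2 * g2 + g * g3 * g4 ^ 2 + g ^ 2 * g1 * g4 +
          g1 * g2 ^ 2 * g3 + g2 * g3 ^ 2 * g4) * h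
      have e1 : ∑ y : F, C.χ (C.kap g) * C.χ (g * (C.s (C.s (C.s (C.s y))) * C.s y)
        + y * (C.s g * C.s (C.s g) + C.s (C.s (C.s (C.s g))) * C.s g
          + C.s (C.s (C.s g)) * C.s (C.s (C.s (C.s g)))))
          = C.χ (C.kap g) * ∑ z : F, C.χ (C.i (C.Nm g) * (z * C.s (C.s z)) + z * n) := by
        rw [← Finset.mul_sum]
        congr 1
        rw [← sum_mulLeft R hR0]
        refine Finset.sum_congr rfl fun z _ => ?_
        have e3 : g * (C.s (C.s (C.s (C.s (R * z)))) * C.s (R * z))
            + R * z * (C.s g * C.s (C.s g) + C.s (C.s (C.s (C.s g))) * C.s g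
            + C.s (C.s (C.s g)) * C.s (C.s (C.s (C.s g))))
            = C.i (C.Nm g) * (C.s (C.s (C.s (C.s z))) * C.s z) + z * n := by
          rw [C.iNm, hR, hn]
          simp only [map_mul, C.s5]
          ring
        rw [e3, C.χadd, C.χadd]
        congr 1
        rw [← C.χs (C.i (C.Nm g) * (C.s (C.s (C.s (C.s z))) * C.s z))]
        congr 1
        simp only [map_mul, C.s5, C.si]
      rw [e1, C.quad_sum (C.Nm g) (C.Nm_ne hg) n]
      rw [if_neg hg, zero_add]
      by_cases hc : C.T n * C.T n = C.Nm g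
      · rw [if_pos hc, if_pos ⟨hg, by rw [← hTn]; exact hc⟩]
        have := C.key_n g hg n hn hc
        linear_combination (-C.E 1) * this
      · rw [if_neg hc, if_neg, mul_zero, zero_mul]
        rintro ⟨_, h⟩
        apply hc
        rw [hTn]
        exact h
  rw [h1, Finset.sum_congr rfl fun g _ => h2 g, Finset.sum_add_distrib, Finset.sum_ite_eq',
    ← Finset.sum_mul, C.count_cond]
  simp only [Finset.mem_univ, if_true]
  ring

/-- Fibre sum at trace one. -/
lemma trace_one_sum [DecidableEq K] :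
    C.Q * ∑ g : F, (if C.T g = 1 then C.χ (g * C.s g) else 0) = - C.E 1 := by
  rw [← C.E_alt]
  have h1 : ∀ c : K, ∑ u : F, (if C.T u = c then C.χ (u * C.s u + u) else 0)
      = - ∑ g : F, (if C.T g = 1 then C.χ (g * C.s g) else 0) := by
    intro c
    rw [← Finset.sum_neg_distrib, ← Equiv.sum_comp (Equiv.addRight (C.i (c + 1)))
      (fun u => if C.T u = c then C.χ (u * C.s u + u) else 0)]
    refine Finset.sum_congr rfl fun v _ => ?_
    have e0 : C.T (v + C.i (c + 1)) = C.T v + (c + 1) := by rw [C.Tadd, C.Ti]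
    simp only [Equiv.coe_addRight, e0]
    have h3 := C.addK c
    have h4 := C.addK (1 : K)
    have h5 : (C.T v + (c + 1) = c) ↔ C.T v = 1 := by
      constructor
      · intro h; linear_combination h - h4
      · intro h; linear_combination h + h4
    by_cases hv : C.T v = 1
    · rw [if_pos (h5.mpr hv), if_pos hv]
      have e1 : C.χ ((v + C.i (c + 1)) * C.s (v + C.i (c + 1)) + (v + C.i (c + 1)))
          = C.χ (v * C.s v + v + (C.i (c + 1) * C.i (c + 1) + C.i (c + 1))) := by
        apply C.χcongr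
        rw [C.iT, C.iT]
        simp only [map_add, map_mul, C.s5, C.si]
        have h := C.two
        generalize C.s (C.s (C.s (C.s v))) = n4
        generalize C.s (C.s (C.s v)) = n3
        generalize C.s (C.s v) = n2
        generalize C.s v = n1
        generalize C.i c = r
        linear_combination ((r + C.i 1) * (v + n1 + n2 + n3 + n4)) * h
      rw [e1, C.χadd, C.χadd (C.i (c + 1) * C.i (c + 1)), C.χsq, C.χmul, mul_one, C.χadd,
        ← C.χT v, hv, map_one, C.χone]
      ring
    · rw [if_neg hv, if_neg, neg_zero]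
      intro h; exact hv (h5.mp h)
  have h2 : ∑ u : F, C.χ (u * C.s u + u)
      = ∑ c : K, ∑ u : F, (if C.T u = c then C.χ (u * C.s u + u) else 0) := by
    rw [Finset.sum_comm]
    refine Finset.sum_congr rfl fun u _ => ?_
    rw [Finset.sum_ite_eq]
    simp
  rw [h2, Finset.sum_congr rfl fun c _ => h1 c]
  simp only [Finset.sum_const, Finset.card_univ, nsmul_eq_mul]
  change C.Q * _ = -(C.Q * _)
  ring

end Ctx

end MC
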