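import Pool.Agent.MC.Gam

/-!
The function `V u = ∑ y, χ (κ y + u (y₁ y₂ + y₃ y₄))` and the mixed moment with `Γ`.
-/

set_option autoImplicit false

open Finset

namespace MC

variable {F K : Type} [Field F] [Field K] [Fintype F] [Fintype K] (C : Ctx F K)

namespace Ctx

/-- `y₁ y₂ + y₃ y₄`. -/
def P (y : F) : F := C.s y * C.s (C.s y) + C.s (C.s (C.s y)) * C.s (C.s (C.s (C.s y)))

/-- `∑ y, χ (κ y + u (y₁ y₂ + y₃ y₄))`. -/
def V (u : F) : ℤ := ∑ y : F, C.χ (C.kap y + u * C.P y)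

/-- The norm to `K`. -/
def Nm (g : F) : K :=
  C.T (g * C.s g * C.s (C.s g) * C.s (C.s (C.s g)) * C.s (C.s (C.s (C.s g))))

include C

lemma iNm (g : F) : C.i (C.Nm g) =
    g * C.s g * C.s (C.s g) * C.s (C.s (C.s g)) * C.s (C.s (C.s (C.s g))) := by
  apply C.fixT
  simp only [map_mul, C.s5]
  ring

lemma s_ne {g : F} (hg : g ≠ 0) : C.s g ≠ 0 := by
  intro h
  apply hg
  have := congrArg (fun x => C.s (C.s (C.s (C.s x)))) h
  simp only [C.s5, map_zero] at this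
  exact this

lemma Nm_ne {g : F} (hg : g ≠ 0) : C.Nm g ≠ 0 := by
  intro h
  have h1 := C.iNm g
  rw [h, map_zero] at h1
  have a1 := C.s_ne hg
  have a2 := C.s_ne a1
  have a3 := C.s_ne a2
  have a4 := C.s_ne a3
  exact (mul_ne_zero (mul_ne_zero (mul_ne_zero (mul_ne_zero hg a1) a2) a3) a4) h1.symm

lemma exists_sqrt_inv (N : K) (hN : N ≠ 0) : ∃ p : K, p ≠ 0 ∧ p * p * N = 1 := by
  haveI : CharP K 2 := CharTwo.of_one_ne_zero_of_two_eq_zero one_ne_zero C.twoK
  obtain ⟨p, hp⟩ := FiniteField.isSquare_of_char_two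
    (ringChar.eq_iff.mpr (inferInstance : CharP K 2)) N⁻¹
  refine ⟨p, ?_, ?_⟩
  · rintro rfl
    rw [mul_zero] at hp
    exact hN (inv_eq_zero.mp hp)
  · rw [← hp]
    exact inv_mul_cancel₀ hN

lemma sq_inj {x y : K} (h : x * x = y * y) : x = y := by
  have h1 : (x + y) * (x + y) = 0 := by
    have := C.twoK
    linear_combination h + (x * y + y * y) * this
  have h2 := mul_self_eq_zero.mp h1
  have h3 := C.addK y
  linear_combination h2 - h3

open Classical in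
lemma quad_sum (N : K) (hN : N ≠ 0) (n : F) :
    ∑ z : F, C.χ (C.i N * (z * C.s (C.s z)) + z * n)
      = if C.T n * C.T n = N then - C.χ (C.i N⁻¹ * (n * C.s n)) * C.E 1 else 0 := by
  obtain ⟨p, hp0, hp⟩ := C.exists_sqrt_inv N hN
  have hpF : C.i p ≠ 0 := by
    intro h; apply hp0; apply C.inj; rw [h, map_zero]
  have hpi : C.i p * C.i p * C.i N = 1 := by
    rw [← map_mul, ← map_mul, hp, map_one]
  have e1 : ∑ z : F, C.χ (C.i N * (z * C.s (C.s z)) + z * n) = C.E (C.i p * n) := by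
    rw [← sum_mulLeft (C.i p) hpF, E]
    refine Finset.sum_congr rfl fun z _ => ?_
    simp only [map_mul, C.si]
    congr 1
    linear_combination (z * C.s (C.s z)) * hpi
  rw [e1]
  split_ifs with h
  · have hT : C.T (C.i p * n) = 1 := by
      rw [C.Tmul]
      apply C.sq_inj
      rw [one_mul, ← hp, ← h]
      ring
    rw [C.E_one hT]
    have e2 : C.i p * n * C.s (C.i p * n) = C.i N⁻¹ * (n * C.s n) := by
      have hN' : C.i N⁻¹ = C.i p * C.i p := by
        rw [← map_mul]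
        congr 1
        field_simp
        linear_combination -hp
      rw [hN']
      simp only [map_mul, C.si]
      ring
    rw [e2]
  · apply C.E_zero
    intro hT
    apply h
    rw [C.Tmul] at hT
    have e3 : p * p * (C.T n * C.T n) = p * p * N := by
      rw [hp]
      calc p * p * (C.T n * C.T n) = (p * C.T n) * (p * C.T n) := by ring
        _ = 1 := by rw [hT, one_mul]
    exact mul_left_cancel₀ (mul_ne_zero hp0 hp0) e3

/-- The linear coefficient after the substitution `y = g₂ g₃ z`. -/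
lemma key_n (g : F) (hg : g ≠ 0) (n : F)
    (hn : n = C.s g * C.s (C.s g) * C.s (C.s g) * C.s (C.s (C.s g))
      + C.s (C.s g) * C.s (C.s (C.s g)) * C.s (C.s (C.s g)) * C.s (C.s (C.s (C.s g)))
      + C.s g * C.s (C.s g) * C.s (C.s (C.s g)) * C.s (C.s (C.s (C.s g))))
    (hT : C.T n * C.T n = C.Nm g) :
    C.χ (C.kap g) * C.χ (C.i (C.Nm g)⁻¹ * (n * C.s n)) = 1 := by
  have hN := C.Nm_ne hg
  have hT0 : C.T n ≠ 0 := by
    intro h
    rw [h, mul_zero] at hT
    exact hN hT.symm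
  set m : F := C.s (C.s (C.s (C.s g))) * g * g * C.s g with hm
  have key : C.T (n * C.s n) = C.Nm g * C.T (C.kap g) + C.T m * C.T m + C.T m * C.T n := by
    apply C.inj
    rw [map_add, map_add, map_mul, map_mul, map_mul, C.iNm, C.iT, C.iT, C.iT, C.iT, hn, hm]
    simp only [kap, map_add, map_mul, C.s5]
    have h := C.two
    generalize C.s (C.s (C.s (C.s g))) = g4
    generalize C.s (C.s (C.s g)) = g3
    generalize C.s (C.s g) = g2
    generalize C.s g = g1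
    have h1 : (g * g1 ^ 2 * g2 + g * g3 * g4 ^ 2 + g ^ 2 * g1 * g4 + g1 * g2 ^ 2 * g3 +
      g2 * g3 ^ 2 * g4) = (g * g1 ^ 2 * g2 + g * g3 * g4 ^ 2 + g ^ 2 * g1 * g4 +
      g1 * g2 ^ 2 * g3 + g2 * g3 ^ 2 * g4) := rfl
    linear_combination (-g * g1 * g2 ^ 2 * g3 ^ 2 * g4 ^ 2 - g * g1 ^ 2 * g2 ^ 2 * g3 ^ 2 * g4
      - g ^ 2 * g1 * g2 * g3 ^ 2 * g4 ^ 2 - g ^ 2 * g1 ^ 2 * g2 * g3 * g4 ^ 2
      - g ^ 2 * g1 ^ 2 * g2 ^ 2 * g3 * g4
      - (g4 * g * g * g1 + g * g1 * g1 * g2 + g1 * g2 * g2 * g3 + g2 * g3 * g3 * g4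
        + g3 * g4 * g4 * g) * (g * g1 ^ 2 * g2 + g * g3 * g4 ^ 2 + g ^ 2 * g1 * g4 +
      g1 * g2 ^ 2 * g3 + g2 * g3 ^ 2 * g4)) * h
  rw [C.χi, key, ← C.χT (C.kap g), ← C.χadd, ← map_add]
  have e1 : C.T (C.kap g) + (C.Nm g)⁻¹ * (C.Nm g * C.T (C.kap g) + C.T m * C.T m + C.T m * C.T n)
      = (C.T m / C.T n) * (C.T m / C.T n) + C.T m / C.T n := by
    rw [← hT]
    have h := C.twoK
    field_simp
    linear_combination (C.T (C.kap g) * C.T n ^ 2) * h
  rw [e1, map_add, map_mul, C.χadd, C.χsq, C.χmul]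

end Ctx

end MC
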